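import Pool.Agent.H24.LW.Pt
set_option autoImplicit false

/-! Gaussian sums over integer vectors of a subspace. -/

namespace H24.LW

open Finset H460
open H24.ID

/-- coordinates that determine the vectors of a subspace -/
theorem exists_coords {m : ℕ} (U : Submodule ℝ (EuclideanSpace ℝ (Fin m))) :
    ∃ I : Finset (Fin m), I.card ≤ Module.finrank ℝ U ∧
      ∀ u ∈ U, (∀ i ∈ I, u i = 0) → u = 0 := by
  classical
  let P : Finset (Fin m) → Prop := fun I => ∀ u ∈ U, (∀ i ∈ I, u i = 0) → u = 0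
  have huniv : P Finset.univ := by
    intro u _ hu
    ext i
    exact hu i (Finset.mem_univ i)
  obtain ⟨I, hI, hmin⟩ := Finset.exists_min_image (Finset.univ.filter P) Finset.card
    ⟨Finset.univ, Finset.mem_filter.2 ⟨Finset.mem_univ _, huniv⟩⟩
  have hPI : P I := (Finset.mem_filter.1 hI).2
  refine ⟨I, ?_, hPI⟩
  have h1 : ∀ i : I, ∃ u ∈ U, (∀ j ∈ I, j ≠ i → u j = 0) ∧ u i ≠ 0 := by
    rintro ⟨i, hi⟩
    have h2 : ¬ P (I.erase i) := by
      intro h
      have := hmin (I.erase i) (Finset.mem_filter.2 ⟨Finset.mem_univ _, h⟩)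
      rw [Finset.card_erase_of_mem hi] at this
      have := Finset.card_pos.2 ⟨i, hi⟩
      omega
    simp only [P] at h2
    push Not at h2
    obtain ⟨u, hu, hz, hne⟩ := h2
    refine ⟨u, hu, fun j hj hji => hz j (Finset.mem_erase.2 ⟨hji, hj⟩), ?_⟩
    intro h0
    apply hne
    apply hPI u hu
    intro j hj
    by_cases hji : j = i
    · rw [hji]
      exact h0
    · exact hz j (Finset.mem_erase.2 ⟨hji, hj⟩)
  choose u hu hz hne using h1
  have hli : LinearIndependent ℝ (fun i : I => (⟨u i, hu i⟩ : U)) := by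
    rw [linearIndependent_iff']
    intro s g hg i hi
    have h2 := congrArg (fun w : U => (w : EuclideanSpace ℝ (Fin m)) i) hg
    simp only [Submodule.coe_sum, Submodule.coe_smul, Submodule.coe_zero, PiLp.zero_apply] at h2
    rw [WithLp.ofLp_sum, Finset.sum_apply] at h2
    rw [Finset.sum_eq_single i] at h2
    · rw [PiLp.smul_apply, smul_eq_mul] at h2
      rcases mul_eq_zero.1 h2 with h | h
      · exact h
      · exact absurd h (hne i)
    · intro j _ hji
      rw [PiLp.smul_apply, hz j i i.2 (fun h => hji (Subtype.ext h.symm)), smul_zero]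
    · intro h
      exact absurd hi h
  have := hli.fintype_card_le_finrank
  rwa [Fintype.card_coe] at this

theorem one_dim (B : ℕ) : ∑ k ∈ Finset.Icc (-(B : ℤ)) B, Real.exp (-(k : ℝ) ^ 2) ≤
    3 - 2 * (1 / 2) ^ B := by
  induction B with
  | zero => norm_num
  | succ B ih =>
    have h1 : Finset.Icc (-((B + 1 : ℕ) : ℤ)) ((B + 1 : ℕ) : ℤ) =
        insert (-((B + 1 : ℕ) : ℤ)) (insert (((B + 1 : ℕ) : ℤ)) (Finset.Icc (-(B : ℤ)) B)) := by
      ext k
      simp only [Finset.mem_Icc, Finset.mem_insert]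
      push_cast
      omega
    rw [h1, Finset.sum_insert, Finset.sum_insert]
    · have h2 : Real.exp (-(((B + 1 : ℕ) : ℤ) : ℝ) ^ 2) ≤ (1 / 2) ^ (B + 1) := by
        have e1 : -((((B + 1 : ℕ) : ℤ) : ℝ)) ^ 2 ≤ ((B + 1 : ℕ) : ℝ) * (-1) := by
          push_cast
          nlinarith [Nat.cast_nonneg (α := ℝ) B]
        refine (Real.exp_le_exp.2 e1).trans ?_
        rw [Real.exp_nat_mul]
        refine pow_le_pow_left₀ (Real.exp_pos _).le ?_ _
        rw [Real.exp_neg, one_div]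
        refine inv_anti₀ (by norm_num) ?_
        linarith [Real.add_one_le_exp 1]
      have h3 : Real.exp (-((-((B + 1 : ℕ) : ℤ) : ℤ) : ℝ) ^ 2) ≤ (1 / 2) ^ (B + 1) := by
        refine le_trans (le_of_eq ?_) h2
        congr 1
        push_cast
        ring
      have h4 : (1 / 2 : ℝ) ^ (B + 1) = (1 / 2) ^ B * (1 / 2) := pow_succ _ _
      rw [h4] at h2 h3 ⊢
      linarith
    · simp only [Finset.mem_Icc]
      push_cast
      omega
    · simp only [Finset.mem_Icc, Finset.mem_insert]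
      push_cast
      omega

theorem norm_sq_eq {m : ℕ} (v : EuclideanSpace ℝ (Fin m)) : ‖v‖ ^ 2 = ∑ i, v i ^ 2 := by
  rw [EuclideanSpace.norm_eq, Real.sq_sqrt (Finset.sum_nonneg fun _ _ => sq_nonneg _)]
  exact Finset.sum_congr rfl fun i _ => by rw [Real.norm_eq_abs, sq_abs]

open Classical in
/-- Gaussian mass of the integer vectors of a subspace -/
theorem int_sum {m : ℕ} (U : Submodule ℝ (EuclideanSpace ℝ (Fin m)))
    (M : AddSubgroup (EuclideanSpace ℝ (Fin m))) (hMU : ∀ x ∈ M, x ∈ U) :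
    ∑' ρ : M, gw 1 (ρ : EuclideanSpace ℝ (Fin m)) *
      (if IsInt (ρ : EuclideanSpace ℝ (Fin m)) then 1 else 0) ≤ 3 ^ Module.finrank ℝ U := by
  obtain ⟨I, hI, hinj⟩ := exists_coords U
  refine Real.tsum_le_of_sum_le (fun ρ => ?_) fun F => ?_
  · refine mul_nonneg (gw_pos _ _).le ?_
    split_ifs <;> norm_num
  -- restrict to integer vectors
  have h1 : ∑ ρ ∈ F, gw 1 (ρ : EuclideanSpace ℝ (Fin m)) *
      (if IsInt (ρ : EuclideanSpace ℝ (Fin m)) then 1 else 0) =
      ∑ ρ ∈ F.filter (fun ρ : M => IsInt (ρ : EuclideanSpace ℝ (Fin m))),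
        gw 1 (ρ : EuclideanSpace ℝ (Fin m)) := by
    rw [Finset.sum_filter]
    refine Finset.sum_congr rfl fun ρ _ => ?_
    split_ifs <;> ring
  rw [h1]
  obtain ⟨G, hG⟩ : ∃ G : Finset M,
    G = F.filter (fun ρ : M => IsInt (ρ : EuclideanSpace ℝ (Fin m))) := ⟨_, rfl⟩
  rw [← hG]
  have hGi : ∀ ρ ∈ G, ∀ i, ((round ((ρ : EuclideanSpace ℝ (Fin m)) i) : ℤ) : ℝ) =
      (ρ : EuclideanSpace ℝ (Fin m)) i := by
    intro ρ hρ i
    rw [hG] at hρ
    obtain ⟨n, hn⟩ := (Finset.mem_filter.1 hρ).2 i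
    rw [hn, round_intCast]
  let κ : M → (I → ℤ) := fun ρ i => round ((ρ : EuclideanSpace ℝ (Fin m)) i)
  have hκ : Set.InjOn κ (G : Set M) := by
    intro a ha b hb hab
    have h2 : (a : EuclideanSpace ℝ (Fin m)) - b = 0 := by
      refine hinj _ (U.sub_mem (hMU _ a.2) (hMU _ b.2)) fun i hi => ?_
      have h3 : (round ((a : EuclideanSpace ℝ (Fin m)) i) : ℤ) =
        round ((b : EuclideanSpace ℝ (Fin m)) i) := congrFun hab ⟨i, hi⟩
      rw [PiLp.sub_apply, ← hGi a ha i, ← hGi b hb i, h3, sub_self]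
    exact Subtype.ext (sub_eq_zero.1 h2)
  obtain ⟨B, hB⟩ : ∃ B : ℕ, ∀ ρ ∈ G, ∀ i : I, (κ ρ i).natAbs ≤ B := by
    refine ⟨∑ ρ ∈ G, ∑ i : I, (κ ρ i).natAbs, fun ρ hρ i => ?_⟩
    calc (κ ρ i).natAbs ≤ ∑ i : I, (κ ρ i).natAbs :=
          Finset.single_le_sum (f := fun i : I => (κ ρ i).natAbs) (fun _ _ => Nat.zero_le _)
            (Finset.mem_univ i)
      _ ≤ ∑ ρ ∈ G, ∑ i : I, (κ ρ i).natAbs :=
          Finset.single_le_sum (f := fun ρ => ∑ i : I, (κ ρ i).natAbs) (fun _ _ => Nat.zero_le _) hρ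
  calc ∑ ρ ∈ G, gw 1 (ρ : EuclideanSpace ℝ (Fin m))
      ≤ ∑ ρ ∈ G, ∏ i : I, Real.exp (-((κ ρ i : ℤ) : ℝ) ^ 2) := by
        refine Finset.sum_le_sum fun ρ hρ => ?_
        rw [gw, ← Real.exp_sum]
        apply Real.exp_le_exp.2
        rw [norm_sq_eq, Finset.sum_neg_distrib, neg_mul, one_mul, neg_le_neg_iff]
        calc ∑ i : I, ((κ ρ i : ℤ) : ℝ) ^ 2 = ∑ i ∈ I, (ρ : EuclideanSpace ℝ (Fin m)) i ^ 2 := by
              rw [← Finset.sum_coe_sort I]
              exact Finset.sum_congr rfl fun i _ => by rw [hGi ρ hρ i]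
          _ ≤ ∑ i, (ρ : EuclideanSpace ℝ (Fin m)) i ^ 2 :=
              Finset.sum_le_sum_of_subset_of_nonneg (Finset.subset_univ _)
                fun _ _ _ => sq_nonneg _
    _ = ∑ k ∈ G.image κ, ∏ i : I, Real.exp (-((k i : ℤ) : ℝ) ^ 2) := by
        rw [Finset.sum_image fun a ha b hb h => hκ ha hb h]
    _ ≤ ∑ k ∈ Fintype.piFinset fun _ : I => Finset.Icc (-(B : ℤ)) B,
          ∏ i : I, Real.exp (-((k i : ℤ) : ℝ) ^ 2) := by
        refine Finset.sum_le_sum_of_subset_of_nonneg ?_ fun _ _ _ =>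
          Finset.prod_nonneg fun _ _ => (Real.exp_pos _).le
        intro k hk
        obtain ⟨ρ, hρ, rfl⟩ := Finset.mem_image.1 hk
        rw [Fintype.mem_piFinset]
        intro i
        rw [Finset.mem_Icc]
        have := hB ρ hρ i
        omega
    _ = ∏ _i : I, ∑ k ∈ Finset.Icc (-(B : ℤ)) B, Real.exp (-(k : ℝ) ^ 2) := by
        rw [Finset.prod_univ_sum]
    _ ≤ ∏ _i : I, (3 : ℝ) := by
        refine Finset.prod_le_prod (fun _ _ => Finset.sum_nonneg fun _ _ => (Real.exp_pos _).le)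
          fun _ _ => (one_dim B).trans ?_
        have : (0 : ℝ) < (1 / 2) ^ B := by positivity
        linarith
    _ = 3 ^ I.card := by
        rw [Finset.prod_const, Finset.card_univ, Fintype.card_coe]
    _ ≤ 3 ^ Module.finrank ℝ U := pow_le_pow_right₀ (by norm_num) hI

end H24.LW
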