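import Pool.Agent.H24.ID.Final
set_option autoImplicit false

/-! From an infinitely divisible weight on a finite group to a dense piece of a small Bohr set. -/

namespace H24.LW

open Finset
open scoped Pointwise
open H24.ID

theorem fam : ∃ E : ℕ, ∀ (D : Type*) [AddCommGroup D] [Fintype D] [DecidableEq D]
    (ι : Type*) [Fintype ι] (χ : ι → (D →+ UnitAddCircle)) (w : ι → ℝ), (∀ i, 0 ≤ w i) →
    ∀ (K : ℝ), 1 ≤ K → ∀ (A₁ : Finset D), A₁.Nonempty →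
    (∀ a ∈ A₁, ∑ i, w i * u1 (χ i a) ≤ 2 * Real.log (2 * K)) →
    ∑ x, Real.exp (-∑ i, w i * u1 (χ i x)) ≤ (2 * K) ^ 2 * A₁.card →
    ∃ (m : ℕ) (η : Fin m → (D →+ UnitAddCircle)) (γ₀ : D) (S₁ : Finset D),
      S₁ ⊆ A₁ ∧ (∀ γ ∈ S₁, ∀ i, ‖η i (γ - γ₀)‖ ≤ 1 / 8) ∧
      (∀ γ ∈ S₁, en η (γ - γ₀) ≤ E * Real.log (2 * K)) ∧
      (A₁.card : ℝ) ≤ (2 * K) ^ E * S₁.card ∧
      ∑ x, Real.exp (-en η x / 2) ≤ (2 * K) ^ E * A₁.card := by
  obtain ⟨N, hN⟩ := lemmaA'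
  obtain ⟨P, hP⟩ : ∃ P : ℕ, P = 84 * (N + 1) + 1 := ⟨_, rfl⟩
  refine ⟨8 * P + 200, ?_⟩
  intro D _ _ _ ι _ χ w hw K hK A₁ hA₁ hA₁e hsum
  obtain ⟨L, hL⟩ : ∃ L : ℝ, L = 2 * K := ⟨_, rfl⟩
  have hL2 : 2 ≤ L := by rw [hL]; linarith
  have hL1 : 1 ≤ L := by linarith
  have hL0 : 0 < L := by linarith
  obtain ⟨ℓ, hℓ⟩ : ∃ ℓ : ℝ, ℓ = Real.log (2 * K) := ⟨_, rfl⟩
  have hℓ0 : 0 < ℓ := by
    rw [hℓ]
    exact Real.log_pos (by linarith)
  have hexp : ∀ n : ℕ, Real.exp (n * ℓ) = L ^ n := by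
    intro n
    rw [Real.exp_nat_mul, hℓ, Real.exp_log (by linarith), hL]
  rw [← hℓ] at hA₁e ⊢
  rw [← hL] at hsum ⊢
  have hA₁c : (0 : ℝ) < A₁.card := by exact_mod_cast hA₁.card_pos
  obtain ⟨m, η, hη1, hη2⟩ := exists_family χ w hw A₁ hA₁ (2 * ℓ) (L ^ 2 * A₁.card)
    (by positivity) (by positivity) hA₁e hsum
  obtain ⟨A₂, hA₂⟩ : ∃ A₂ : Finset D, A₂ = A₁.filter fun a => en η a ≤ 40 * (2 * ℓ) := ⟨_, rfl⟩
  rw [← hA₂] at hη2
  have hA₂e : ∀ a ∈ A₂, en η a ≤ 80 * ℓ := by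
    intro a ha
    rw [hA₂] at ha
    have := (Finset.mem_filter.1 ha).2
    linarith
  have hA₂p : (0 : ℝ) < A₂.card := by linarith
  have hZh : ∑ x, Real.exp (-en η x / 2) ≤ L ^ 3 * A₁.card := by
    refine hη1.trans ?_
    calc 2 * (L ^ 2 * (A₁.card : ℝ)) ≤ L * (L ^ 2 * A₁.card) := by gcongr
      _ = _ := by ring
  have hZh' : ∑ x, Real.exp (-en η x / 2) ≤ L ^ 4 * A₂.card := by
    refine hZh.trans ?_
    calc L ^ 3 * (A₁.card : ℝ) ≤ L ^ 3 * (2 * A₂.card) := by gcongr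
      _ ≤ L ^ 3 * (L * A₂.card) := by gcongr
      _ = _ := by ring
  have hZ1 : (A₂.card : ℝ) ≤ L ^ 80 * ∑ x, Real.exp (-en η x) := by
    have e1 : (A₂.card : ℝ) * (L ^ 80)⁻¹ ≤ ∑ x, Real.exp (-en η x) := by
      calc (A₂.card : ℝ) * (L ^ 80)⁻¹ = ∑ a ∈ A₂, (L ^ 80)⁻¹ := by
            rw [Finset.sum_const, nsmul_eq_mul]
        _ ≤ ∑ a ∈ A₂, Real.exp (-en η a) := by
            refine Finset.sum_le_sum fun a ha => ?_
            rw [← hexp 80, ← Real.exp_neg]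
            apply Real.exp_le_exp.2
            have := hA₂e a ha
            push_cast
            linarith
        _ ≤ _ := Finset.sum_le_sum_of_subset_of_nonneg (Finset.subset_univ _)
            fun _ _ _ => (Real.exp_pos _).le
    rw [← div_eq_mul_inv, div_le_iff₀ (by positivity)] at e1
    linarith
  have hκ : ∑ x, Real.exp (-en η x / 2) ≤ L ^ 84 * ∑ x, Real.exp (-en η x) := by
    calc ∑ x, Real.exp (-en η x / 2) ≤ L ^ 4 * A₂.card := hZh'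
      _ ≤ L ^ 4 * (L ^ 80 * ∑ x, Real.exp (-en η x)) := by gcongr
      _ = _ := by ring
  obtain ⟨R₀, hR₀⟩ : ∃ R₀ : ℝ, R₀ = 2 * (P * ℓ) := ⟨_, rfl⟩
  have hPp : (0 : ℝ) < P := by rw [hP]; positivity
  have hR₀p : 0 < R₀ := by rw [hR₀]; positivity
  have hD := hN D m η (L ^ 84) R₀ hκ (by
    rw [hR₀, mul_div_cancel_left₀ _ (two_ne_zero), hexp, hP, ← pow_mul, pow_succ]
    calc 2 * L ^ (84 * (N + 1)) ≤ L * L ^ (84 * (N + 1)) := by gcongr
      _ = _ := by ring)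
  obtain ⟨B, hBdef⟩ : ∃ B : Finset D, B = Finset.univ.filter fun x : D =>
      (∀ i, ‖η i x‖ < 1 / 16) ∧ en η x ≤ R₀ := by
    classical
    exact ⟨_, rfl⟩
  have hDm : ∀ x, x ∈ B ↔ ((∀ i, ‖η i x‖ < 1 / 16) ∧ en η x ≤ R₀) := by
    intro x
    rw [hBdef]
    simp
  have hDc : ({x : D | (∀ i, ‖η i x‖ < 1 / 16) ∧ en η x ≤ R₀}.ncard : ℝ) = B.card := by
    congr 1
    rw [← Set.ncard_coe_finset]
    congr 1
    ext x
    rw [Set.mem_ofPred_eq, Finset.mem_coe, hDm]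
  rw [hDc] at hD
  have hDbig : (A₂.card : ℝ) ≤ L ^ P * B.card := by
    have e1 : ∑ x, Real.exp (-en η x) ≤ (2 * (L ^ 84) ^ N) * B.card := by
      rw [div_le_iff₀ (by positivity)] at hD
      linarith
    calc (A₂.card : ℝ) ≤ L ^ 80 * ∑ x, Real.exp (-en η x) := hZ1
      _ ≤ L ^ 80 * ((2 * (L ^ 84) ^ N) * B.card) := by gcongr
      _ ≤ L ^ 80 * ((L * (L ^ 84) ^ N) * B.card) := by gcongr
      _ = L ^ (84 * N + 81) * B.card := by
        rw [← pow_mul]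
        ring
      _ ≤ L ^ P * B.card := by
        refine mul_le_mul_of_nonneg_right ?_ (Nat.cast_nonneg _)
        exact pow_le_pow_right₀ hL1 (by omega)
  have hDpos : (0 : ℝ) < B.card := by
    by_contra hcon
    have : L ^ P * (B.card : ℝ) ≤ 0 := mul_nonpos_of_nonneg_of_nonpos (by positivity)
      (not_lt.1 hcon)
    linarith
  have hDne : B.Nonempty := by
    rw [← Finset.card_pos]
    exact_mod_cast hDpos
  have hlev : ∀ k : ℕ, ({x : D | en η x ≤ k * (2 * ℓ)}.ncard : ℝ) ≤ L ^ (k + 4) * A₂.card := by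
    intro k
    refine (level_card η _).trans ?_
    have e1 : Real.exp (k * (2 * ℓ) / 2) = L ^ k := by
      rw [← hexp k]
      congr 1
      ring
    rw [e1]
    calc L ^ k * ∑ x, Real.exp (-en η x / 2) ≤ L ^ k * (L ^ 4 * A₂.card) := by gcongr
      _ = _ := by ring
  have hAD : ((A₂ + B).card : ℝ) ≤ L ^ (3 * P + 90) * B.card := by
    have e4 : ((A₂ + B).card : ℝ) ≤ ({x : D | en η x ≤ (2 * P + 80 : ℕ) * (2 * ℓ)}.ncard : ℝ) := by
      rw [← Set.ncard_coe_finset]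
      have : ((A₂ + B : Finset D) : Set D) ⊆ {x : D | en η x ≤ (2 * P + 80 : ℕ) * (2 * ℓ)} := by
        intro x hx
        rw [Finset.mem_coe, Finset.mem_add] at hx
        obtain ⟨a, ha, d, hd, rfl⟩ := hx
        rw [Set.mem_ofPred_eq]
        have e5 := en_add_le η a d
        have e6 := hA₂e a ha
        have e7 := ((hDm d).1 hd).2
        rw [hR₀] at e7
        push_cast
        linarith
      exact_mod_cast Set.ncard_le_ncard this (Set.toFinite _)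
    refine e4.trans ((hlev _).trans ?_)
    calc L ^ (2 * P + 80 + 4) * (A₂.card : ℝ) ≤ L ^ (2 * P + 80 + 4) * (L ^ P * B.card) := by
          gcongr
      _ = L ^ (3 * P + 84) * B.card := by ring
      _ ≤ _ := mul_le_mul_of_nonneg_right (pow_le_pow_right₀ hL1 (by omega)) (Nat.cast_nonneg _)
  obtain ⟨F, -, hFc, hF⟩ := Finset.ruzsa_covering_add hDne hAD
  -- pigeonhole
  obtain ⟨γ₀, -, hγ₀⟩ : ∃ γ₀ ∈ F, (A₂.card : ℝ) ≤
      L ^ (3 * P + 90) * (A₂.filter fun γ => γ - γ₀ ∈ B - B).card := by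
    by_contra hcon
    push Not at hcon
    have hFne : F.Nonempty := by
      obtain ⟨a, ha⟩ := Finset.card_pos.1 (show 0 < A₂.card by exact_mod_cast hA₂p)
      have := hF ha
      rw [Finset.mem_add] at this
      obtain ⟨t, ht, -⟩ := this
      exact ⟨t, ht⟩
    have h1 : A₂.card ≤ ∑ γ₀ ∈ F, (A₂.filter fun γ => γ - γ₀ ∈ B - B).card := by
      have h2 : A₂ ⊆ F.biUnion fun γ₀ => A₂.filter fun γ => γ - γ₀ ∈ B - B := by
        intro a ha
        have := hF ha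
        rw [Finset.mem_add] at this
        obtain ⟨t, ht, s, hs, rfl⟩ := this
        rw [Finset.mem_biUnion]
        exact ⟨t, ht, Finset.mem_filter.2 ⟨ha, by rwa [add_sub_cancel_left]⟩⟩
      exact (Finset.card_le_card h2).trans Finset.card_biUnion_le
    have h3 : (A₂.card : ℝ) ≤ ∑ γ₀ ∈ F, ((A₂.filter fun γ => γ - γ₀ ∈ B - B).card : ℝ) := by
      exact_mod_cast h1
    have h4 : L ^ (3 * P + 90) * (A₂.card : ℝ) < L ^ (3 * P + 90) * A₂.card := by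
      calc L ^ (3 * P + 90) * (A₂.card : ℝ)
          ≤ L ^ (3 * P + 90) * ∑ γ₀ ∈ F, ((A₂.filter fun γ => γ - γ₀ ∈ B - B).card : ℝ) := by
            gcongr
        _ = ∑ γ₀ ∈ F, L ^ (3 * P + 90) * ((A₂.filter fun γ => γ - γ₀ ∈ B - B).card : ℝ) :=
            Finset.mul_sum _ _ _
        _ < ∑ γ₀ ∈ F, (A₂.card : ℝ) := Finset.sum_lt_sum_of_nonempty hFne hcon
        _ = F.card * A₂.card := by rw [Finset.sum_const, nsmul_eq_mul]
        _ ≤ L ^ (3 * P + 90) * A₂.card := by gcongr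
    exact absurd h4 (lt_irrefl _)
  refine ⟨m, η, γ₀, A₂.filter fun γ => γ - γ₀ ∈ B - B, ?_, ?_, ?_, ?_, ?_⟩
  · intro γ hγ
    have h1 := (Finset.mem_filter.1 hγ).1
    rw [hA₂] at h1
    exact (Finset.mem_filter.1 h1).1
  · intro γ hγ i
    obtain ⟨-, h1⟩ := Finset.mem_filter.1 hγ
    rw [Finset.mem_sub] at h1
    obtain ⟨x, hx, y, hy, hxy⟩ := h1
    rw [← hxy, map_sub]
    have e1 := ((hDm x).1 hx).1 i
    have e2 := ((hDm y).1 hy).1 i
    exact (norm_sub_le _ _).trans (by linarith)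
  · intro γ hγ
    obtain ⟨-, h1⟩ := Finset.mem_filter.1 hγ
    rw [Finset.mem_sub] at h1
    obtain ⟨x, hx, y, hy, hxy⟩ := h1
    rw [← hxy]
    have e1 := ((hDm x).1 hx).2
    have e2 := ((hDm y).1 hy).2
    have e3 := en_sub_le η x y
    rw [hR₀] at e1 e2
    push_cast
    nlinarith
  · calc (A₁.card : ℝ) ≤ 2 * A₂.card := hη2
      _ ≤ L * (L ^ (3 * P + 90) * (A₂.filter fun γ => γ - γ₀ ∈ B - B).card) := by gcongr
      _ = L ^ (3 * P + 91) * (A₂.filter fun γ => γ - γ₀ ∈ B - B).card := by ring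
      _ ≤ _ := mul_le_mul_of_nonneg_right (pow_le_pow_right₀ hL1 (by omega)) (Nat.cast_nonneg _)
  · refine hZh.trans (mul_le_mul_of_nonneg_right ?_ hA₁c.le)
    exact pow_le_pow_right₀ hL1 (by omega)

end H24.LW
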