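import Pool.Agent.H24.LW.Cst
import Pool.Agent.H24.LW.Fam
import Pool.Agent.H24.Lib.R_seed8.H137R2.Weak.Final
set_option autoImplicit false

/-! A dense piece of a small Bohr set has lifts in a subspace of small dimension. -/

namespace H24.LW

open Finset H460
open scoped Pointwise
open H24.ID

section fibre

variable {D : Type*} [AddCommGroup D] [Fintype D]

open Classical in
theorem fib_card {β : Type*} [DecidableEq β] (S : Finset D) (r : D → β) (H : AddSubgroup D)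
    (hr : ∀ x ∈ S, ∀ z ∈ S, r x = r z → x - z ∈ H) :
    S.card ≤ Nat.card H * (S.image r).card := by
  refine Finset.card_le_mul_card_image S _ fun b hb => ?_
  obtain ⟨x₀, hx₀, rfl⟩ := Finset.mem_image.1 hb
  have h1 : Nat.card H = (Finset.univ : Finset H).card := by
    rw [Finset.card_univ, Nat.card_eq_fintype_card]
  rw [h1]
  refine Finset.card_le_card_of_injOn
    (fun x => if h : x - x₀ ∈ H then (⟨x - x₀, h⟩ : H) else 0) (fun _ _ => Finset.mem_coe.2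
      (Finset.mem_univ _)) ?_
  intro x hx z hz hxz
  obtain ⟨hx1, hx2⟩ := Finset.mem_filter.1 hx
  obtain ⟨hz1, hz2⟩ := Finset.mem_filter.1 hz
  have e1 := hr x hx1 x₀ hx₀ hx2
  have e2 := hr z hz1 x₀ hx₀ hz2
  simp only [dif_pos e1, dif_pos e2, Subtype.mk.injEq] at hxz
  exact sub_left_injective hxz

omit [Fintype D] in
theorem en_congr {m : ℕ} (η : Fin m → (D →+ UnitAddCircle)) {x z : D}
    (h : ∀ i, η i x = η i z) : en η x = en η z := by
  simp only [en]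
  exact Finset.sum_congr rfl fun i _ => by rw [h]

end fibre

theorem finite_subgroup_bot {E : Type*} [AddCommGroup E] [Module ℝ E] (P : AddSubgroup E)
    [Finite P] : P = ⊥ := by
  rw [AddSubgroup.eq_bot_iff_forall]
  intro x hx
  have h1 : Nat.card P • (⟨x, hx⟩ : P) = 0 := card_nsmul_eq_zero'
  have h2 : Nat.card P • x = 0 := congrArg Subtype.val h1
  have h3 : (Nat.card P : ℝ) • x = 0 := by
    rw [Nat.cast_smul_eq_nsmul]
    exact h2
  rcases smul_eq_zero.1 h3 with h | h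
  · exact absurd h (by exact_mod_cast Nat.card_pos.ne')
  · exact h

theorem odd_tor {E : Type*} [AddCommGroup E] [Module ℝ E] (o : E) (k : ℕ) (hk : Odd k)
    (h : k • o = 0) : o = 0 := by
  have h3 : (k : ℝ) • o = 0 := by
    rw [Nat.cast_smul_eq_nsmul]
    exact h
  rcases smul_eq_zero.1 h3 with h | h
  · have : k = 0 := by exact_mod_cast h
    rw [this] at hk
    exact absurd hk (by decide)
  · exact h

/-- the number of sums of two small lifts -/
theorem sums_le {D : Type*} [AddCommGroup D] [Fintype D] {m : ℕ}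
    (η : Fin m → (D →+ UnitAddCircle)) (X : Finset (EuclideanSpace ℝ (Fin m))) (Q : ℝ)
    (hX : ∀ ρ ∈ X, ∃ x : D, (∀ i, (ρ i : UnitAddCircle) = η i x) ∧
      en η x ≤ Q ∧ ∀ i, |ρ i| ≤ 1 / 4) :
    (X.card : ℝ) * Nat.card (⨅ i, (η i).ker : AddSubgroup D) ≤
      Real.exp (Q / 2) * ∑ x, Real.exp (-en η x / 2) := by
  classical
  refine le_trans ?_ (level_card η Q)
  choose! x₁ hx1 hx2 hx3 using hX
  obtain ⟨H, hH⟩ : ∃ H : AddSubgroup D, H = ⨅ i, (η i).ker := ⟨_, rfl⟩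
  have hHm : ∀ x, x ∈ H ↔ ∀ i, η i x = 0 := by
    intro x
    simp only [hH, AddSubgroup.mem_iInf, AddMonoidHom.mem_ker]
  rw [← hH]
  have h1 : (X ×ˢ (Finset.univ : Finset H)).card ≤
      (Finset.univ.filter fun x : D => en η x ≤ Q).card := by
    refine Finset.card_le_card_of_injOn (fun p => x₁ p.1 + p.2) ?_ ?_
    · intro p hp
      have hp1 := (Finset.mem_product.1 (Finset.mem_coe.1 hp)).1
      rw [Finset.mem_coe, Finset.mem_filter]
      refine ⟨Finset.mem_univ _, ?_⟩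
      have h2 : en η (x₁ p.1 + p.2) = en η (x₁ p.1) := by
        apply en_congr
        intro i
        rw [map_add, (hHm _).1 p.2.2 i, add_zero]
      rw [h2]
      exact hx2 _ hp1
    · intro p hp q hq hpq
      have hp1 := (Finset.mem_product.1 (Finset.mem_coe.1 hp)).1
      have hq1 := (Finset.mem_product.1 (Finset.mem_coe.1 hq)).1
      have hpq' : x₁ p.1 + p.2 = x₁ q.1 + q.2 := hpq
      have h2 : p.1 = q.1 := by
        ext i
        have h3 : η i (x₁ p.1) = η i (x₁ q.1) := by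
          have h4 := congrArg (η i) hpq'
          rw [map_add, map_add, (hHm _).1 p.2.2 i, (hHm _).1 q.2.2 i, add_zero, add_zero] at h4
          exact h4
        rw [← hx1 _ hp1, ← hx1 _ hq1] at h3
        have h5 : ((p.1 i - q.1 i : ℝ) : UnitAddCircle) = 0 := by
          rw [AddCircle.coe_sub, h3, sub_self]
        have h6 := coe_eq_zero_small h5 (by
          have e1 := hx3 _ hp1 i
          have e2 := hx3 _ hq1 i
          have e3 := abs_sub (p.1 i) (q.1 i)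
          linarith)
        linarith
      rw [h2] at hpq'
      have h7 : (p.2 : D) = q.2 := add_left_cancel hpq'
      exact Prod.ext h2 (Subtype.ext h7)
  rw [Finset.card_product, Finset.card_univ, ← Nat.card_eq_fintype_card] at h1
  have h2 : ({x : D | en η x ≤ Q}.ncard) =
      (Finset.univ.filter fun x : D => en η x ≤ Q).card := by
    rw [← Set.ncard_coe_finset]
    congr 1
    ext x
    simp
  rw [h2]
  exact_mod_cast h1

/-- weak Marton theorem in a real vector space -/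
theorem marton {m : ℕ} {K : ℝ} [inst : DecidableEq (EuclideanSpace ℝ (Fin m))]
    {R : Finset (EuclideanSpace ℝ (Fin m))} (hR : R.Nonempty)
    (hK : ((R + R).card : ℝ) ≤ K * R.card) :
    ∃ S T : Finset (EuclideanSpace ℝ (Fin m)), (S.card : ℝ) ≤ 480 * Real.log K + 1 ∧
      (T.card : ℝ) ≤ K ^ 185 ∧ ∀ a ∈ R, ∃ t ∈ T, a - t ∈
        AddSubgroup.closure (S : Set (EuclideanSpace ℝ (Fin m))) := by
  have e : inst = fun a b => Classical.propDecidable (a = b) := Subsingleton.elim _ _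
  subst e
  obtain ⟨P, S, T, hPf, -, -, hSc, hTA, hTc, hcov⟩ := H137.Weak.weak_marton (K := K) hR hK
  have hP := finite_subgroup_bot P
  refine ⟨S, T, hSc, hTc, ?_⟩
  intro a ha
  obtain ⟨t, ht, o, ⟨k, hk, hko⟩, h1⟩ := hcov a ha
  have ho := odd_tor o k hk hko
  rw [ho, sub_zero, hP, bot_sup_eq] at h1
  exact ⟨t, ht, h1⟩

open Classical in
/-- pigeonhole -/
theorem pigeon {D β : Type*} (S₁ : Finset D) (hS₁ : S₁.Nonempty) (T : Finset β)
    (P : D → β → Prop) (h : ∀ γ ∈ S₁, ∃ t ∈ T, P γ t) :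
    ∃ t ∈ T, S₁.card ≤ T.card * (S₁.filter fun γ => P γ t).card := by
  have hTne : T.Nonempty := by
    obtain ⟨γ, hγ⟩ := hS₁
    obtain ⟨t, ht, -⟩ := h γ hγ
    exact ⟨t, ht⟩
  obtain ⟨t₁, ht₁, hmax⟩ := Finset.exists_max_image T (fun t => (S₁.filter fun γ => P γ t).card)
    hTne
  refine ⟨t₁, ht₁, ?_⟩
  have h1 : S₁.card ≤ ∑ t ∈ T, (S₁.filter fun γ => P γ t).card := by
    refine le_trans (Finset.card_le_card ?_) Finset.card_biUnion_le
    intro γ hγ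
    obtain ⟨t, ht, h2⟩ := h γ hγ
    exact Finset.mem_biUnion.2 ⟨t, ht, Finset.mem_filter.2 ⟨hγ, h2⟩⟩
  refine h1.trans ((Finset.sum_le_sum hmax).trans ?_)
  rw [Finset.sum_const, smul_eq_mul]

theorem lin (E : ℕ) : ∃ F : ℕ, ∀ (D : Type*) [AddCommGroup D] [Fintype D] (m : ℕ)
    (η : Fin m → (D →+ UnitAddCircle)) (γ₀ : D) (S₁ : Finset D) (K N₁ : ℝ), 1 ≤ K →
    S₁.Nonempty → (∀ γ ∈ S₁, ∀ i, ‖η i (γ - γ₀)‖ ≤ 1 / 8) →
    (∀ γ ∈ S₁, en η (γ - γ₀) ≤ E * Real.log (2 * K)) →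
    N₁ ≤ (2 * K) ^ E * S₁.card →
    ∑ x, Real.exp (-en η x / 2) ≤ (2 * K) ^ E * N₁ →
    ∃ (δ₀ : D) (S₂ : Finset D) (r : D → EuclideanSpace ℝ (Fin m))
      (U : Submodule ℝ (EuclideanSpace ℝ (Fin m))),
      δ₀ ∈ S₂ ∧ S₂ ⊆ S₁ ∧ U = Submodule.span ℝ (r '' S₂) ∧
      (Module.finrank ℝ U : ℝ) ≤ F * Real.log (2 * K) ∧
      N₁ ≤ (2 * K) ^ F * S₂.card ∧
      (∀ γ ∈ S₂, ∀ i, (r γ i : UnitAddCircle) = η i (γ - δ₀)) ∧
      (∀ γ ∈ S₂, ‖r γ‖ ^ 2 ≤ E * Real.log (2 * K) / 2) ∧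
      (∀ γ ∈ S₂, ∀ i, |r γ i| ≤ 1 / 4) := by
  classical
  refine ⟨1920 * E + 2 + 740 * E + E, ?_⟩
  intro D _ _ m η γ₀ S₁ K N₁ hK hS₁ hb hen hN₁ hZ
  obtain ⟨L, hL⟩ : ∃ L : ℝ, L = 2 * K := ⟨_, rfl⟩
  obtain ⟨ℓ, hℓ⟩ : ∃ ℓ : ℝ, ℓ = Real.log (2 * K) := ⟨_, rfl⟩
  have hL2 : 2 ≤ L := by rw [hL]; linarith
  have hL1 : 1 ≤ L := by linarith
  have hL0 : 0 < L := by linarith
  have hℓ0 : 1 / 2 ≤ ℓ := by
    have h1 : Real.log 2 ≤ ℓ := by
      rw [hℓ]
      exact Real.log_le_log (by norm_num) (by linarith)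
    linarith [Real.log_two_gt_d9]
  have hexp : ∀ n : ℕ, Real.exp (n * ℓ) = L ^ n := by
    intro n
    rw [Real.exp_nat_mul, hℓ, Real.exp_log (by linarith), hL]
  rw [← hℓ] at hen ⊢
  rw [← hL] at hN₁ hZ ⊢
  -- lifts
  have hrep : ∀ (γ : D) (i : Fin m), ∃ t : ℝ, (t : UnitAddCircle) = η i (γ - γ₀) ∧
      |t| = ‖η i (γ - γ₀)‖ := by
    intro γ i
    obtain ⟨t, -, h1, h2⟩ := exists_rep (η i (γ - γ₀))
    exact ⟨t, h1, h2.symm⟩
  choose t₀ ht1 ht2 using hrep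
  obtain ⟨r₀, hr₀⟩ : ∃ r₀ : D → EuclideanSpace ℝ (Fin m), ∀ γ i, r₀ γ i = t₀ γ i :=
    ⟨fun γ => WithLp.toLp 2 (t₀ γ), fun _ _ => rfl⟩
  obtain ⟨H, hH⟩ : ∃ H : AddSubgroup D, H = ⨅ i, (η i).ker := ⟨_, rfl⟩
  have hHm : ∀ x, x ∈ H ↔ ∀ i, η i x = 0 := by
    intro x
    simp only [hH, AddSubgroup.mem_iInf, AddMonoidHom.mem_ker]
  obtain ⟨R₁, hR₁⟩ : ∃ R₁ : Finset (EuclideanSpace ℝ (Fin m)), R₁ = S₁.image r₀ := ⟨_, rfl⟩
  have hR₁ne : R₁.Nonempty := by
    rw [hR₁]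
    exact hS₁.image _
  have hfib : (S₁.card : ℝ) ≤ Nat.card H * R₁.card := by
    rw [hR₁]
    have h0 := fib_card S₁ r₀ H fun x _ z _ hxz => by
      rw [hHm]
      intro i
      have h1 : t₀ x i = t₀ z i := by
        rw [← hr₀, ← hr₀, hxz]
      have h2 : η i (x - γ₀) = η i (z - γ₀) := by
        rw [← ht1, ← ht1, h1]
      rw [map_sub, map_sub] at h2
      rw [map_sub, sub_eq_zero]
      exact sub_left_injective h2
    exact_mod_cast h0
  have hHc : (0 : ℝ) < Nat.card H := by exact_mod_cast Nat.card_pos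
  -- doubling
  have hsum : ∀ ρ ∈ R₁ + R₁, ∃ x : D, (∀ i, (ρ i : UnitAddCircle) = η i x) ∧
      en η x ≤ 4 * E * ℓ ∧ ∀ i, |ρ i| ≤ 1 / 4 := by
    intro ρ hρ
    obtain ⟨a, ha, b, hb', rfl⟩ := Finset.mem_add.1 hρ
    rw [hR₁] at ha hb'
    obtain ⟨x, hx, rfl⟩ := Finset.mem_image.1 ha
    obtain ⟨z, hz, rfl⟩ := Finset.mem_image.1 hb'
    refine ⟨(x - γ₀) + (z - γ₀), fun i => ?_, ?_, fun i => ?_⟩
    · rw [PiLp.add_apply, AddCircle.coe_add, hr₀, hr₀, ht1, ht1, map_add]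
    · have h1 := en_add_le η (x - γ₀) (z - γ₀)
      have h2 := hen x hx
      have h3 := hen z hz
      linarith
    · rw [PiLp.add_apply, hr₀, hr₀]
      refine (abs_add_le _ _).trans ?_
      rw [ht2, ht2]
      have h2 := hb x hx i
      have h3 := hb z hz i
      linarith
  have hdb : ((R₁ + R₁).card : ℝ) ≤ L ^ (4 * E) * R₁.card := by
    have h1 := sums_le η (R₁ + R₁) (4 * E * ℓ) hsum
    rw [← hH] at h1
    have e1 : Real.exp (4 * E * ℓ / 2) = L ^ (2 * E) := by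
      rw [← hexp (2 * E)]
      congr 1
      push_cast
      ring
    rw [e1] at h1
    have h2 : ((R₁ + R₁).card : ℝ) * Nat.card H ≤ (L ^ (4 * E) * R₁.card) * Nat.card H := by
      calc ((R₁ + R₁).card : ℝ) * Nat.card H ≤ L ^ (2 * E) * ∑ x, Real.exp (-en η x / 2) := h1
        _ ≤ L ^ (2 * E) * (L ^ E * (L ^ E * S₁.card)) := by
            refine mul_le_mul_of_nonneg_left (hZ.trans ?_) (by positivity)
            exact mul_le_mul_of_nonneg_left hN₁ (by positivity)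
        _ ≤ L ^ (2 * E) * (L ^ E * (L ^ E * (Nat.card H * R₁.card))) := by gcongr
        _ = (L ^ (4 * E) * R₁.card) * Nat.card H := by ring
    exact le_of_mul_le_mul_right h2 hHc
  obtain ⟨S, T, hSc, hTc, hcov⟩ := marton (K := L ^ (4 * E)) hR₁ne hdb
  obtain ⟨t₁, ht₁, hS₁c⟩ := pigeon S₁ hS₁ T (fun γ t => r₀ γ - t ∈ AddSubgroup.closure
      (S : Set (EuclideanSpace ℝ (Fin m)))) (by
    intro γ hγ
    refine hcov (r₀ γ) ?_
    rw [hR₁]
    exact Finset.mem_image_of_mem _ hγ)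
  obtain ⟨S₂, hS₂⟩ : ∃ S₂ : Finset D, S₂ = S₁.filter fun γ => r₀ γ - t₁ ∈
    AddSubgroup.closure (S : Set (EuclideanSpace ℝ (Fin m))) := ⟨_, rfl⟩
  have hS₁c' : (S₁.card : ℝ) ≤ T.card * S₂.card := by
    rw [hS₂]
    exact_mod_cast hS₁c
  have hS₂ne : S₂.Nonempty := by
    rw [← Finset.card_pos]
    by_contra hcon
    have h0 : S₂.card = 0 := by omega
    rw [h0, Nat.cast_zero, mul_zero] at hS₁c'
    have : (0 : ℝ) < S₁.card := by exact_mod_cast hS₁.card_pos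
    linarith
  obtain ⟨δ₀, hδ₀⟩ := hS₂ne
  have hS₂S₁ : S₂ ⊆ S₁ := by
    rw [hS₂]
    exact Finset.filter_subset _ _
  have hclos : ∀ γ ∈ S₂, r₀ γ - r₀ δ₀ ∈ AddSubgroup.closure
      (S : Set (EuclideanSpace ℝ (Fin m))) := by
    intro γ hγ
    rw [hS₂] at hγ hδ₀
    have h1 := (Finset.mem_filter.1 hγ).2
    have h2 := (Finset.mem_filter.1 hδ₀).2
    have h3 := AddSubgroup.sub_mem _ h1 h2
    rwa [sub_sub_sub_cancel_right] at h3
  have hnorm : ∀ γ ∈ S₁, ‖r₀ γ‖ ^ 2 ≤ E * ℓ / 8 := by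
    intro γ hγ
    rw [norm_sq_eq]
    have h1 : ∑ i, 8 * r₀ γ i ^ 2 ≤ en η (γ - γ₀) := by
      rw [en]
      refine Finset.sum_le_sum fun i _ => ?_
      have h2 := le_u1 (η i (γ - γ₀))
      rw [← ht2, sq_abs] at h2
      rw [hr₀]
      exact h2
    rw [← Finset.mul_sum] at h1
    have := hen γ hγ
    linarith
  refine ⟨δ₀, S₂, fun γ => r₀ γ - r₀ δ₀, Submodule.span ℝ ((fun γ => r₀ γ - r₀ δ₀) '' S₂),
    hδ₀, hS₂S₁, rfl, ?_, ?_, ?_, ?_, ?_⟩
  · have h1 : Submodule.span ℝ ((fun γ => r₀ γ - r₀ δ₀) '' (S₂ : Set D)) ≤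
        Submodule.span ℝ (S : Set (EuclideanSpace ℝ (Fin m))) := by
      rw [Submodule.span_le]
      rintro _ ⟨γ, hγ, rfl⟩
      have h2 := hclos γ hγ
      have h3 : AddSubgroup.closure (S : Set (EuclideanSpace ℝ (Fin m))) ≤
          (Submodule.span ℝ (S : Set (EuclideanSpace ℝ (Fin m)))).toAddSubgroup := by
        rw [AddSubgroup.closure_le]
        exact Submodule.subset_span
      exact h3 h2
    have h2 := Submodule.finrank_mono h1
    have h3 : Module.finrank ℝ (Submodule.span ℝ (S : Set (EuclideanSpace ℝ (Fin m)))) ≤ S.card :=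
      finrank_span_finset_le_card S
    have h4 : (Module.finrank ℝ (Submodule.span ℝ ((fun γ => r₀ γ - r₀ δ₀) '' (S₂ : Set D))) : ℝ) ≤
        S.card := by exact_mod_cast h2.trans h3
    have h5 : Real.log (L ^ (4 * E)) = 4 * E * ℓ := by
      rw [Real.log_pow, hℓ, hL]
      push_cast
      ring
    rw [h5] at hSc
    refine h4.trans (hSc.trans ?_)
    push_cast
    have h6 : (0 : ℝ) ≤ E * ℓ := by positivity
    nlinarith
  · calc N₁ ≤ L ^ E * S₁.card := hN₁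
      _ ≤ L ^ E * (T.card * S₂.card) := by gcongr
      _ ≤ L ^ E * ((L ^ (4 * E)) ^ 185 * S₂.card) := by gcongr
      _ = L ^ (740 * E + E) * S₂.card := by
          rw [← pow_mul]
          ring
      _ ≤ _ := by
          refine mul_le_mul_of_nonneg_right (pow_le_pow_right₀ hL1 (by omega)) (Nat.cast_nonneg _)
  · intro γ _ i
    rw [PiLp.sub_apply, AddCircle.coe_sub, hr₀, hr₀, ht1, ht1, ← map_sub, sub_sub_sub_cancel_right]
  · intro γ hγ
    have h1 := hnorm γ (hS₂S₁ hγ)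
    have h2 := hnorm δ₀ (hS₂S₁ hδ₀)
    have h3 := parallelogram_law_with_norm ℝ (r₀ γ) (r₀ δ₀)
    nlinarith [norm_nonneg (r₀ γ + r₀ δ₀), mul_self_nonneg ‖r₀ γ + r₀ δ₀‖]
  · intro γ hγ i
    rw [PiLp.sub_apply, hr₀, hr₀]
    refine (abs_sub _ _).trans ?_
    rw [ht2, ht2]
    have h2 := hb γ (hS₂S₁ hγ) i
    have h3 := hb δ₀ (hS₂S₁ hδ₀) i
    linarith

end H24.LW
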