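import Pool.Agent.H24.LW.Dual
import Pool.Agent.H24.LW.Fam
import Pool.Agent.H24.LW.Lin
set_option autoImplicit false

/-! The covering theorem for laws of symmetric random walks. -/

namespace H24.LW

open Finset H460
open scoped Pointwise
open H24.ID

theorem th_ge {m : ℕ} {M : AddSubgroup (EuclideanSpace ℝ (Fin m))} (h : Disc M)
    (R : Finset (EuclideanSpace ℝ (Fin m))) (hR : ∀ ρ ∈ R, ρ ∈ M) (Q : ℝ)
    (hQ : ∀ ρ ∈ R, ‖ρ‖ ^ 2 ≤ Q) : (R.card : ℝ) * Real.exp (-Q) ≤ th M 0 1 := by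
  classical
  rw [← gw_tsum]
  let f : R → M := fun ρ => ⟨ρ, hR _ ρ.2⟩
  have hf : Function.Injective f := by
    intro a b hab
    exact Subtype.ext (congrArg (fun z : M => (z : EuclideanSpace ℝ (Fin m))) hab)
  calc (R.card : ℝ) * Real.exp (-Q) = ∑ _ρ : R, Real.exp (-Q) := by
        rw [Finset.sum_const, Finset.card_univ, Fintype.card_coe, nsmul_eq_mul]
    _ ≤ ∑ ρ : R, gw 1 ((f ρ : M) : EuclideanSpace ℝ (Fin m)) := by
        refine Finset.sum_le_sum fun ρ _ => ?_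
        rw [gw]
        apply Real.exp_le_exp.2
        have := hQ _ ρ.2
        change -Q ≤ -1 * ‖(ρ : EuclideanSpace ℝ (Fin m))‖ ^ 2
        linarith
    _ = ∑ z ∈ Finset.univ.image f, gw 1 ((z : M) : EuclideanSpace ℝ (Fin m)) := by
        rw [Finset.sum_image fun a _ b _ h => hf h]
    _ ≤ ∑' z : M, gw 1 ((z : M) : EuclideanSpace ℝ (Fin m)) :=
        (gw_summable h one_pos).sum_le_tsum _ fun z _ => (gw_pos _ _).le

/-- many pairs with difference in `Q` give a translate with many points -/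
theorem dense_translate {Γ : Type*} [AddCommGroup Γ] [DecidableEq Γ] (A : Finset Γ)
    (hA : A.Nonempty) (Q : Γ → Prop) [DecidablePred Q] {W : ℝ}
    (h : (A.card : ℝ) ^ 2 ≤ W * (((A ×ˢ A).filter fun q => Q (q.2 - q.1)).card : ℝ)) :
    ∃ a ∈ A, (A.card : ℝ) ≤ W * (A.filter fun b => Q (b - a)).card := by
  by_contra hcon
  push Not at hcon
  have h1 : (((A ×ˢ A).filter fun q => Q (q.2 - q.1)).card : ℝ) =
      ∑ a ∈ A, ((A.filter fun b => Q (b - a)).card : ℝ) := by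
    have h2 : ((A ×ˢ A).filter fun q => Q (q.2 - q.1)).card =
        ∑ a ∈ A, (A.filter fun b => Q (b - a)).card := by
      rw [Finset.card_filter, Finset.sum_product]
      exact Finset.sum_congr rfl fun a _ => (Finset.card_filter _ _).symm
    exact_mod_cast h2
  rw [h1, Finset.mul_sum] at h
  have h3 := Finset.sum_lt_sum_of_nonempty hA hcon
  rw [Finset.sum_const, nsmul_eq_mul, ← sq] at h3
  linarith

theorem core1 : ∃ N : ℕ, ∀ (Γ : Type*) [AddCommGroup Γ] [Fintype Γ] [DecidableEq Γ]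
    (μ : Γ → ℝ), (∀ x, μ (-x) = μ x) → (∀ x, 0 ≤ μ x) → ∑ x, μ x = 1 → (∀ γ, 0 ≤ ft μ γ) →
    ∀ (ι : Type*) [Fintype ι] (χ : ι → (AddChar Γ ℂ →+ UnitAddCircle)) (w : ι → ℝ),
    (∀ i, 0 ≤ w i) → (∀ γ, 0 < ft μ γ → ∑ i, w i * u1 (χ i γ) = -Real.log (ft μ γ)) →
    ∑ γ, Real.exp (-∑ i, w i * u1 (χ i γ)) ≤ ∑ γ, ft μ γ + 1 →
    ∀ (K : ℝ), 1 ≤ K → ∀ (A : Finset Γ), A.Nonempty →
    ((A + A).card : ℝ) ≤ K * A.card → (A.card : ℝ) * μ 0 ≤ K →
    (A.card : ℝ) ≤ K * ∑ a ∈ A, ∑ b ∈ A, μ (a - b) →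
    ∃ (m : ℕ) (η : Fin m → (AddChar Γ ℂ →+ UnitAddCircle)) (y : Fin m → Γ)
      (U : Submodule ℝ (EuclideanSpace ℝ (Fin m))) (R₂ : Finset (EuclideanSpace ℝ (Fin m)))
      (t : ℝ) (T Q : Finset Γ),
      U = Submodule.span ℝ (R₂ : Set (EuclideanSpace ℝ (Fin m))) ∧
      (∀ ρ ∈ R₂, ∃ γ, ∀ i, (ρ i : UnitAddCircle) = η i γ) ∧ 0 < t ∧
      (5 : ℝ) ^ Module.finrank ℝ U ≤ (2 * K) ^ N ∧ (T.card : ℝ) ≤ (2 * K) ^ N ∧
      (Q.card : ℝ) ≤ (2 * K) ^ N * A.card ∧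
      (∀ z, z ∈ Q ↔ ∃ n, z = phi y n ∧ ‖pe U n‖ ≤ 4 * t) ∧
      ∀ a ∈ A, ∃ t' ∈ T, ∃ n, a = t' + phi y n ∧ ‖pe U n‖ ≤ 4 * t := by
  obtain ⟨E, hE⟩ := fam
  obtain ⟨F, hF⟩ := lin E
  obtain ⟨τ, hτ⟩ : ∃ τ : ℕ, τ = 4 + 4 * E + 3 * F := ⟨_, rfl⟩
  refine ⟨1 + 3 * F + E + 640 * τ + (3 + 5 * E + F) + 1, ?_⟩
  intro Γ _ _ _ μ hs0 hnn htot hft0 ι _ χ w hw hrep hexpsum K hK A hA hAA hat hcor
  classical
  obtain ⟨N, hN⟩ : ∃ N : ℕ, N = 1 + 3 * F + E + 640 * τ + (3 + 5 * E + F) + 1 := ⟨_, rfl⟩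
  rw [← hN]
  obtain ⟨A₁, hA₁1, hA₁2, hA₁3⟩ := dual_set μ hs0 hnn htot hft0 hK A hA hat hcor
  have ha : (0 : ℝ) < A.card := by exact_mod_cast hA.card_pos
  have hG : (0 : ℝ) < Fintype.card Γ := by exact_mod_cast Fintype.card_pos_iff.2 ⟨0⟩
  have hA₁ne : A₁.Nonempty := by
    rw [← Finset.card_pos]
    by_contra hcon
    have h0 : A₁.card = 0 := by omega
    rw [h0, Nat.cast_zero, mul_zero, mul_zero] at hA₁2
    linarith
  have hA₁c1 : (1 : ℝ) ≤ A₁.card := by exact_mod_cast hA₁ne.card_pos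
  have hA₁c : (0 : ℝ) < A₁.card := by linarith
  obtain ⟨m, η, γ₀, S₁, hS₁A, hS₁b, hS₁e, hS₁c, hS₁Z⟩ := hE (AddChar Γ ℂ) ι χ w hw K hK A₁ hA₁ne
    (by
      intro γ hγ
      have h1 := (hA₁1 γ hγ).2
      have h2 : 0 < ft μ γ := by
        rcases (hft0 γ).eq_or_lt with h | h
        · rw [← h, mul_zero] at h1
          linarith
        · exact h
      rw [hrep γ h2]
      have h3 : 0 ≤ Real.log ((2 * K) ^ 2 * ft μ γ) := Real.log_nonneg h1
      rw [Real.log_mul (by positivity) h2.ne', Real.log_pow] at h3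
      push_cast at h3
      linarith) (by
      refine hexpsum.trans ?_
      have h1 : (2 : ℝ) ^ 2 ≤ (2 * K) ^ 2 := pow_le_pow_left₀ (by norm_num) (by linarith) 2
      have h2 : 1 ≤ (2 * K) ^ 2 / 2 * (A₁.card : ℝ) := by nlinarith
      linarith)
  have hS₁ne : S₁.Nonempty := by
    rw [← Finset.card_pos]
    by_contra hcon
    have h0 : S₁.card = 0 := by omega
    rw [h0, Nat.cast_zero, mul_zero] at hS₁c
    linarith
  obtain ⟨δ₀, S₂, r, U, hδ₀, hS₂S₁, hU, hdim, hS₂c, hlift, hnorm, hsmall⟩ :=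
    hF (AddChar Γ ℂ) m η γ₀ S₁ K A₁.card hK hS₁ne hS₁b hS₁e hS₁c hS₁Z
  have hyy : ∃ y : Fin m → Γ, IsEv η y := by
    choose y hy using fun j => exists_point (η j)
    exact ⟨y, hy⟩
  obtain ⟨y, hy⟩ := hyy
  clear hE hF
  -- numbers
  obtain ⟨L, hL⟩ : ∃ L : ℝ, L = 2 * K := ⟨_, rfl⟩
  obtain ⟨ℓ, hℓ⟩ : ∃ ℓ : ℝ, ℓ = Real.log (2 * K) := ⟨_, rfl⟩
  have hL2 : 2 ≤ L := by rw [hL]; linarith
  have hL1 : 1 ≤ L := by linarith
  have hL0 : 0 < L := by linarith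
  have hℓ0 : 0 < ℓ := by
    rw [hℓ]
    exact Real.log_pos (by linarith)
  have hexp : ∀ n : ℕ, Real.exp (n * ℓ) = L ^ n := by
    intro n
    rw [Real.exp_nat_mul, hℓ, Real.exp_log (by linarith), hL]
  rw [← hℓ] at hS₁e hdim hnorm
  rw [← hL] at hA₁1 hA₁2 hS₂c hS₁Z
  have hs : (0 : ℝ) < S₂.card := by exact_mod_cast Finset.card_pos.2 ⟨δ₀, hδ₀⟩
  have hGs : (Fintype.card Γ : ℝ) ≤ L ^ (1 + F) * (A.card * S₂.card) := by
    calc (Fintype.card Γ : ℝ) ≤ L * (A.card * A₁.card) := hA₁2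
      _ ≤ L * (A.card * (L ^ F * S₂.card)) := by gcongr
      _ = _ := by ring
  have hdimpow : ∀ c : ℝ, 1 ≤ c → c ≤ 5 → c ^ Module.finrank ℝ U ≤ L ^ (2 * F) := by
    intro c hc1 hc5
    calc c ^ Module.finrank ℝ U ≤ (Real.exp 2) ^ Module.finrank ℝ U := by
          refine pow_le_pow_left₀ (by linarith) (hc5.trans ?_) _
          have h1 : Real.exp 2 = Real.exp 1 * Real.exp 1 := by
            rw [← Real.exp_add]
            norm_num
          rw [h1]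
          nlinarith [Real.exp_one_gt_d9]
      _ = Real.exp (Module.finrank ℝ U * 2) := by rw [Real.exp_nat_mul]
      _ ≤ Real.exp ((2 * F : ℕ) * ℓ) := by
          apply Real.exp_le_exp.2
          push_cast
          linarith
      _ = L ^ (2 * F) := hexp _
  -- the lattice
  obtain ⟨M, hM⟩ : ∃ M : AddSubgroup (EuclideanSpace ℝ (Fin m)), M = Lam η ⊓ U.toAddSubgroup :=
    ⟨_, rfl⟩
  have hMU : ∀ x ∈ M, x ∈ U := by
    intro x hx
    rw [hM] at hx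
    exact hx.2
  have hML : M ≤ Lam η := by
    rw [hM]
    exact inf_le_left
  have hMdisc : Disc M := (Lam_disc η).mono hML
  have hrU : ∀ γ ∈ S₂, r γ ∈ U := by
    intro γ hγ
    rw [hU]
    exact Submodule.subset_span ⟨γ, hγ, rfl⟩
  obtain ⟨R₂, hR₂⟩ : ∃ R₂ : Finset (EuclideanSpace ℝ (Fin m)), R₂ = S₂.image r := ⟨_, rfl⟩
  have hth : (R₂.card : ℝ) * Real.exp (-(E * ℓ / 2)) ≤ th M 0 1 := by
    refine th_ge hMdisc R₂ ?_ _ ?_
    · intro ρ hρ
      rw [hR₂] at hρ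
      obtain ⟨γ, hγ, rfl⟩ := Finset.mem_image.1 hρ
      rw [hM]
      exact ⟨mem_Lam.2 ⟨γ - δ₀, hlift γ hγ⟩, hrU γ hγ⟩
    · intro ρ hρ
      rw [hR₂] at hρ
      obtain ⟨γ, hγ, rfl⟩ := Finset.mem_image.1 hρ
      exact hnorm γ hγ
  obtain ⟨HD, hHD⟩ : ∃ HD : AddSubgroup (AddChar Γ ℂ), HD = ⨅ i, (η i).ker := ⟨_, rfl⟩
  have hHDp : (0 : ℝ) < Nat.card HD := by exact_mod_cast Nat.card_pos
  have hfib : (S₂.card : ℝ) ≤ Nat.card HD * R₂.card := by
    rw [hR₂]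
    have h0 := fib_card S₂ r HD fun x hx z hz hxz => by
      rw [hHD, AddSubgroup.mem_iInf]
      intro i
      rw [AddMonoidHom.mem_ker]
      have h2 : η i (x - δ₀) = η i (z - δ₀) := by
        rw [← hlift x hx, ← hlift z hz, hxz]
      rw [map_sub, map_sub] at h2
      rw [map_sub, sub_eq_zero]
      exact sub_left_injective h2
    exact_mod_cast h0
  have hthpos : 0 < th M 0 1 := th_pos hMdisc 0 one_pos
  have hthS : (S₂.card : ℝ) * (L ^ E)⁻¹ ≤ th M 0 1 * Nat.card HD := by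
    have h1 : (L ^ E)⁻¹ ≤ Real.exp (-(E * ℓ / 2)) := by
      rw [← hexp, ← Real.exp_neg]
      apply Real.exp_le_exp.2
      have : (0 : ℝ) ≤ E * ℓ := by positivity
      linarith
    calc (S₂.card : ℝ) * (L ^ E)⁻¹ ≤ (Nat.card HD * R₂.card) * Real.exp (-(E * ℓ / 2)) := by
          gcongr
      _ = (R₂.card * Real.exp (-(E * ℓ / 2))) * Nat.card HD := by ring
      _ ≤ _ := by gcongr
  -- the scale
  obtain ⟨t, ht⟩ : ∃ t : ℝ, t = Real.sqrt (2 * (τ * ℓ)) := ⟨_, rfl⟩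
  have hτp : (0 : ℝ) < τ := by
    rw [hτ]
    positivity
  have htp : 0 < t := by
    rw [ht]
    exact Real.sqrt_pos.2 (by positivity)
  have ht2 : t ^ 2 = 2 * (τ * ℓ) := by
    rw [ht, Real.sq_sqrt (by positivity)]
  -- physical side
  obtain ⟨Hp, hHp⟩ : ∃ Hp : AddSubgroup Γ, Hp = (pe U).ker.map (phi y) := ⟨_, rfl⟩
  have hphys := phys hy U A δ₀ htp.le
  rw [← hHp] at hphys
  have htexp : Real.exp (-t ^ 2 / 2) = (L ^ τ)⁻¹ := by
    rw [ht2, ← hexp, ← Real.exp_neg]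
    congr 1
    ring
  rw [htexp] at hphys
  obtain ⟨PP, hPP⟩ : ∃ PP : ℝ, PP = (((A ×ˢ A).filter fun q => ∃ n, q.2 - q.1 = phi y n ∧
    ‖pe U n‖ ≤ 2 * t).card : ℝ) := ⟨_, rfl⟩
  rw [← hPP] at hphys
  have hPP0 : 0 ≤ PP := by
    rw [hPP]
    exact Nat.cast_nonneg _
  have hlow : (S₂.card : ℝ) * ((A.card : ℝ) ^ 2 * (L ^ (2 + 4 * E))⁻¹) ≤
      ∑ γ, gA A γ * nh η Hp (γ - δ₀) := by
    have h1 : ∀ γ ∈ S₂, (A.card : ℝ) ^ 2 * (L ^ (2 + 4 * E))⁻¹ ≤ gA A γ * nh η Hp (γ - δ₀) := by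
      intro γ hγ
      have hγ1 := hS₂S₁ hγ
      have e1 : (A.card : ℝ) ^ 2 * (L ^ 2)⁻¹ ≤ gA A γ := by
        rw [← div_eq_mul_inv, div_le_iff₀ (by positivity), mul_comm]
        exact (hA₁1 γ (hS₁A hγ1)).1
      have e2 : en η (γ - δ₀) ≤ (4 * E : ℕ) * ℓ := by
        have h2 := en_sub_le η (γ - γ₀) (δ₀ - γ₀)
        rw [sub_sub_sub_cancel_right] at h2
        have h3 := hS₁e γ hγ1
        have h4 := hS₁e δ₀ (hS₂S₁ hδ₀)
        push_cast
        linarith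
      have e3 : Real.exp (-en η (γ - δ₀)) ≤ nh η Hp (γ - δ₀) := by
        refine le_nh η Hp _ (fun i => ?_) fun x hx => ?_
        · have h2 : γ - δ₀ = (γ - γ₀) - (δ₀ - γ₀) := by rw [sub_sub_sub_cancel_right]
          rw [h2, map_sub]
          have h3 := hS₁b γ hγ1 i
          have h4 := hS₁b δ₀ (hS₂S₁ hδ₀) i
          exact (norm_sub_le _ _).trans (by linarith)
        · rw [hHp] at hx
          obtain ⟨n, hn, rfl⟩ := AddSubgroup.mem_map.1 hx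
          rw [gamma_phi hy (γ - δ₀) (fun j => r γ j) (hlift γ hγ) n, ← inner_pe (hrU γ hγ) n,
            AddMonoidHom.mem_ker.1 hn, inner_zero_right]
          simp
      have e4 : (L ^ (4 * E))⁻¹ ≤ nh η Hp (γ - δ₀) := by
        refine le_trans ?_ e3
        rw [← hexp, ← Real.exp_neg]
        exact Real.exp_le_exp.2 (neg_le_neg e2)
      calc (A.card : ℝ) ^ 2 * (L ^ (2 + 4 * E))⁻¹ =
            ((A.card : ℝ) ^ 2 * (L ^ 2)⁻¹) * (L ^ (4 * E))⁻¹ := by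
            rw [pow_add, mul_inv]
            ring
        _ ≤ _ := mul_le_mul e1 e4 (by positivity) (gA_nonneg _ _)
    calc (S₂.card : ℝ) * ((A.card : ℝ) ^ 2 * (L ^ (2 + 4 * E))⁻¹) =
          ∑ γ ∈ S₂, ((A.card : ℝ) ^ 2 * (L ^ (2 + 4 * E))⁻¹) := by
          rw [Finset.sum_const, nsmul_eq_mul]
      _ ≤ ∑ γ ∈ S₂, gA A γ * nh η Hp (γ - δ₀) := Finset.sum_le_sum h1
      _ ≤ _ := Finset.sum_le_sum_of_subset_of_nonneg (Finset.subset_univ _) fun γ _ _ =>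
          mul_nonneg (gA_nonneg _ _) (nh_nonneg _ _ _)
  have hPbig : (A.card : ℝ) ^ 2 ≤ L ^ (3 + 5 * E + F) * PP := by
    have e1 : (Fintype.card Γ : ℝ) * (A.card * (5 ^ Module.finrank ℝ U * (L ^ τ)⁻¹)) ≤
        (S₂.card * (A.card : ℝ) ^ 2 * (L ^ (2 + 4 * E))⁻¹) / 2 := by
      calc (Fintype.card Γ : ℝ) * (A.card * (5 ^ Module.finrank ℝ U * (L ^ τ)⁻¹))
          ≤ (L ^ (1 + F) * (A.card * S₂.card)) * (A.card * (L ^ (2 * F) * (L ^ τ)⁻¹)) := by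
            have := hdimpow 5 (by norm_num) le_rfl
            gcongr
        _ = S₂.card * (A.card : ℝ) ^ 2 * ((L ^ (1 + F) * L ^ (2 * F)) * (L ^ τ)⁻¹) := by ring
        _ = S₂.card * (A.card : ℝ) ^ 2 * (L ^ (3 + 4 * E))⁻¹ := by
            congr 1
            rw [hτ, ← pow_add, show 4 + 4 * E + 3 * F = (1 + F + 2 * F) + (3 + 4 * E) by ring,
              pow_add L (1 + F + 2 * F), mul_inv, ← mul_assoc, mul_inv_cancel₀ (by positivity),
              one_mul]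
        _ ≤ (S₂.card * (A.card : ℝ) ^ 2 * (L ^ (2 + 4 * E))⁻¹) / 2 := by
            rw [show 3 + 4 * E = (2 + 4 * E) + 1 by ring, pow_succ L, mul_inv, ← mul_assoc]
            rw [div_eq_mul_inv]
            have : L⁻¹ ≤ 2⁻¹ := inv_anti₀ (by norm_num) hL2
            gcongr
    have e2 : (S₂.card * (A.card : ℝ) ^ 2 * (L ^ (2 + 4 * E))⁻¹) / 2 ≤
        PP * ∑ γ, Real.exp (-en η γ / 2) := by
      have := hlow.trans hphys
      have h5 : (S₂.card : ℝ) * ((A.card : ℝ) ^ 2 * (L ^ (2 + 4 * E))⁻¹) =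
        S₂.card * (A.card : ℝ) ^ 2 * (L ^ (2 + 4 * E))⁻¹ := by ring
      rw [h5] at this
      linarith
    have e3 : ∑ γ, Real.exp (-en η γ / 2) ≤ L ^ (E + F) * S₂.card := by
      calc ∑ γ, Real.exp (-en η γ / 2) ≤ L ^ E * A₁.card := hS₁Z
        _ ≤ L ^ E * (L ^ F * S₂.card) := by gcongr
        _ = _ := by ring
    have e4 : S₂.card * (A.card : ℝ) ^ 2 ≤ S₂.card * (L ^ (3 + 5 * E + F) * PP) := by
      have h6 : (S₂.card * (A.card : ℝ) ^ 2 * (L ^ (2 + 4 * E))⁻¹) / 2 ≤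
          PP * (L ^ (E + F) * S₂.card) :=
        e2.trans (mul_le_mul_of_nonneg_left e3 hPP0)
      have h7 : S₂.card * (A.card : ℝ) ^ 2 ≤
          (PP * (L ^ (E + F) * S₂.card)) * (2 * L ^ (2 + 4 * E)) := by
        have h8 : (0 : ℝ) < L ^ (2 + 4 * E) := by positivity
        rw [← div_eq_mul_inv, div_div, div_le_iff₀ (by positivity)] at h6
        linarith
      refine h7.trans ?_
      calc (PP * (L ^ (E + F) * S₂.card)) * (2 * L ^ (2 + 4 * E)) ≤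
            (PP * (L ^ (E + F) * S₂.card)) * (L * L ^ (2 + 4 * E)) := by gcongr
        _ = _ := by ring
    exact le_of_mul_le_mul_left e4 hs
  -- a dense translate
  rw [hPP] at hPbig
  obtain ⟨a₀, ha₀, hdense⟩ := dense_translate A hA (fun z => ∃ n, z = phi y n ∧ ‖pe U n‖ ≤ 2 * t)
    hPbig
  obtain ⟨A', hA'⟩ : ∃ A' : Finset Γ, A' = A.filter fun b => ∃ n, b - a₀ = phi y n ∧
    ‖pe U n‖ ≤ 2 * t := ⟨_, rfl⟩
  rw [← hA'] at hdense
  have hA'ne : A'.Nonempty := by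
    rw [← Finset.card_pos]
    by_contra hcon
    have h0 : A'.card = 0 := by omega
    rw [h0, Nat.cast_zero, mul_zero] at hdense
    linarith
  have hA'A : A' ⊆ A := by
    rw [hA']
    exact Finset.filter_subset _ _
  have hcovb : ((A + A').card : ℝ) ≤ L ^ (3 + 5 * E + F + 1) * A'.card := by
    calc ((A + A').card : ℝ) ≤ (A + A).card := by
          exact_mod_cast Finset.card_le_card (Finset.add_subset_add_left hA'A)
      _ ≤ K * A.card := hAA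
      _ ≤ L * A.card := by
          refine mul_le_mul_of_nonneg_right ?_ ha.le
          rw [hL]
          linarith
      _ ≤ L * (L ^ (3 + 5 * E + F) * A'.card) := by gcongr
      _ = _ := by ring
  obtain ⟨T, -, hTc, hTcov⟩ := Finset.ruzsa_covering_add hA'ne hcovb
  -- the number of elements
  obtain ⟨Q, hQ⟩ : ∃ Q : Finset Γ, Q = Finset.univ.filter fun z => ∃ n, z = phi y n ∧
    ‖pe U n‖ ≤ 4 * t := ⟨_, rfl⟩
  have hcount := count hy U M hMU hML Q (4 * t) (by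
    intro x hx
    rw [hQ] at hx
    exact (Finset.mem_filter.1 hx).2)
  rw [← hHD] at hcount
  have hQc : (Q.card : ℝ) ≤ L ^ (1 + 3 * F + E + 640 * τ) * A.card := by
    have e1 : (L ^ (640 * τ))⁻¹ ≤ Real.exp (-(2 * Real.pi * (4 * t)) ^ 2 / 2) := by
      rw [← hexp, ← Real.exp_neg]
      apply Real.exp_le_exp.2
      have h1 : (2 * Real.pi * (4 * t)) ^ 2 / 2 = 32 * Real.pi ^ 2 * t ^ 2 := by ring
      rw [neg_div, neg_le_neg_iff, h1, ht2]
      have h2 : Real.pi ^ 2 ≤ 10 := by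
        have := Real.pi_lt_d2
        nlinarith [Real.pi_pos]
      push_cast
      have h3 : 0 ≤ (τ : ℝ) * ℓ := by positivity
      nlinarith
    have e2 : (Q.card : ℝ) * ((L ^ (640 * τ))⁻¹ * (S₂.card * (L ^ E)⁻¹)) ≤
        (L ^ (1 + F) * (A.card * S₂.card)) * L ^ (2 * F) := by
      calc (Q.card : ℝ) * ((L ^ (640 * τ))⁻¹ * (S₂.card * (L ^ E)⁻¹))
          ≤ Q.card * (Real.exp (-(2 * Real.pi * (4 * t)) ^ 2 / 2) *
            (th M 0 1 * Nat.card HD)) := by gcongr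
        _ = Q.card * (Real.exp (-(2 * Real.pi * (4 * t)) ^ 2 / 2) * th M 0 1) *
            Nat.card HD := by ring
        _ ≤ Nat.card Γ * 3 ^ Module.finrank ℝ U := hcount
        _ ≤ _ := by
            rw [Nat.card_eq_fintype_card]
            have := hdimpow 3 (by norm_num) (by norm_num)
            gcongr
    have e3 : (S₂.card : ℝ) * Q.card ≤
        S₂.card * (L ^ (1 + 3 * F + E + 640 * τ) * A.card) := by
      have h1 : (Q.card : ℝ) * ((L ^ (640 * τ))⁻¹ * (S₂.card * (L ^ E)⁻¹)) =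
          (S₂.card * Q.card) / (L ^ (640 * τ) * L ^ E) := by
        rw [div_eq_mul_inv, mul_inv]
        ring
      rw [h1, div_le_iff₀ (by positivity)] at e2
      refine e2.trans (le_of_eq ?_)
      ring
    exact le_of_mul_le_mul_left e3 hs
  -- conclusion
  have hpow : ∀ k : ℕ, k ≤ N → L ^ k ≤ (2 * K) ^ N := by
    intro k hk
    rw [hL]
    exact pow_le_pow_right₀ (by linarith) hk
  refine ⟨m, η, y, U, R₂, t, T, Q, by rw [hU, hR₂, Finset.coe_image], ?_, htp, ?_, ?_, ?_, ?_, ?_⟩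
  · intro ρ hρ
    rw [hR₂] at hρ
    obtain ⟨γ, hγ, rfl⟩ := Finset.mem_image.1 hρ
    exact ⟨γ - δ₀, hlift γ hγ⟩
  · exact (hdimpow 5 (by norm_num) le_rfl).trans (hpow _ (by omega))
  · exact hTc.trans (hpow _ (by omega))
  · exact hQc.trans (mul_le_mul_of_nonneg_right (hpow _ (by omega)) ha.le)
  · intro z
    rw [hQ, Finset.mem_filter]
    exact ⟨fun h => h.2, fun h => ⟨Finset.mem_univ _, h⟩⟩
  · intro a haA
    have h1 := hTcov haA
    rw [Finset.mem_add] at h1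
    obtain ⟨t', ht', v, hv, rfl⟩ := h1
    rw [Finset.mem_sub] at hv
    obtain ⟨b, hb, b', hb', rfl⟩ := hv
    rw [hA'] at hb hb'
    obtain ⟨n, hn1, hn2⟩ := (Finset.mem_filter.1 hb).2
    obtain ⟨n', hn1', hn2'⟩ := (Finset.mem_filter.1 hb').2
    refine ⟨t', ht', n - n', ?_, ?_⟩
    · rw [map_sub, ← hn1, ← hn1', sub_sub_sub_cancel_right]
    · rw [map_sub]
      exact (norm_sub_le _ _).trans (by linarith)

end H24.LW
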