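import Mathlib
set_option autoImplicit false

/-! Separated nets in a subspace. -/

namespace H24.LW

open Finset

variable {E : Type*} [NormedAddCommGroup E] [NormedSpace ℝ E] [FiniteDimensional ℝ E]

theorem sep_card (U : Submodule ℝ E) {R : ℝ} (hR : 0 < R) (N : Finset E) (hNU : ∀ x ∈ N, x ∈ U)
    (hN : ∀ x ∈ N, ‖x‖ ≤ 2 * R) (hs : ∀ c ∈ N, ∀ d ∈ N, c ≠ d → R ≤ ‖c - d‖) :
    N.card ≤ 5 ^ Module.finrank ℝ U := by
  classical
  let f : N → U := fun c => ⟨R⁻¹ • (c : E), U.smul_mem _ (hNU _ c.2)⟩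
  have hf : Function.Injective f := by
    intro a b hab
    have h1 : R⁻¹ • (a : E) = R⁻¹ • (b : E) := congrArg Subtype.val hab
    exact Subtype.ext (smul_right_injective E (inv_ne_zero hR.ne') h1)
  have h1 := Besicovitch.card_le_of_separated (Finset.univ.image f) (by
    intro c hc
    obtain ⟨a, -, rfl⟩ := Finset.mem_image.1 hc
    change ‖R⁻¹ • (a : E)‖ ≤ 2
    rw [norm_smul, Real.norm_of_nonneg (by positivity), inv_mul_le_iff₀ hR, mul_comm]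
    exact hN _ a.2) (by
    intro c hc d hd hcd
    obtain ⟨a, -, rfl⟩ := Finset.mem_image.1 hc
    obtain ⟨b, -, rfl⟩ := Finset.mem_image.1 hd
    have hab : (a : E) ≠ b := by
      intro h
      exact hcd (congrArg f (Subtype.ext h))
    change 1 ≤ ‖R⁻¹ • (a : E) - R⁻¹ • (b : E)‖
    rw [← smul_sub, norm_smul, Real.norm_of_nonneg (by positivity), le_inv_mul_iff₀ hR, mul_one]
    exact hs _ a.2 _ b.2 hab)
  rwa [Finset.card_image_of_injective _ hf, Finset.card_univ, Fintype.card_coe] at h1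

theorem sep_net (U : Submodule ℝ E) {R : ℝ} (hR : 0 < R) (F : Set E) (hFU : ∀ x ∈ F, x ∈ U)
    (hF : ∀ x ∈ F, ‖x‖ ≤ 2 * R) :
    ∃ N : Finset E, (∀ x ∈ N, x ∈ F) ∧ N.card ≤ 5 ^ Module.finrank ℝ U ∧
      ∀ x ∈ F, ∃ ξ ∈ N, ‖x - ξ‖ < R := by
  classical
  by_contra hcon
  push Not at hcon
  have hstep : ∀ k : ℕ, ∃ N : Finset E, (∀ x ∈ N, x ∈ F) ∧
      (∀ c ∈ N, ∀ d ∈ N, c ≠ d → R ≤ ‖c - d‖) ∧ N.card = k := by
    intro k
    induction k with
    | zero => exact ⟨∅, by simp, by simp, by simp⟩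
    | succ k ih =>
      obtain ⟨N, h1, h2, h3⟩ := ih
      have h4 := sep_card U hR N (fun x hx => hFU x (h1 x hx)) (fun x hx => hF x (h1 x hx)) h2
      obtain ⟨x, hx, h5⟩ := hcon N h1 h4
      have hxN : x ∉ N := by
        intro h
        have := h5 x h
        rw [sub_self, norm_zero] at this
        linarith
      refine ⟨insert x N, ?_, ?_, ?_⟩
      · intro z hz
        rcases Finset.mem_insert.1 hz with rfl | hz
        · exact hx
        · exact h1 z hz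
      · intro c hc d hd hcd
        rcases Finset.mem_insert.1 hc with hc' | hc'
        · rcases Finset.mem_insert.1 hd with hd' | hd'
          · exact absurd (hc'.trans hd'.symm) hcd
          · rw [hc']
            exact h5 d hd'
        · rcases Finset.mem_insert.1 hd with hd' | hd'
          · rw [norm_sub_rev, hd']
            exact h5 c hc'
          · exact h2 c hc' d hd' hcd
      · rw [Finset.card_insert_of_notMem hxN, h3]
  obtain ⟨N, h1, h2, h3⟩ := hstep (5 ^ Module.finrank ℝ U + 1)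
  have h4 := sep_card U hR N (fun x hx => hFU x (h1 x hx)) (fun x hx => hF x (h1 x hx)) h2
  omega

theorem dir_net {E : Type*} [NormedAddCommGroup E] [InnerProductSpace ℝ E] [FiniteDimensional ℝ E]
    (U : Submodule ℝ E) :
    ∃ N : Finset E, (∀ ξ ∈ N, ξ ∈ U ∧ ‖ξ‖ = 1) ∧ N.card ≤ 5 ^ Module.finrank ℝ U ∧
      ∀ v ∈ U, v ≠ 0 → ∃ ξ ∈ N, ‖v‖ ≤ 2 * inner ℝ ξ v := by
  obtain ⟨N, h1, h2, h3⟩ := sep_net U (R := 1 / 2) (by norm_num) {x | x ∈ U ∧ ‖x‖ = 1}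
    (fun x hx => hx.1) (fun x hx => by
      rw [hx.2]
      norm_num)
  refine ⟨N, h1, h2, ?_⟩
  intro v hv hv0
  have hvn : 0 < ‖v‖ := norm_pos_iff.2 hv0
  obtain ⟨ξ, hξ, h4⟩ := h3 (‖v‖⁻¹ • v) ⟨U.smul_mem _ hv, by
    rw [norm_smul, Real.norm_of_nonneg (by positivity), inv_mul_cancel₀ hvn.ne']⟩
  refine ⟨ξ, hξ, ?_⟩
  have h5 : ‖‖v‖⁻¹ • v - ξ‖ ^ 2 = ‖‖v‖⁻¹ • v‖ ^ 2 - 2 * inner ℝ (‖v‖⁻¹ • v) ξ + ‖ξ‖ ^ 2 :=
    norm_sub_sq_real _ _
  have h6 : ‖‖v‖⁻¹ • v‖ = 1 := by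
    rw [norm_smul, Real.norm_of_nonneg (by positivity), inv_mul_cancel₀ hvn.ne']
  rw [h6, (h1 ξ hξ).2, inner_smul_left, real_inner_comm] at h5
  simp only [conj_trivial] at h5
  have h7 : ‖‖v‖⁻¹ • v - ξ‖ ^ 2 < (1 / 2) ^ 2 :=
    pow_lt_pow_left₀ h4 (norm_nonneg _) two_ne_zero
  have h8 : 1 / 2 ≤ ‖v‖⁻¹ * inner ℝ ξ v := by linarith
  rw [le_inv_mul_iff₀ hvn] at h8
  linarith

end H24.LW
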