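import Pool.Agent.H24.LW.Cst
import Pool.Agent.H24.LW.Net
import Pool.Agent.H24.Lib.seeded_620a6dc7.helper608_VF_.V11
set_option autoImplicit false

/-! The projected integer lattice and the coset progression. -/

namespace H24.LW

open Finset H460
open scoped Pointwise
open H24.ID
open Pool.Agent.Y806.DF Pool.Agent.H608VF

variable {D : Type*} [AddCommGroup D] [Fintype D]

theorem mul_int {m : ℕ} {η : Fin m → (D →+ UnitAddCircle)} {ρ : EuclideanSpace ℝ (Fin m)}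
    (hρ : ∃ γ, ∀ i, (ρ i : UnitAddCircle) = η i γ) :
    ∃ k : Fin m → ℤ, ∀ i, (Fintype.card D : ℝ) * ρ i = k i := by
  obtain ⟨γ, hγ⟩ := hρ
  have h1 : ∀ i, ∃ k : ℤ, (Fintype.card D : ℝ) * ρ i = k := by
    intro i
    rw [← coe_eq_zero_iff']
    have h3 : (((Fintype.card D : ℝ) * ρ i : ℝ) : UnitAddCircle) =
        Fintype.card D • (ρ i : UnitAddCircle) := by
      rw [← AddCircle.coe_nsmul, nsmul_eq_mul]
    rw [h3, hγ, ← map_nsmul, card_nsmul_eq_zero, map_zero]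
  choose k hk using h1
  exact ⟨k, hk⟩

theorem proj_disc {m : ℕ} (η : Fin m → (D →+ UnitAddCircle))
    (U : Submodule ℝ (EuclideanSpace ℝ (Fin m))) (S : Finset (EuclideanSpace ℝ (Fin m)))
    (hU : U = Submodule.span ℝ (S : Set (EuclideanSpace ℝ (Fin m))))
    (hS : ∀ ρ ∈ S, ∃ γ, ∀ i, (ρ i : UnitAddCircle) = η i γ) : Disc (pe U).range := by
  classical
  obtain ⟨N, hN⟩ : ∃ N : ℕ, N = Fintype.card D := ⟨_, rfl⟩
  have hNp : (0 : ℝ) < N := by
    rw [hN]
    exact_mod_cast Fintype.card_pos_iff.2 ⟨0⟩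
  intro R
  have hSU : ∀ ρ ∈ S, ρ ∈ U := by
    intro ρ hρ
    rw [hU]
    exact Submodule.subset_span hρ
  let f : EuclideanSpace ℝ (Fin m) → (S → ℤ) := fun x ρ =>
    round ((N : ℝ) * inner ℝ (ρ : EuclideanSpace ℝ (Fin m)) x)
  have hf : ∀ x ∈ (pe U).range, ∀ ρ : S, ((f x ρ : ℤ) : ℝ) =
      (N : ℝ) * inner ℝ (ρ : EuclideanSpace ℝ (Fin m)) x := by
    intro x hx ρ
    obtain ⟨n, rfl⟩ := AddMonoidHom.mem_range.1 hx
    obtain ⟨k, hk⟩ := mul_int (hS _ ρ.2)
    rw [← hN] at hk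
    have h1 : (N : ℝ) * inner ℝ (ρ : EuclideanSpace ℝ (Fin m)) (pe U n) =
        ((∑ i, k i * n i : ℤ) : ℝ) := by
      rw [inner_pe (hSU _ ρ.2), Finset.mul_sum]
      push_cast
      exact Finset.sum_congr rfl fun i _ => by rw [← hk, mul_assoc]
    simp only [f]
    rw [h1, round_intCast]
  have hbox : (Set.pi Set.univ (fun ρ : S =>
      Set.Icc (-⌈(N : ℝ) * (‖(ρ : EuclideanSpace ℝ (Fin m))‖ * R)⌉)
        ⌈(N : ℝ) * (‖(ρ : EuclideanSpace ℝ (Fin m))‖ * R)⌉)).Finite :=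
    Set.Finite.pi fun _ => Set.finite_Icc _ _
  refine Set.Finite.of_injOn (f := f) (t := Set.pi Set.univ (fun ρ : S =>
      Set.Icc (-⌈(N : ℝ) * (‖(ρ : EuclideanSpace ℝ (Fin m))‖ * R)⌉)
        ⌈(N : ℝ) * (‖(ρ : EuclideanSpace ℝ (Fin m))‖ * R)⌉)) ?_ ?_ hbox
  · rintro x ⟨hx, hR⟩ ρ _
    have h1 : |((f x ρ : ℤ) : ℝ)| ≤ N * (‖(ρ : EuclideanSpace ℝ (Fin m))‖ * R) := by
      rw [hf x hx, abs_mul, abs_of_pos hNp]
      refine mul_le_mul_of_nonneg_left ?_ hNp.le
      exact (abs_real_inner_le_norm _ _).trans (mul_le_mul_of_nonneg_left hR (norm_nonneg _))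
    rw [abs_le] at h1
    constructor
    · have h3 : (-⌈(N : ℝ) * (‖(ρ : EuclideanSpace ℝ (Fin m))‖ * R)⌉ : ℝ) ≤ f x ρ := by
        have := Int.le_ceil ((N : ℝ) * (‖(ρ : EuclideanSpace ℝ (Fin m))‖ * R))
        linarith
      exact_mod_cast h3
    · have h3 : ((f x ρ : ℤ) : ℝ) ≤ ⌈(N : ℝ) * (‖(ρ : EuclideanSpace ℝ (Fin m))‖ * R)⌉ :=
        h1.2.trans (Int.le_ceil _)
      exact_mod_cast h3
  · rintro x ⟨hx, -⟩ z ⟨hz, -⟩ hxz
    have hxU : x ∈ U := by
      obtain ⟨n, rfl⟩ := AddMonoidHom.mem_range.1 hx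
      exact pe_mem _ _
    have hzU : z ∈ U := by
      obtain ⟨n, rfl⟩ := AddMonoidHom.mem_range.1 hz
      exact pe_mem _ _
    have h1 : ∀ u ∈ U, inner ℝ u (x - z) = 0 := by
      intro u hu
      rw [hU] at hu
      induction hu using Submodule.span_induction with
      | mem ρ hρ =>
        have h2 : ((f x ⟨ρ, hρ⟩ : ℤ) : ℝ) = f z ⟨ρ, hρ⟩ := by rw [hxz]
        rw [hf x hx, hf z hz] at h2
        rw [inner_sub_right, sub_eq_zero]
        exact mul_left_cancel₀ hNp.ne' h2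
      | zero => exact inner_zero_left _
      | add a b _ _ ha hb => rw [inner_add_left, ha, hb, add_zero]
      | smul c a _ ha => rw [inner_smul_left, ha, mul_zero]
    have h2 := h1 _ (U.sub_mem hxU hzU)
    exact sub_eq_zero.1 (inner_self_eq_zero.1 h2)

/-- integer combinations -/
def cmb {d m : ℕ} (nv : Fin d → (Fin m → ℤ)) : (Fin d → ℤ) →+ (Fin m → ℤ) :=
  AddMonoidHom.mk' (fun c => ∑ k, c k • nv k) (fun c d => by
    simp [add_smul, Finset.sum_add_distrib])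

theorem cmb_apply {d m : ℕ} (nv : Fin d → (Fin m → ℤ)) (c : Fin d → ℤ) :
    cmb nv c = ∑ k, c k • nv k := rfl

variable {Γ : Type*} [AddCommGroup Γ]

/-- **The coset progression.** -/
theorem lat_model {m : ℕ} (U : Submodule ℝ (EuclideanSpace ℝ (Fin m)))
    (hdisc : Disc (pe U).range) (y : Fin m → Γ) {R : ℝ} (hR : 0 < R) :
    ∃ (d : ℕ) (X : Finset (Fin d → ℤ)) (ψ : (Fin d → ℤ) →+ Γ),
      X.Nonempty ∧ (X + X).card ≤ 5 ^ Module.finrank ℝ U * X.card ∧ (hull X).ncard ≤ X.card ∧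
      ∀ z : Γ, z ∈ cpr (X : Set (Fin d → ℤ)) ψ ((pe U).ker.map (phi y)) ↔
        ∃ n, z = phi y n ∧ ‖pe U n‖ ≤ R := by
  classical
  obtain ⟨b, hb, hcl⟩ := hdisc.exists_basis
  obtain ⟨d, hd⟩ : ∃ d : ℕ, d = rk (pe U).range := ⟨_, rfl⟩
  have hbr : ∀ k, b k ∈ (pe U).range := by
    intro k
    rw [← hcl]
    exact AddSubgroup.subset_closure ⟨k, rfl⟩
  have hnv : ∀ k, ∃ n, pe U n = b k := fun k => AddMonoidHom.mem_range.1 (hbr k)
  choose nv hnv using hnv
  have hpe : ∀ c : Fin (rk (pe U).range) → ℤ, pe U (cmb nv c) = ∑ k, (c k : ℝ) • b k := by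
    intro c
    rw [cmb_apply, map_sum]
    refine Finset.sum_congr rfl fun k _ => ?_
    rw [map_zsmul, hnv, Int.cast_smul_eq_zsmul]
  have hinj : ∀ c c' : Fin (rk (pe U).range) → ℤ, pe U (cmb nv c) = pe U (cmb nv c') → c = c' := by
    intro c c' h
    rw [hpe, hpe, ← sub_eq_zero, ← Finset.sum_sub_distrib] at h
    have h1 : ∑ k, ((c k : ℝ) - c' k) • b k = 0 := by
      rw [← h]
      exact Finset.sum_congr rfl fun k _ => sub_smul _ _ _
    have h2 := Fintype.linearIndependent_iff.1 hb _ h1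
    funext k
    have := h2 k
    have h3 : (c k : ℝ) = c' k := by linarith
    exact_mod_cast h3
  have hfin : ∀ r : ℝ, {c : Fin (rk (pe U).range) → ℤ | ‖pe U (cmb nv c)‖ ≤ r}.Finite := by
    intro r
    refine Set.Finite.of_injOn (f := fun c => pe U (cmb nv c)) (t := {x | x ∈ (pe U).range ∧
      ‖x‖ ≤ r}) ?_ ?_ (hdisc r)
    · intro c hc
      exact ⟨⟨_, rfl⟩, hc⟩
    · intro c _ c' _ h
      exact hinj c c' h
  obtain ⟨X, hX⟩ : ∃ X : Finset (Fin (rk (pe U).range) → ℤ), ∀ c, c ∈ X ↔ ‖pe U (cmb nv c)‖ ≤ R :=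
    ⟨(hfin R).toFinset, fun c => by rw [Set.Finite.mem_toFinset]; rfl⟩
  obtain ⟨X2, hX2⟩ : ∃ X2 : Finset (Fin (rk (pe U).range) → ℤ),
      ∀ c, c ∈ X2 ↔ ‖pe U (cmb nv c)‖ ≤ 2 * R :=
    ⟨(hfin (2 * R)).toFinset, fun c => by rw [Set.Finite.mem_toFinset]; rfl⟩
  refine ⟨rk (pe U).range, X, (phi y).comp (cmb nv), ⟨0, ?_⟩, ?_, ?_, ?_⟩
  · rw [hX, map_zero, map_zero, norm_zero]
    exact hR.le
  · have h1 : X + X ⊆ X2 := by
      intro c hc
      obtain ⟨a, ha, a', ha', rfl⟩ := Finset.mem_add.1 hc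
      rw [hX] at ha ha'
      rw [hX2, map_add, map_add]
      exact (norm_add_le _ _).trans (by linarith)
    obtain ⟨Nt, hN1, hN2, hN3⟩ := sep_net U hR ((fun c => pe U (cmb nv c)) '' (X2 : Set _))
      (by
        rintro _ ⟨c, -, rfl⟩
        exact pe_mem _ _) (by
        rintro _ ⟨c, hc, rfl⟩
        exact (hX2 c).1 hc)
    have h2 : ∀ ξ ∈ Nt, ∃ c, pe U (cmb nv c) = ξ := by
      intro ξ hξ
      obtain ⟨c, -, rfl⟩ := hN1 ξ hξ
      exact ⟨c, rfl⟩
    choose! cc hcc using h2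
    have h3 : X2 ⊆ Nt.image cc + X := by
      intro c hc
      obtain ⟨ξ, hξ, h4⟩ := hN3 _ ⟨c, hc, rfl⟩
      rw [Finset.mem_add]
      refine ⟨cc ξ, Finset.mem_image_of_mem _ hξ, c - cc ξ, ?_, by abel⟩
      rw [hX, map_sub, map_sub, hcc ξ hξ]
      exact h4.le
    calc (X + X).card ≤ X2.card := Finset.card_le_card h1
      _ ≤ (Nt.image cc + X).card := Finset.card_le_card h3
      _ ≤ (Nt.image cc).card * X.card := Finset.card_add_le
      _ ≤ 5 ^ Module.finrank ℝ U * X.card :=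
          Nat.mul_le_mul_right _ (Finset.card_image_le.trans hN2)
  · have h1 : hull X ⊆ (X : Set _) := by
      intro c hc
      have hconv : Convex ℝ {v : Fin (rk (pe U).range) → ℝ | ‖∑ k, v k • b k‖ ≤ R} := by
        intro v hv w hw s t hs ht hst
        have h2 : ∑ k, (s • v + t • w) k • b k = s • ∑ k, v k • b k + t • ∑ k, w k • b k := by
          rw [Finset.smul_sum, Finset.smul_sum, ← Finset.sum_add_distrib]
          refine Finset.sum_congr rfl fun k _ => ?_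
          rw [Pi.add_apply, Pi.smul_apply, Pi.smul_apply, add_smul, smul_eq_mul, smul_eq_mul,
            mul_smul, mul_smul]
        change ‖∑ k, (s • v + t • w) k • b k‖ ≤ R
        rw [h2]
        refine (norm_add_le _ _).trans ?_
        rw [norm_smul, norm_smul, Real.norm_of_nonneg hs, Real.norm_of_nonneg ht]
        have hv' : ‖∑ k, v k • b k‖ ≤ R := hv
        have hw' : ‖∑ k, w k • b k‖ ≤ R := hw
        calc s * ‖∑ k, v k • b k‖ + t * ‖∑ k, w k • b k‖ ≤ s * R + t * R := by gcongr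
          _ = R := by rw [← add_mul, hst, one_mul]
      have hsub : convexHull ℝ (re '' (X : Set (Fin (rk (pe U).range) → ℤ))) ⊆
          {v : Fin (rk (pe U).range) → ℝ | ‖∑ k, v k • b k‖ ≤ R} := by
        refine convexHull_min ?_ hconv
        rintro _ ⟨a, ha, rfl⟩
        have h3 := (hX a).1 ha
        rw [hpe] at h3
        exact h3
      have h4 : re c ∈ {v : Fin (rk (pe U).range) → ℝ | ‖∑ k, v k • b k‖ ≤ R} := hsub hc
      rw [Finset.mem_coe, hX, hpe]
      exact h4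
    have h5 := Set.ncard_le_ncard h1 X.finite_toSet
    rwa [Set.ncard_coe_finset] at h5
  · intro z
    constructor
    · rintro ⟨c, hc, h, hh, rfl⟩
      obtain ⟨n, hn, rfl⟩ := AddSubgroup.mem_map.1 hh
      refine ⟨cmb nv c + n, ?_, ?_⟩
      · rw [map_add]
        rfl
      · rw [map_add, AddMonoidHom.mem_ker.1 hn, add_zero]
        exact (hX c).1 hc
    · rintro ⟨n, rfl, hn⟩
      have h1 : pe U n ∈ AddSubgroup.closure (Set.range b) := by
        rw [hcl]
        exact ⟨n, rfl⟩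
      have h2 : pe U n ∈ Submodule.span ℤ (Set.range b) := by
        have h3 := Submodule.span_int_eq_addSubgroupClosure (Set.range b)
        rw [← h3] at h1
        exact h1
      obtain ⟨c, hc⟩ := (Submodule.mem_span_range_iff_exists_fun ℤ).1 h2
      have h3 : pe U (cmb nv c) = pe U n := by
        rw [hpe, ← hc]
        exact Finset.sum_congr rfl fun k _ => Int.cast_smul_eq_zsmul _ _ _
      refine ⟨c, ?_, phi y (n - cmb nv c), AddSubgroup.mem_map.2 ⟨n - cmb nv c, ?_, rfl⟩, ?_⟩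
      · rw [Finset.mem_coe, hX, h3]
        exact hn
      · rw [AddMonoidHom.mem_ker, map_sub, h3, sub_self]
      · rw [map_sub]
        change phi y n = phi y (cmb nv c) + (phi y n - phi y (cmb nv c))
        abel

end H24.LW
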