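import Pool.Agent.H24.LW.Core1
import Pool.Agent.H24.LW.Lat
set_option autoImplicit false

/-! The covering theorem for laws of symmetric random walks. -/

namespace H24.LW

open Finset H460
open scoped Pointwise
open H24.ID
open Pool.Agent.Y806.DF Pool.Agent.H608VF

theorem pow_le_C {N k : ℕ} (hk : k ≤ N) {K : ℝ} (hK : 1 ≤ K) :
    (2 * K) ^ k ≤ ((2 : ℝ) ^ N + N) * K ^ ((2 : ℝ) ^ N + N) := by
  have h1 : (2 * K) ^ k ≤ (2 * K) ^ N := pow_le_pow_right₀ (by linarith) hk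
  have h2 : K ^ N ≤ K ^ ((2 : ℝ) ^ N + N) := by
    rw [← Real.rpow_natCast]
    refine Real.rpow_le_rpow_of_exponent_le hK ?_
    have : (0 : ℝ) < 2 ^ N := by positivity
    linarith
  rw [mul_pow 2 K N] at h1
  refine h1.trans (mul_le_mul ?_ h2 (by positivity) (by positivity))
  have : (0 : ℝ) ≤ N := Nat.cast_nonneg _
  linarith

theorem core2 : ∃ N : ℕ, ∀ (Γ : Type*) [AddCommGroup Γ] [Fintype Γ] [DecidableEq Γ]
    (μ : Γ → ℝ), (∀ x, μ (-x) = μ x) → (∀ x, 0 ≤ μ x) → ∑ x, μ x = 1 → (∀ γ, 0 ≤ ft μ γ) →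
    ∀ (ι : Type*) [Fintype ι] (χ : ι → (AddChar Γ ℂ →+ UnitAddCircle)) (w : ι → ℝ),
    (∀ i, 0 ≤ w i) → (∀ γ, 0 < ft μ γ → ∑ i, w i * u1 (χ i γ) = -Real.log (ft μ γ)) →
    ∑ γ, Real.exp (-∑ i, w i * u1 (χ i γ)) ≤ ∑ γ, ft μ γ + 1 →
    ∀ (K : ℝ), 1 ≤ K → ∀ (A : Finset Γ), A.Nonempty →
    ((A + A).card : ℝ) ≤ K * A.card → (A.card : ℝ) * μ 0 ≤ K →
    (A.card : ℝ) ≤ K * ∑ a ∈ A, ∑ b ∈ A, μ (a - b) →
    Weak ((2 : ℝ) ^ N + N) K A := by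
  obtain ⟨N, hN⟩ := core1
  refine ⟨N, ?_⟩
  intro Γ _ _ _ μ hs0 hnn htot hft0 ι _ χ w hw hrep hexpsum K hK A hA hAA hat hcor
  classical
  obtain ⟨m, η, y, U, R₂, t, T, Q, hU, hlift, htp, hdim, hTc, hQc, hQ, hTcov⟩ :=
    hN Γ μ hs0 hnn htot hft0 ι χ w hw hrep hexpsum K hK A hA hAA hat hcor
  have hdiscU : Disc (pe U).range := proj_disc η U R₂ hU hlift
  obtain ⟨d, X, ψ, hXne, hXX, hhull, hcpr⟩ := lat_model U hdiscU y (R := 4 * t) (by positivity)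
  obtain ⟨Hp, hHp⟩ : ∃ Hp : AddSubgroup Γ, Hp = (pe U).ker.map (phi y) := ⟨_, rfl⟩
  rw [← hHp] at hcpr
  refine ⟨d, X, ψ, Hp, T, hXne, ?_, ?_, inferInstance, ?_, ?_, ?_⟩
  · have h1 : ((X + X).card : ℝ) ≤ 5 ^ Module.finrank ℝ U * X.card := by exact_mod_cast hXX
    refine h1.trans (mul_le_mul_of_nonneg_right ?_ (Nat.cast_nonneg _))
    exact hdim.trans (pow_le_C le_rfl hK)
  · have h1 : ((hull X).ncard : ℝ) ≤ 1 * X.card := by
      rw [one_mul]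
      exact_mod_cast hhull
    refine h1.trans (mul_le_mul_of_nonneg_right ?_ (Nat.cast_nonneg _))
    have := pow_le_C (N := N) (k := 0) (by omega) hK
    rwa [pow_zero] at this
  · have h1 : (cpr (X : Set (Fin d → ℤ)) ψ Hp).ncard = Q.card := by
      rw [← Set.ncard_coe_finset]
      congr 1
      ext z
      rw [hcpr, Finset.mem_coe, hQ]
    rw [h1]
    exact hQc.trans (mul_le_mul_of_nonneg_right (pow_le_C le_rfl hK) (Nat.cast_nonneg _))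
  · exact hTc.trans (pow_le_C le_rfl hK)
  · intro a haA
    obtain ⟨t', ht', n, hn, hn2⟩ := hTcov a haA
    exact ⟨t', ht', phi y n, (hcpr _).2 ⟨n, rfl, hn2⟩, hn⟩

end H24.LW
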