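import Pool.Agent.H24.LW.Cnt
set_option autoImplicit false

/-! The number of elements of the physical progression. -/

namespace H24.LW

open Finset H460
open H24.ID

/-- projection of an integer vector -/
noncomputable def pe {m : ℕ} (U : Submodule ℝ (EuclideanSpace ℝ (Fin m))) :
    (Fin m → ℤ) →+ EuclideanSpace ℝ (Fin m) :=
  (U.starProjection : EuclideanSpace ℝ (Fin m) →L[ℝ] EuclideanSpace ℝ (Fin m)).toLinearMap.toAddMonoidHom.comp
    (emb (Fin m))

theorem pe_apply {m : ℕ} (U : Submodule ℝ (EuclideanSpace ℝ (Fin m))) (n : Fin m → ℤ) :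
    pe U n = U.starProjection (emb (Fin m) n) := rfl

theorem pe_mem {m : ℕ} (U : Submodule ℝ (EuclideanSpace ℝ (Fin m))) (n : Fin m → ℤ) :
    pe U n ∈ U := by
  rw [pe_apply]
  exact Submodule.starProjection_apply_mem _ _

theorem inner_emb {m : ℕ} (ρ : EuclideanSpace ℝ (Fin m)) (n : Fin m → ℤ) :
    inner ℝ ρ (emb (Fin m) n) = ∑ j, ρ j * n j := by
  rw [PiLp.inner_apply]
  refine Finset.sum_congr rfl fun j _ => ?_
  have : (emb (Fin m) n) j = (n j : ℝ) := rfl
  rw [this]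
  simp [mul_comm]

theorem inner_pe {m : ℕ} {U : Submodule ℝ (EuclideanSpace ℝ (Fin m))}
    {ρ : EuclideanSpace ℝ (Fin m)} (hρ : ρ ∈ U) (n : Fin m → ℤ) :
    inner ℝ ρ (pe U n) = ∑ j, ρ j * n j := by
  rw [← inner_emb, pe_apply]
  have h1 := Submodule.sub_starProjection_mem_orthogonal (K := U) (emb (Fin m) n)
  have h2 := (Submodule.mem_orthogonal _ _).1 h1 ρ hρ
  rw [inner_sub_right] at h2
  linarith

variable {Γ : Type*} [AddCommGroup Γ] [Fintype Γ]

theorem isInt_of_trivial {m : ℕ} {η : Fin m → (AddChar Γ ℂ →+ UnitAddCircle)} {y : Fin m → Γ}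
    (hy : IsEv η y) (γ : AddChar Γ ℂ) (ρ : EuclideanSpace ℝ (Fin m))
    (hρ : ∀ j, (ρ j : UnitAddCircle) = η j γ) (h : ∀ x ∈ (phi y).range, γ x = 1) : IsInt ρ := by
  intro j
  rw [← coe_eq_zero_iff', hρ]
  have h1 : (AddCircle.toCircle (η j γ) : ℂ) = 1 := by
    rw [hy j γ]
    refine h _ (AddMonoidHom.mem_range.2 ⟨Pi.single j 1, ?_⟩)
    rw [phi_apply, Finset.sum_eq_single j]
    · simp
    · intro i _ hij
      simp [Pi.single_eq_of_ne hij]
    · intro hh
      exact absurd (Finset.mem_univ _) hh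
  have h2 : AddCircle.toCircle (η j γ) = 1 := by
    apply Subtype.ext
    rw [h1]
    rfl
  have h3 : AddCircle.toCircle (η j γ) = AddCircle.toCircle (0 : UnitAddCircle) := by
    rw [h2, AddCircle.toCircle_zero]
  exact AddCircle.injective_toCircle one_ne_zero h3

open Classical in
theorem count {m : ℕ} {η : Fin m → (AddChar Γ ℂ →+ UnitAddCircle)} {y : Fin m → Γ}
    (hy : IsEv η y) (U : Submodule ℝ (EuclideanSpace ℝ (Fin m)))
    (M : AddSubgroup (EuclideanSpace ℝ (Fin m))) (hMU : ∀ x ∈ M, x ∈ U) (hML : M ≤ Lam η)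
    (Q : Finset Γ) (R : ℝ) (hQ : ∀ x ∈ Q, ∃ n, x = phi y n ∧ ‖pe U n‖ ≤ R) :
    (Q.card : ℝ) * (Real.exp (-(2 * Real.pi * R) ^ 2 / 2) * th M 0 1) *
      Nat.card (⨅ i, (η i).ker : AddSubgroup (AddChar Γ ℂ)) ≤
      Nat.card Γ * 3 ^ Module.finrank ℝ U := by
  have hdisc : Disc M := (Lam_disc η).mono hML
  have h1 : ∀ ρ : M, ∃ γ : AddChar Γ ℂ, ∀ i,
      ((ρ : EuclideanSpace ℝ (Fin m)) i : UnitAddCircle) = η i γ := fun ρ => mem_Lam.1 (hML ρ.2)
  choose γ hγ using h1
  let c : Γ → ℝ := fun x => ∑' ρ : M, gw 1 (ρ : EuclideanSpace ℝ (Fin m)) * (γ ρ x).re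
  have hre : ∀ (ρ : M) (n : Fin m → ℤ), (γ ρ (phi y n)).re =
      Real.cos (inner ℝ (ρ : EuclideanSpace ℝ (Fin m)) ((2 * Real.pi) • pe U n)) := by
    intro ρ n
    rw [gamma_phi hy (γ ρ) _ (hγ ρ) n, re_coe, inner_smul_right, inner_pe (hMU _ ρ.2)]
  have hc : ∀ n, c (phi y n) = ct M ((2 * Real.pi) • pe U n) 1 := by
    intro n
    simp only [c, ct]
    exact tsum_congr fun ρ => by rw [hre]
  have hth : 0 < th M 0 1 := th_pos hdisc 0 one_pos
  have hcl : ∀ n, Real.exp (-(2 * Real.pi * ‖pe U n‖) ^ 2 / 2) * th M 0 1 ≤ c (phi y n) := by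
    intro n
    rw [hc]
    have h2 := ct_lower hdisc one_pos ((2 * Real.pi) • pe U n)
    rw [norm_smul, Real.norm_of_nonneg (by positivity), mul_one] at h2
    exact h2
  obtain ⟨G₂, hG₂⟩ : ∃ G₂ : Finset Γ, G₂ = Finset.univ.filter (fun x => x ∈ (phi y).range) :=
    ⟨_, rfl⟩
  have hG₂m : ∀ x, x ∈ G₂ ↔ x ∈ (phi y).range := by
    intro x
    rw [hG₂, Finset.mem_filter]
    exact ⟨fun h => h.2, fun h => ⟨Finset.mem_univ _, h⟩⟩
  have hG₂c : (G₂.card : ℝ) = Nat.card (phi y).range := by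
    rw [Nat.card_eq_fintype_card, Fintype.card_subtype, hG₂]
  -- orthogonality
  have horth : ∀ ρ : M, ∑ x ∈ G₂, (γ ρ x).re ≤
      G₂.card * (if IsInt (ρ : EuclideanSpace ℝ (Fin m)) then 1 else 0) := by
    intro ρ
    split_ifs with hint
    · rw [mul_one]
      calc ∑ x ∈ G₂, (γ ρ x).re ≤ ∑ x ∈ G₂, (1 : ℝ) := by
            refine Finset.sum_le_sum fun x _ => ?_
            refine (Complex.re_le_norm _).trans ?_
            rw [AddChar.norm_apply]
        _ = G₂.card := by rw [Finset.sum_const, nsmul_eq_mul, mul_one]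
    · rw [mul_zero]
      have h3 : ∑ x ∈ G₂, γ ρ x = 0 := by
        have h4 := AddChar.sum_eq_ite ((γ ρ).compAddMonoidHom (phi y).range.subtype)
        rw [if_neg] at h4
        · rw [Finset.sum_subtype G₂ hG₂m]
          exact h4
        · intro h5
          apply hint
          refine isInt_of_trivial hy (γ ρ) _ (hγ ρ) fun x hx => ?_
          have := congrArg (fun ψ : AddChar (phi y).range ℂ => ψ ⟨x, hx⟩) h5
          exact this
      have h5 := congrArg Complex.re h3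
      rw [Complex.re_sum, Complex.zero_re] at h5
      exact h5.le
  have hsm : ∀ x, Summable fun ρ : M => gw 1 (ρ : EuclideanSpace ℝ (Fin m)) * (γ ρ x).re := by
    intro x
    refine Summable.of_norm_bounded (gw_summable hdisc one_pos) fun ρ => ?_
    rw [norm_mul, Real.norm_of_nonneg (gw_pos _ _).le, Real.norm_eq_abs]
    refine mul_le_of_le_one_right (gw_pos _ _).le ?_
    refine (Complex.abs_re_le_norm _).trans ?_
    rw [AddChar.norm_apply]
  have hsm2 : Summable fun ρ : M => gw 1 (ρ : EuclideanSpace ℝ (Fin m)) *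
      (if IsInt (ρ : EuclideanSpace ℝ (Fin m)) then 1 else 0) := by
    refine Summable.of_norm_bounded (gw_summable hdisc one_pos) fun ρ => ?_
    rw [norm_mul, Real.norm_of_nonneg (gw_pos _ _).le]
    refine mul_le_of_le_one_right (gw_pos _ _).le ?_
    split_ifs <;> simp
  have hupper : ∑ x ∈ G₂, c x ≤ G₂.card * 3 ^ Module.finrank ℝ U := by
    calc ∑ x ∈ G₂, c x = ∑' ρ : M, ∑ x ∈ G₂, gw 1 (ρ : EuclideanSpace ℝ (Fin m)) * (γ ρ x).re :=
          (Summable.tsum_finsetSum fun x _ => hsm x).symm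
      _ ≤ ∑' ρ : M, G₂.card * (gw 1 (ρ : EuclideanSpace ℝ (Fin m)) *
          (if IsInt (ρ : EuclideanSpace ℝ (Fin m)) then 1 else 0)) := by
          refine Summable.tsum_le_tsum (fun ρ => ?_) (summable_sum fun x _ => hsm x)
            (hsm2.mul_left _)
          rw [← Finset.mul_sum, mul_left_comm]
          exact mul_le_mul_of_nonneg_left (horth ρ) (gw_pos _ _).le
      _ = G₂.card * ∑' ρ : M, gw 1 (ρ : EuclideanSpace ℝ (Fin m)) *
          (if IsInt (ρ : EuclideanSpace ℝ (Fin m)) then 1 else 0) := tsum_mul_left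
      _ ≤ _ := mul_le_mul_of_nonneg_left (int_sum U M hMU) (Nat.cast_nonneg _)
  have hQG : Q ⊆ G₂ := by
    intro x hx
    obtain ⟨n, rfl, -⟩ := hQ x hx
    rw [hG₂m]
    exact ⟨n, rfl⟩
  have hlower : (Q.card : ℝ) * (Real.exp (-(2 * Real.pi * R) ^ 2 / 2) * th M 0 1) ≤
      ∑ x ∈ G₂, c x := by
    calc (Q.card : ℝ) * (Real.exp (-(2 * Real.pi * R) ^ 2 / 2) * th M 0 1) =
          ∑ x ∈ Q, (Real.exp (-(2 * Real.pi * R) ^ 2 / 2) * th M 0 1) := by
          rw [Finset.sum_const, nsmul_eq_mul]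
      _ ≤ ∑ x ∈ Q, c x := by
          refine Finset.sum_le_sum fun x hx => ?_
          obtain ⟨n, rfl, hn⟩ := hQ x hx
          refine le_trans ?_ (hcl n)
          refine mul_le_mul_of_nonneg_right ?_ hth.le
          apply Real.exp_le_exp.2
          have h6 : (2 * Real.pi * ‖pe U n‖) ^ 2 ≤ (2 * Real.pi * R) ^ 2 :=
            pow_le_pow_left₀ (by positivity) (by gcongr) 2
          linarith
      _ ≤ ∑ x ∈ G₂, c x := by
          refine Finset.sum_le_sum_of_subset_of_nonneg hQG fun x hx _ => ?_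
          obtain ⟨n, rfl⟩ := AddMonoidHom.mem_range.1 ((hG₂m x).1 hx)
          exact le_trans (by positivity) (hcl n)
  have hker := card_ker_mul hy
  have hker' : (Nat.card (⨅ i, (η i).ker : AddSubgroup (AddChar Γ ℂ)) : ℝ) * G₂.card ≤
      Nat.card Γ := by
    rw [hG₂c]
    exact_mod_cast hker
  calc (Q.card : ℝ) * (Real.exp (-(2 * Real.pi * R) ^ 2 / 2) * th M 0 1) *
      Nat.card (⨅ i, (η i).ker : AddSubgroup (AddChar Γ ℂ))
      ≤ (G₂.card * 3 ^ Module.finrank ℝ U) *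
        Nat.card (⨅ i, (η i).ker : AddSubgroup (AddChar Γ ℂ)) :=
        mul_le_mul_of_nonneg_right (hlower.trans hupper) (Nat.cast_nonneg _)
    _ = (Nat.card (⨅ i, (η i).ker : AddSubgroup (AddChar Γ ℂ)) * G₂.card) *
        3 ^ Module.finrank ℝ U := by ring
    _ ≤ _ := mul_le_mul_of_nonneg_right hker' (by positivity)

end H24.LW
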