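import Pool.Agent.H24.LW.Sg
set_option autoImplicit false

/-! The dense set of the dual group. -/

namespace H24.LW

open Finset
open H24.ID

variable {Γ : Type*} [AddCommGroup Γ] [Fintype Γ]

theorem sum_ft (μ : Γ → ℝ) : ∑ γ, ft μ γ = Fintype.card Γ * μ 0 := by
  classical
  have h4 : ∀ a : Γ, ∑ ψ : AddChar Γ ℂ, (ψ a).re =
      if a = 0 then (Fintype.card Γ : ℝ) else 0 := by
    intro a
    have := congrArg Complex.re (AddChar.sum_apply_eq_ite (α := Γ) a)
    rw [Complex.re_sum] at this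
    rw [this]
    split_ifs <;> simp
  simp only [ft]
  rw [Finset.sum_comm]
  calc ∑ x, ∑ γ : AddChar Γ ℂ, μ x * (γ x).re =
        ∑ x, μ x * (if x = 0 then (Fintype.card Γ : ℝ) else 0) := by
        refine Finset.sum_congr rfl fun x _ => ?_
        rw [← Finset.mul_sum, h4]
    _ = _ := by
        simp only [mul_ite, mul_zero, Finset.sum_ite_eq', Finset.mem_univ, if_true]
        ring

theorem sum_gA_mul (A : Finset Γ) (μ : Γ → ℝ) (hs : ∀ x, μ (-x) = μ x) :
    ∑ γ, gA A γ * ft μ γ = Fintype.card Γ * ∑ a ∈ A, ∑ b ∈ A, μ (a - b) := by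
  classical
  have h1 : ((∑ γ, gA A γ * ft μ γ : ℝ) : ℂ) =
      ((Fintype.card Γ * ∑ a ∈ A, ∑ b ∈ A, μ (a - b) : ℝ) : ℂ) := by
    push_cast
    calc ∑ γ, (gA A γ : ℂ) * (ft μ γ : ℂ)
        = ∑ γ : AddChar Γ ℂ, ∑ q ∈ A ×ˢ A, ∑ x, (μ x : ℂ) * γ (q.1 - q.2 + x) := by
          refine Finset.sum_congr rfl fun γ _ => ?_
          rw [gA_eq, ft_coe μ hs, Finset.sum_mul]
          refine Finset.sum_congr rfl fun q _ => ?_
          rw [Finset.mul_sum]
          refine Finset.sum_congr rfl fun x _ => ?_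
          rw [AddChar.map_add_eq_mul]
          ring
      _ = ∑ q ∈ A ×ˢ A, ∑ x, ∑ γ : AddChar Γ ℂ, (μ x : ℂ) * γ (q.1 - q.2 + x) := by
          rw [Finset.sum_comm]
          exact Finset.sum_congr rfl fun q _ => Finset.sum_comm
      _ = ∑ q ∈ A ×ˢ A, (Fintype.card Γ : ℂ) * (μ (q.1 - q.2) : ℂ) := by
          refine Finset.sum_congr rfl fun q _ => ?_
          rw [Finset.sum_eq_single (-(q.1 - q.2))]
          · rw [← Finset.mul_sum, AddChar.sum_apply_eq_ite, if_pos (by abel), hs]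
            ring
          · intro x _ hx
            rw [← Finset.mul_sum, AddChar.sum_apply_eq_ite, if_neg, mul_zero]
            intro h
            exact hx (eq_neg_of_add_eq_zero_right h)
          · intro h
            exact absurd (Finset.mem_univ _) h
      _ = _ := by
          rw [Finset.sum_product]
          simp only [← Finset.mul_sum]
  exact_mod_cast h1

theorem sum_gA (A : Finset Γ) : ∑ γ, gA A γ = Fintype.card Γ * A.card := by
  classical
  have h1 := sum_gA_mul A (fun x => if x = 0 then 1 else 0) (fun x => by simp [neg_eq_zero])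
  have h2 : ∀ γ : AddChar Γ ℂ, ft (fun x => if x = 0 then (1 : ℝ) else 0) γ = 1 := by
    intro γ
    simp [ft]
  simp only [h2, mul_one] at h1
  rw [h1]
  congr 1
  have h3 : ∀ a ∈ A, ∑ b ∈ A, (if a - b = 0 then (1 : ℝ) else 0) = 1 := by
    intro a ha
    rw [Finset.sum_eq_single a]
    · simp
    · intro b _ hb
      rw [if_neg]
      intro h
      exact hb (sub_eq_zero.1 h).symm
    · intro h
      exact absurd ha h
  rw [Finset.sum_congr rfl h3, Finset.sum_const, nsmul_eq_mul, mul_one]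

omit [Fintype Γ] in
theorem gA_nonneg (A : Finset Γ) (γ : AddChar Γ ℂ) : 0 ≤ gA A γ := by
  rw [gA]
  positivity

theorem gA_le (A : Finset Γ) (γ : AddChar Γ ℂ) : gA A γ ≤ (A.card : ℝ) ^ 2 := by
  rw [gA]
  refine pow_le_pow_left₀ (norm_nonneg _) ?_ 2
  refine (norm_sum_le _ _).trans (le_of_eq ?_)
  rw [Finset.sum_congr rfl fun a _ => AddChar.norm_apply γ a, Finset.sum_const, nsmul_eq_mul,
    mul_one]

/-- the dense set of the dual -/
theorem dual_set (μ : Γ → ℝ) (hs : ∀ x, μ (-x) = μ x) (h0 : ∀ x, 0 ≤ μ x) (h1 : ∑ x, μ x = 1)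
    (hf : ∀ γ, 0 ≤ ft μ γ) {K : ℝ} (hK : 1 ≤ K) (A : Finset Γ) (hA : A.Nonempty)
    (hat : (A.card : ℝ) * μ 0 ≤ K) (hcor : (A.card : ℝ) ≤ K * ∑ a ∈ A, ∑ b ∈ A, μ (a - b)) :
    ∃ A₁ : Finset (AddChar Γ ℂ),
      (∀ γ ∈ A₁, (A.card : ℝ) ^ 2 ≤ (2 * K) ^ 2 * gA A γ ∧ 1 ≤ (2 * K) ^ 2 * ft μ γ) ∧
      (Fintype.card Γ : ℝ) ≤ (2 * K) * (A.card * A₁.card) ∧
      ∑ γ, ft μ γ ≤ (2 * K) ^ 2 / 2 * A₁.card := by
  classical
  obtain ⟨A₁, hA₁⟩ : ∃ A₁ : Finset (AddChar Γ ℂ), A₁ = Finset.univ.filter fun γ =>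
    (A.card : ℝ) ^ 2 ≤ (2 * K) ^ 2 * gA A γ ∧ 1 ≤ (2 * K) ^ 2 * ft μ γ := ⟨_, rfl⟩
  have ha : (0 : ℝ) < A.card := by exact_mod_cast hA.card_pos
  have hG : (0 : ℝ) < Fintype.card Γ := by exact_mod_cast Fintype.card_pos_iff.2 ⟨0⟩
  have hfle : ∀ γ, ft μ γ ≤ 1 := by
    intro γ
    rw [← h1]
    exact ft_le μ h0 γ
  have hK0 : 0 < K := by linarith
  have hbound : ∀ γ, gA A γ * ft μ γ ≤ (if γ ∈ A₁ then (A.card : ℝ) ^ 2 else 0) +
      ((2 * K) ^ 2)⁻¹ * ((A.card : ℝ) ^ 2 * ft μ γ + gA A γ) := by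
    intro γ
    have e0 := gA_nonneg A γ
    have e1 := hf γ
    have e2 : 0 < ((2 * K) ^ 2)⁻¹ := by positivity
    have e3 : 0 ≤ ((2 * K) ^ 2)⁻¹ * ((A.card : ℝ) ^ 2 * ft μ γ + gA A γ) := by positivity
    split_ifs with h
    · have e4 : gA A γ * ft μ γ ≤ (A.card : ℝ) ^ 2 * 1 :=
        mul_le_mul (gA_le A γ) (hfle γ) e1 (by positivity)
      linarith
    · rw [hA₁, Finset.mem_filter] at h
      push Not at h
      have h' := h (Finset.mem_univ _)
      rw [zero_add, mul_add]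
      by_cases h2 : (A.card : ℝ) ^ 2 ≤ (2 * K) ^ 2 * gA A γ
      · have h3 := h' h2
        have h4 : ft μ γ ≤ ((2 * K) ^ 2)⁻¹ := by
          rw [← one_div, le_div_iff₀ (by positivity)]
          linarith
        have h5 : gA A γ * ft μ γ ≤ gA A γ * ((2 * K) ^ 2)⁻¹ := mul_le_mul_of_nonneg_left h4 e0
        have h6 : 0 ≤ ((2 * K) ^ 2)⁻¹ * ((A.card : ℝ) ^ 2 * ft μ γ) := by positivity
        linarith
      · have h3 := not_le.1 h2
        have h4 : gA A γ ≤ ((2 * K) ^ 2)⁻¹ * (A.card : ℝ) ^ 2 := by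
          rw [inv_mul_eq_div, le_div_iff₀ (by positivity)]
          linarith
        have h5 : gA A γ * ft μ γ ≤ (((2 * K) ^ 2)⁻¹ * (A.card : ℝ) ^ 2) * ft μ γ :=
          mul_le_mul_of_nonneg_right h4 e1
        have h6 : 0 ≤ ((2 * K) ^ 2)⁻¹ * gA A γ := by positivity
        linarith
  have hsum := Finset.sum_le_sum fun γ (_ : γ ∈ (Finset.univ : Finset (AddChar Γ ℂ))) => hbound γ
  rw [sum_gA_mul A μ hs, Finset.sum_add_distrib, Finset.sum_ite_mem, Finset.univ_inter,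
    Finset.sum_const, nsmul_eq_mul, ← Finset.mul_sum, Finset.sum_add_distrib, ← Finset.mul_sum,
    sum_gA, sum_ft] at hsum
  have hmain : (Fintype.card Γ : ℝ) ≤ (2 * K) * (A.card * A₁.card) := by
    obtain ⟨σ, hσ⟩ : ∃ σ : ℝ, σ = ∑ a ∈ A, ∑ b ∈ A, μ (a - b) := ⟨_, rfl⟩
    rw [← hσ] at hsum hcor
    have e1 : K * (((2 * K) ^ 2)⁻¹ * ((A.card : ℝ) ^ 2 * (Fintype.card Γ * μ 0) +
        Fintype.card Γ * A.card)) ≤ Fintype.card Γ * A.card / 2 := by
      have e2 : (A.card : ℝ) ^ 2 * (Fintype.card Γ * μ 0) + Fintype.card Γ * A.card ≤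
          (Fintype.card Γ * A.card) * (2 * K) := by
        have e3 : (A.card : ℝ) ^ 2 * (Fintype.card Γ * μ 0) =
            (Fintype.card Γ * A.card) * (A.card * μ 0) := by ring
        rw [e3]
        have e4 : (Fintype.card Γ * A.card : ℝ) * (A.card * μ 0) ≤
            (Fintype.card Γ * A.card) * K := by gcongr
        have e5 : (Fintype.card Γ * A.card : ℝ) * 1 ≤ (Fintype.card Γ * A.card) * K := by gcongr
        linarith
      calc _ ≤ K * (((2 * K) ^ 2)⁻¹ * ((Fintype.card Γ * A.card) * (2 * K))) := by gcongr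
        _ = Fintype.card Γ * A.card / 2 := by
          field_simp
    have e6 : (Fintype.card Γ : ℝ) * A.card ≤ K * (Fintype.card Γ * σ) := by
      calc (Fintype.card Γ : ℝ) * A.card ≤ Fintype.card Γ * (K * σ) := by gcongr
        _ = _ := by ring
    have e7 := mul_le_mul_of_nonneg_left hsum hK0.le
    rw [mul_add] at e7
    have e8 : (Fintype.card Γ : ℝ) * A.card ≤ (2 * K) * (A.card * A₁.card) * A.card := by
      have : K * ((A₁.card : ℝ) * (A.card : ℝ) ^ 2) = K * (A.card * A₁.card) * A.card := by ring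
      rw [this] at e7
      linarith
    exact le_of_mul_le_mul_right e8 ha
  refine ⟨A₁, ?_, hmain, ?_⟩
  · intro γ hγ
    rw [hA₁] at hγ
    exact (Finset.mem_filter.1 hγ).2
  · rw [sum_ft]
    have e1 : (A.card : ℝ) * (Fintype.card Γ * μ 0) ≤ A.card * ((2 * K) ^ 2 / 2 * A₁.card) := by
      calc (A.card : ℝ) * (Fintype.card Γ * μ 0) = Fintype.card Γ * (A.card * μ 0) := by ring
        _ ≤ Fintype.card Γ * K := by gcongr
        _ ≤ ((2 * K) * (A.card * A₁.card)) * K := by gcongr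
        _ = _ := by ring
    exact le_of_mul_le_mul_left e1 ha

end H24.LW
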