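import Pool.Agent.H24.Lib.R_seed8.H460R2.ThB
set_option autoImplicit false

/-! The characteristic function of a lattice Gaussian, without Poisson summation. -/

namespace H24.LW

open Finset H460

variable {E : Type*} [NormedAddCommGroup E] [InnerProductSpace ℝ E] [FiniteDimensional ℝ E]

/-- weight -/
noncomputable def gw (t : ℝ) (x : E) : ℝ := Real.exp (-t * ‖x‖ ^ 2)

/-- characteristic sum of the Gaussian on `Γ` -/
noncomputable def ct (Γ : AddSubgroup E) (y : E) (t : ℝ) : ℝ :=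
  ∑' x : Γ, gw t (x : E) * Real.cos (inner ℝ (x : E) y)

theorem gw_summable {Γ : AddSubgroup E} (h : Disc Γ) {t : ℝ} (ht : 0 < t) :
    Summable fun x : Γ => gw t (x : E) := by
  have := th_summable h 0 ht
  simpa [gw] using this

omit [InnerProductSpace ℝ E] [FiniteDimensional ℝ E] in
theorem gw_tsum (Γ : AddSubgroup E) (t : ℝ) : ∑' x : Γ, gw t (x : E) = th Γ 0 t := by
  simp [th, gw]

omit [InnerProductSpace ℝ E] [FiniteDimensional ℝ E] in
theorem gw_pos (t : ℝ) (x : E) : 0 < gw t x := Real.exp_pos _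

theorem bdd_summable {Γ : AddSubgroup E} (h : Disc Γ) {t : ℝ} (ht : 0 < t) (g : E → ℝ) (C : ℝ)
    (hg : ∀ x, |g x| ≤ C) : Summable fun x : Γ => ‖gw t (x : E) * g x‖ := by
  refine Summable.of_nonneg_of_le (fun _ => norm_nonneg _) (fun x => ?_)
    ((gw_summable h ht).mul_left C)
  rw [norm_mul, Real.norm_eq_abs, Real.norm_eq_abs, abs_of_pos (gw_pos t _), mul_comm]
  exact mul_le_mul_of_nonneg_right (hg _) (gw_pos t _).le

theorem pair_nonneg {Γ : AddSubgroup E} (h : Disc Γ) (Ψ : Γ → ℝ)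
    (hΨ : Summable fun x => ‖Ψ x‖) :
    0 ≤ ∑' q : Γ × Γ, Ψ (q.1 + q.2) * Ψ (q.1 - q.2) := by
  classical
  have hfin := QQ_finite h
  have hft : Fintype (QQ Γ) := Fintype.ofFinite _
  rw [ThB_pair (fun q : Γ × Γ => Ψ q.1 * Ψ q.2)]
  have hs : ∀ c : QQ Γ, Summable fun x : Γ =>
      ‖(if (QuotientAddGroup.mk x : QQ Γ) = c then Ψ x else 0)‖ := by
    intro c
    refine Summable.of_nonneg_of_le (fun _ => norm_nonneg _) (fun x => ?_) hΨ
    split_ifs
    · exact le_rfl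
    · rw [norm_zero]
      exact norm_nonneg _
  have h1 : ∀ q : Γ × Γ, (if (QuotientAddGroup.mk q.1 : QQ Γ) = QuotientAddGroup.mk q.2 then
      Ψ q.1 * Ψ q.2 else 0) = ∑ c : QQ Γ,
        (if (QuotientAddGroup.mk q.1 : QQ Γ) = c then Ψ q.1 else 0) *
        (if (QuotientAddGroup.mk q.2 : QQ Γ) = c then Ψ q.2 else 0) := by
    intro q
    rw [Finset.sum_eq_single (QuotientAddGroup.mk q.1 : QQ Γ)]
    · rw [if_pos rfl]
      by_cases e : (QuotientAddGroup.mk q.1 : QQ Γ) = QuotientAddGroup.mk q.2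
      · rw [if_pos e, if_pos e.symm]
      · rw [if_neg e, if_neg (fun h => e h.symm), mul_zero]
    · intro c _ hc
      rw [if_neg (fun h => hc h.symm), zero_mul]
    · intro hh
      exact absurd (Finset.mem_univ _) hh
  have h2 : (fun q : Γ × Γ => if (QuotientAddGroup.mk q.1 : QQ Γ) = QuotientAddGroup.mk q.2 then
      Ψ q.1 * Ψ q.2 else 0) = fun q => ∑ c : QQ Γ,
        (if (QuotientAddGroup.mk q.1 : QQ Γ) = c then Ψ q.1 else 0) *
        (if (QuotientAddGroup.mk q.2 : QQ Γ) = c then Ψ q.2 else 0) := funext h1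
  rw [h2, Summable.tsum_finsetSum fun c _ => summable_mul_of_summable_norm (hs c) (hs c)]
  refine Finset.sum_nonneg fun c _ => ?_
  rw [← tsum_mul_tsum_of_summable_norm (hs c) (hs c)]
  exact mul_self_nonneg _

theorem ct_quad {Γ : AddSubgroup E} (h : Disc Γ) (y : E) {t : ℝ} (ht : 0 < t) (l : ℝ) :
    0 ≤ ct Γ ((2 : ℝ) • y) t * th Γ 0 t - 2 * l * ct Γ y t ^ 2 + l ^ 2 * th Γ 0 t ^ 2 := by
  have ht2 : 0 < t / 2 := by positivity
  have hΨ : Summable fun x : Γ => ‖gw (t / 2) (x : E) * (Real.cos (inner ℝ (x : E) y) - l)‖ := by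
    refine bdd_summable h ht2 (fun x => Real.cos (inner ℝ x y) - l) (1 + |l|) fun x => ?_
    exact (abs_sub _ _).trans (add_le_add (Real.abs_cos_le_one _) le_rfl)
  have h1 := pair_nonneg h _ hΨ
  have s0 : Summable fun x : Γ => ‖gw t (x : E)‖ := by
    simpa using bdd_summable h ht (fun _ => 1) 1 (fun _ => by simp)
  have s1 : Summable fun x : Γ => ‖gw t (x : E) * Real.cos (inner ℝ (x : E) y)‖ :=
    bdd_summable h ht (fun x => Real.cos (inner ℝ x y)) 1 fun x => Real.abs_cos_le_one _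
  have s2 : Summable fun x : Γ => ‖gw t (x : E) * Real.cos (inner ℝ (x : E) ((2 : ℝ) • y))‖ :=
    bdd_summable h ht (fun x => Real.cos (inner ℝ x ((2 : ℝ) • y))) 1
      fun x => Real.abs_cos_le_one _
  have H : ∀ {f g : Γ → ℝ}, Summable (fun x => ‖f x‖) → Summable (fun x => ‖g x‖) →
      HasSum (fun q : Γ × Γ => f q.1 * g q.2) ((∑' x, f x) * ∑' x, g x) := by
    intro f g hf hg
    rw [tsum_mul_tsum_of_summable_norm hf hg]
    exact (summable_mul_of_summable_norm hf hg).hasSum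
  have h20 := H s2 s0
  have h02 := H s0 s2
  have h11 := H s1 s1
  have h00 := H s0 s0
  have hsum := (((h20.mul_left (1 / 2)).add (h02.mul_left (1 / 2))).add
    (h11.mul_left (-2 * l))).add (h00.mul_left (l ^ 2))
  have hkey : ∀ q : Γ × Γ,
      (gw (t / 2) ((q.1 + q.2 : Γ) : E) * (Real.cos (inner ℝ ((q.1 + q.2 : Γ) : E) y) - l)) *
      (gw (t / 2) ((q.1 - q.2 : Γ) : E) * (Real.cos (inner ℝ ((q.1 - q.2 : Γ) : E) y) - l)) =
      1 / 2 * (gw t (q.1 : E) * Real.cos (inner ℝ (q.1 : E) ((2 : ℝ) • y)) * gw t (q.2 : E)) +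
      1 / 2 * (gw t (q.1 : E) * (gw t (q.2 : E) * Real.cos (inner ℝ (q.2 : E) ((2 : ℝ) • y)))) +
      -2 * l * (gw t (q.1 : E) * Real.cos (inner ℝ (q.1 : E) y) *
        (gw t (q.2 : E) * Real.cos (inner ℝ (q.2 : E) y))) +
      l ^ 2 * (gw t (q.1 : E) * gw t (q.2 : E)) := by
    rintro ⟨⟨a, ha⟩, ⟨b, hb⟩⟩
    simp only [AddSubgroup.coe_add, AddSubgroup.coe_sub]
    have e1 : gw (t / 2) (a + b) * gw (t / 2) (a - b) = gw t a * gw t b := by
      rw [gw, gw, gw, gw, ← Real.exp_add, ← Real.exp_add]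
      congr 1
      have := parallelogram_law_with_norm ℝ a b
      nlinarith
    rw [inner_add_left, inner_sub_left, inner_smul_right, inner_smul_right]
    set α := inner ℝ a y with hα
    set β := inner ℝ b y with hβ
    have e2 : (Real.cos (α + β) - l) * (Real.cos (α - β) - l) =
        1 / 2 * Real.cos (2 * α) + 1 / 2 * Real.cos (2 * β) -
          2 * l * (Real.cos α * Real.cos β) + l ^ 2 := by
      rw [Real.cos_add, Real.cos_sub, Real.cos_two_mul, Real.cos_two_mul]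
      have h3 := Real.sin_sq_add_cos_sq α
      have h4 := Real.sin_sq_add_cos_sq β
      have h5 : Real.sin α ^ 2 = 1 - Real.cos α ^ 2 := by linarith
      have h6 : Real.sin β ^ 2 = 1 - Real.cos β ^ 2 := by linarith
      have : (Real.cos α * Real.cos β - Real.sin α * Real.sin β - l) *
          (Real.cos α * Real.cos β + Real.sin α * Real.sin β - l) =
          Real.cos α ^ 2 * Real.cos β ^ 2 - Real.sin α ^ 2 * Real.sin β ^ 2 -
            2 * l * (Real.cos α * Real.cos β) + l ^ 2 := by ring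
      rw [this, h5, h6]
      ring
    calc _ = (gw (t / 2) (a + b) * gw (t / 2) (a - b)) *
          ((Real.cos (α + β) - l) * (Real.cos (α - β) - l)) := by ring
      _ = _ := by
        rw [e1, e2]
        ring
  have h3 : ∑' q : Γ × Γ,
      (gw (t / 2) ((q.1 + q.2 : Γ) : E) * (Real.cos (inner ℝ ((q.1 + q.2 : Γ) : E) y) - l)) *
      (gw (t / 2) ((q.1 - q.2 : Γ) : E) * (Real.cos (inner ℝ ((q.1 - q.2 : Γ) : E) y) - l)) =
      ct Γ ((2 : ℝ) • y) t * th Γ 0 t - 2 * l * ct Γ y t ^ 2 + l ^ 2 * th Γ 0 t ^ 2 := by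
    rw [tsum_congr hkey, hsum.tsum_eq]
    simp only [ct, gw_tsum]
    ring
  rw [← h3]
  exact h1

/-- doubling -/
theorem ct_four {Γ : AddSubgroup E} (h : Disc Γ) (y : E) {t : ℝ} (ht : 0 < t) :
    (ct Γ y t / th Γ 0 t) ^ 4 ≤ ct Γ ((2 : ℝ) • y) t / th Γ 0 t := by
  have h0 : 0 < th Γ 0 t := th_pos h 0 ht
  have h1 := ct_quad h y ht ((ct Γ y t / th Γ 0 t) ^ 2)
  have h2 : ct Γ y t = (ct Γ y t / th Γ 0 t) * th Γ 0 t := (div_mul_cancel₀ _ h0.ne').symm
  have h3 : ct Γ ((2 : ℝ) • y) t = (ct Γ ((2 : ℝ) • y) t / th Γ 0 t) * th Γ 0 t :=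
    (div_mul_cancel₀ _ h0.ne').symm
  generalize ct Γ y t / th Γ 0 t = F at *
  generalize ct Γ ((2 : ℝ) • y) t / th Γ 0 t = G at *
  rw [h2, h3] at h1
  have h4 : G * th Γ 0 t * th Γ 0 t - 2 * F ^ 2 * (F * th Γ 0 t) ^ 2 +
      (F ^ 2) ^ 2 * th Γ 0 t ^ 2 = (G - F ^ 4) * th Γ 0 t ^ 2 := by ring
  rw [h4] at h1
  have := nonneg_of_mul_nonneg_left h1 (pow_pos h0 2)
  linarith

theorem le_cosh (x : ℝ) : 1 + x ^ 2 / 2 ≤ Real.cosh x := by
  have h1 : Real.cosh x = 1 + 2 * Real.sinh (x / 2) ^ 2 := by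
    have h2 := Real.cosh_two_mul (x / 2)
    rw [show 2 * (x / 2) = x by ring, Real.cosh_sq] at h2
    linarith
  have h2 : (x / 2) ^ 2 ≤ Real.sinh (x / 2) ^ 2 := by
    rcases le_total 0 x with h | h
    · exact pow_le_pow_left₀ (by linarith) (Real.self_le_sinh_iff.2 (by linarith)) 2
    · have h3 := Real.self_le_sinh_iff.2 (show 0 ≤ -(x / 2) by linarith)
      rw [Real.sinh_neg] at h3
      have h4 := pow_le_pow_left₀ (show 0 ≤ -(x / 2) by linarith) h3 2
      rwa [neg_sq, neg_sq] at h4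
  rw [h1]
  linarith

/-- lower bound for small frequencies -/
theorem ct_small {Γ : AddSubgroup E} (h : Disc Γ) (y : E) {t : ℝ} (ht : 0 < t) :
    2 - Real.exp (‖y‖ ^ 2 / (4 * t)) ≤ ct Γ y t / th Γ 0 t := by
  have h0 : 0 < th Γ 0 t := th_pos h 0 ht
  obtain ⟨z, hz⟩ : ∃ z : E, z = (1 / (2 * t)) • y := ⟨_, rfl⟩
  have hs1 := th_summable h z ht
  have hs2 := th_summable h (-z) ht
  have hS := (hs1.add hs2).mul_left (Real.exp (t * ‖z‖ ^ 2) / 2)
  have hpt : ∀ x : Γ, Real.exp (t * ‖z‖ ^ 2) / 2 * (Real.exp (-t * ‖(x : E) + z‖ ^ 2) +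
      Real.exp (-t * ‖(x : E) + -z‖ ^ 2)) = gw t (x : E) * Real.cosh (inner ℝ (x : E) y) := by
    intro x
    have e1 : ‖(x : E) + z‖ ^ 2 = ‖(x : E)‖ ^ 2 + 2 * inner ℝ (x : E) z + ‖z‖ ^ 2 :=
      norm_add_sq_real _ _
    have e2 : ‖(x : E) + -z‖ ^ 2 = ‖(x : E)‖ ^ 2 - 2 * inner ℝ (x : E) z + ‖z‖ ^ 2 := by
      rw [← sub_eq_add_neg, norm_sub_sq_real]
    have e3 : inner ℝ (x : E) z = 1 / (2 * t) * inner ℝ (x : E) y := by
      rw [hz, inner_smul_right]
    rw [e1, e2, e3, gw, Real.cosh_eq]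
    set a := inner ℝ (x : E) y with ha
    have e4 : Real.exp (-t * (‖(x : E)‖ ^ 2 + 2 * (1 / (2 * t) * a) + ‖z‖ ^ 2)) =
        Real.exp (-t * ‖(x : E)‖ ^ 2) * Real.exp (-a) * Real.exp (-(t * ‖z‖ ^ 2)) := by
      rw [← Real.exp_add, ← Real.exp_add]
      congr 1
      field_simp
      ring
    have e5 : Real.exp (-t * (‖(x : E)‖ ^ 2 - 2 * (1 / (2 * t) * a) + ‖z‖ ^ 2)) =
        Real.exp (-t * ‖(x : E)‖ ^ 2) * Real.exp a * Real.exp (-(t * ‖z‖ ^ 2)) := by
      rw [← Real.exp_add, ← Real.exp_add]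
      congr 1
      field_simp
      ring
    rw [e4, e5, Real.exp_neg (t * ‖z‖ ^ 2)]
    have := (Real.exp_pos (t * ‖z‖ ^ 2)).ne'
    field_simp
    ring
  have hcosh : Summable fun x : Γ => gw t (x : E) * Real.cosh (inner ℝ (x : E) y) := by
    refine hS.congr fun x => ?_
    exact (hpt x)
  have hct : Summable fun x : Γ => gw t (x : E) * Real.cos (inner ℝ (x : E) y) :=
    (bdd_summable h ht (fun x => Real.cos (inner ℝ x y)) 1 fun x => Real.abs_cos_le_one _).of_norm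
  have hcs : ∑' x : Γ, gw t (x : E) * Real.cosh (inner ℝ (x : E) y) ≤
      Real.exp (t * ‖z‖ ^ 2) * th Γ 0 t := by
    rw [← tsum_congr hpt, tsum_mul_left, hs1.tsum_add hs2]
    have e1 : ∑' x : Γ, Real.exp (-t * ‖(x : E) + z‖ ^ 2) ≤ th Γ 0 t := th_shift_le h z ht
    have e2 : ∑' x : Γ, Real.exp (-t * ‖(x : E) + -z‖ ^ 2) ≤ th Γ 0 t := th_shift_le h (-z) ht
    have e3 := Real.exp_pos (t * ‖z‖ ^ 2)
    nlinarith
  have hz2 : t * ‖z‖ ^ 2 = ‖y‖ ^ 2 / (4 * t) := by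
    rw [hz, norm_smul, Real.norm_of_nonneg (by positivity)]
    field_simp
    ring
  rw [hz2] at hcs
  rw [le_div_iff₀ h0, sub_mul]
  have h5 : 2 * th Γ 0 t - ∑' x : Γ, gw t (x : E) * Real.cosh (inner ℝ (x : E) y) ≤ ct Γ y t := by
    have h6 : ∑' x : Γ, (2 * gw t (x : E) - gw t (x : E) * Real.cosh (inner ℝ (x : E) y)) =
        2 * th Γ 0 t - ∑' x : Γ, gw t (x : E) * Real.cosh (inner ℝ (x : E) y) := by
      rw [((gw_summable h ht).mul_left 2).tsum_sub hcosh, tsum_mul_left, gw_tsum]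
    rw [← h6, ct]
    refine Summable.tsum_le_tsum (fun x => ?_) (((gw_summable h ht).mul_left 2).sub hcosh) hct
    have e1 := Real.one_sub_sq_div_two_le_cos (x := inner ℝ (x : E) y)
    have e2 : 1 + (inner ℝ (x : E) y) ^ 2 / 2 ≤ Real.cosh (inner ℝ (x : E) y) := by
      exact le_cosh _
    have e3 := gw_pos t (x : E)
    nlinarith
  linarith

theorem two_sub_exp {s : ℝ} (h0 : 0 ≤ s) (h1 : s ≤ 1 / 5) :
    Real.exp (-2 * s) ≤ 2 - Real.exp s := by
  have e1 : Real.exp s ≤ 1 + s + s ^ 2 := by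
    have := Real.abs_exp_sub_one_sub_id_le (x := s) (by rw [abs_of_nonneg h0]; linarith)
    have := (abs_le.1 this).2
    linarith
  have e2 : Real.exp (-2 * s) ≤ 1 + (-2 * s) + (-2 * s) ^ 2 := by
    have := Real.abs_exp_sub_one_sub_id_le (x := -2 * s) (by
      rw [abs_le]
      constructor <;> linarith)
    have := (abs_le.1 this).2
    linarith
  nlinarith

/-- **Characteristic function of a lattice Gaussian.** -/
theorem ct_ge {Γ : AddSubgroup E} (h : Disc Γ) {t : ℝ} (ht : 0 < t) :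
    ∀ (k : ℕ) (y : E), ‖y‖ ^ 2 / (4 * t) ≤ 4 ^ k / 5 →
      Real.exp (-‖y‖ ^ 2 / (2 * t)) ≤ ct Γ y t / th Γ 0 t := by
  intro k
  induction k with
  | zero =>
    intro y hy
    rw [pow_zero] at hy
    refine le_trans ?_ (ct_small h y ht)
    have h1 := two_sub_exp (s := ‖y‖ ^ 2 / (4 * t)) (by positivity) hy
    have h2 : -2 * (‖y‖ ^ 2 / (4 * t)) = -‖y‖ ^ 2 / (2 * t) := by
      field_simp
      ring
    rwa [h2] at h1
  | succ k ih =>
    intro y hy
    have h1 : ‖(1 / 2 : ℝ) • y‖ ^ 2 = ‖y‖ ^ 2 / 4 := by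
      rw [norm_smul, Real.norm_of_nonneg (by norm_num)]
      ring
    have h2 := ih ((1 / 2 : ℝ) • y) (by
      rw [h1, div_div, mul_comm (4 : ℝ) (4 * t), ← div_div]
      have h4 : (4 : ℝ) ^ (k + 1) = 4 ^ k * 4 := pow_succ _ _
      rw [h4] at hy
      linarith)
    have h3 := ct_four h ((1 / 2 : ℝ) • y) ht
    rw [smul_smul, show (2 : ℝ) * (1 / 2) = 1 by norm_num, one_smul] at h3
    refine le_trans ?_ h3
    rw [h1] at h2
    calc Real.exp (-‖y‖ ^ 2 / (2 * t)) = Real.exp (-(‖y‖ ^ 2 / 4) / (2 * t)) ^ 4 := by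
          rw [← Real.exp_nat_mul]
          congr 1
          push_cast
          field_simp
      _ ≤ _ := pow_le_pow_left₀ (Real.exp_pos _).le h2 4

theorem ct_lower {Γ : AddSubgroup E} (h : Disc Γ) {t : ℝ} (ht : 0 < t) (y : E) :
    Real.exp (-‖y‖ ^ 2 / (2 * t)) * th Γ 0 t ≤ ct Γ y t := by
  have h0 : 0 < th Γ 0 t := th_pos h 0 ht
  obtain ⟨k, hk⟩ := pow_unbounded_of_one_lt (‖y‖ ^ 2 / t) (show (1 : ℝ) < 4 by norm_num)
  have h1 := ct_ge h ht (k + 1) y (by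
    have : ‖y‖ ^ 2 / (4 * t) = ‖y‖ ^ 2 / t / 4 := by
      rw [div_div, mul_comm]
    rw [this]
    have h2 : (4 : ℝ) ^ (k + 1) = 4 ^ k * 4 := pow_succ _ _
    rw [h2]
    have h3 : (0 : ℝ) < 4 ^ k := by positivity
    linarith)
  rwa [le_div_iff₀ h0] at h1

end H24.LW
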