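import Pool.Agent.H24.ID.Levy
set_option autoImplicit false

/-! Lévy–Khintchine on a finite abelian group, general form (zeros allowed, integer roots only). -/

namespace H24.ID

open Finset Filter
open scoped Topology

universe u

section

variable {Γ : Type*} [AddCommGroup Γ] [Fintype Γ]

theorem log_coeff' (f : Γ → ℝ) (hpos : ∀ x, 0 < f x)
    (hpd : ∀ n : ℕ, ∀ c : Γ → ℝ, 0 ≤ ∑ x, ∑ y, c x * c y * f (x - y) ^ (1 / ((n : ℝ) + 1)))
    (ψ : AddChar Γ ℂ) (hψ : ψ ≠ 0) : 0 ≤ ∑ z, Real.log (f z) * (ψ z).re := by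
  have h1 : ∀ n : ℕ, 0 ≤ ∑ z, ((1 / ((n : ℝ) + 1))⁻¹ * (f z ^ (1 / ((n : ℝ) + 1)) - 1)) *
      (ψ z).re := by
    intro n
    have ht : 0 < 1 / ((n : ℝ) + 1) := by positivity
    have h2 := pd_coeff (fun x => f x ^ (1 / ((n : ℝ) + 1))) (hpd n) ψ
    have h3 : ∑ z, ((1 / ((n : ℝ) + 1))⁻¹ * (f z ^ (1 / ((n : ℝ) + 1)) - 1)) * (ψ z).re =
        (1 / ((n : ℝ) + 1))⁻¹ *
          (∑ z, f z ^ (1 / ((n : ℝ) + 1)) * (ψ z).re - ∑ z, (ψ z).re) := by
      rw [← Finset.sum_sub_distrib, Finset.mul_sum]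
      refine Finset.sum_congr rfl fun z _ => ?_
      ring
    rw [h3, sum_re_eq_zero ψ hψ, sub_zero]
    exact mul_nonneg (inv_nonneg.2 ht.le) h2
  have h2 : Tendsto (fun t : ℝ => ∑ z, (t⁻¹ * (f z ^ t - 1)) * (ψ z).re) (𝓝[>] 0)
      (𝓝 (∑ z, Real.log (f z) * (ψ z).re)) := by
    refine tendsto_finsetSum _ fun z _ => Tendsto.mul_const _ ?_
    have h3 := (Real.hasStrictDerivAt_const_rpow (hpos z) 0).hasDerivAt
    rw [Real.rpow_zero, one_mul, hasDerivAt_iff_tendsto_slope_zero] at h3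
    have h4 : Tendsto (fun t : ℝ => t⁻¹ • (f z ^ (0 + t) - f z ^ (0 : ℝ))) (𝓝[>] 0)
        (𝓝 (Real.log (f z))) :=
      h3.mono_left (nhdsWithin_mono _ fun t (ht : 0 < t) => ht.ne')
    simpa using h4
  have h5 : Tendsto (fun n : ℕ => 1 / ((n : ℝ) + 1)) atTop (𝓝[>] 0) :=
    tendsto_nhdsWithin_iff.2 ⟨tendsto_one_div_add_atTop_nhds_zero_nat,
      Eventually.of_forall fun n => by
        change 0 < 1 / ((n : ℝ) + 1)
        positivity⟩
  exact ge_of_tendsto' (h2.comp h5) h1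

/-- Lévy–Khintchine representation -/
theorem levy' (f : Γ → ℝ) (h0 : f 0 = 1) (hpos : ∀ x, 0 < f x) (hs : ∀ x, f (-x) = f x)
    (hpd : ∀ n : ℕ, ∀ c : Γ → ℝ, 0 ≤ ∑ x, ∑ y, c x * c y * f (x - y) ^ (1 / ((n : ℝ) + 1))) :
    ∃ w : AddChar Γ ℂ → ℝ, (∀ ψ, 0 ≤ w ψ) ∧
      ∀ x, Real.log (f x) = -∑ ψ, w ψ * (1 - (ψ x).re) := by
  classical
  have hc : (0 : ℝ) < Fintype.card Γ := by exact_mod_cast Fintype.card_pos_iff.2 ⟨0⟩
  refine ⟨fun ψ => if ψ = 0 then 0 else (∑ z, Real.log (f z) * (ψ z).re) / Fintype.card Γ,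
    fun ψ => ?_, fun x => ?_⟩
  · dsimp only
    split_ifs with h
    · exact le_rfl
    · exact div_nonneg (log_coeff' f hpos hpd ψ h) hc.le
  · have h1 : ∑ ψ : AddChar Γ ℂ, (if ψ = 0 then 0 else
        (∑ z, Real.log (f z) * (ψ z).re) / Fintype.card Γ) * (1 - (ψ x).re) =
        ∑ ψ : AddChar Γ ℂ, (∑ z, Real.log (f z) * (ψ z).re) / Fintype.card Γ *
          (1 - (ψ x).re) := by
      refine Finset.sum_congr rfl fun ψ _ => ?_
      split_ifs with h
      · rw [h]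
        simp
      · rfl
    rw [h1]
    -- inversion
    have h2 : ∀ x : Γ, ∑ ψ : AddChar Γ ℂ, (∑ z, Real.log (f z) * (ψ z).re) * (ψ x).re =
        Fintype.card Γ * Real.log (f x) := by
      intro x
      have h3 : ∀ z : Γ, ∑ ψ : AddChar Γ ℂ, (ψ z).re * (ψ x).re =
          ((if z + x = 0 then (Fintype.card Γ : ℝ) else 0) +
            (if z - x = 0 then (Fintype.card Γ : ℝ) else 0)) / 2 := by
        intro z
        have h4 : ∀ a : Γ, ∑ ψ : AddChar Γ ℂ, (ψ a).re =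
            if a = 0 then (Fintype.card Γ : ℝ) else 0 := by
          intro a
          have := congrArg Complex.re (AddChar.sum_apply_eq_ite (α := Γ) a)
          rw [Complex.re_sum] at this
          rw [this]
          split_ifs <;> simp
        rw [← h4, ← h4, ← Finset.sum_add_distrib, Finset.sum_div]
        refine Finset.sum_congr rfl fun ψ _ => ?_
        rw [sub_eq_add_neg, AddChar.map_add_eq_mul, AddChar.map_add_eq_mul,
          AddChar.map_neg_eq_conj, Complex.mul_re, Complex.mul_re, Complex.conj_re,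
          Complex.conj_im]
        ring
      have h5 : ∑ ψ : AddChar Γ ℂ, (∑ z, Real.log (f z) * (ψ z).re) * (ψ x).re =
          ∑ z, Real.log (f z) * ∑ ψ : AddChar Γ ℂ, (ψ z).re * (ψ x).re := by
        simp only [Finset.sum_mul, Finset.mul_sum]
        rw [Finset.sum_comm]
        refine Finset.sum_congr rfl fun z _ => Finset.sum_congr rfl fun ψ _ => ?_
        ring
      rw [h5]
      have h6 : ∀ z : Γ, Real.log (f z) * ∑ ψ : AddChar Γ ℂ, (ψ z).re * (ψ x).re =
          (if z = -x then Real.log (f x) * Fintype.card Γ / 2 else 0) +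
          (if z = x then Real.log (f x) * Fintype.card Γ / 2 else 0) := by
        intro z
        rw [h3, add_eq_zero_iff_eq_neg, sub_eq_zero]
        by_cases e1 : z = -x
        · by_cases e2 : z = x
          · rw [if_pos e1, if_pos e2, if_pos e1, if_pos e2, e2]
            ring
          · rw [if_pos e1, if_neg e2, if_pos e1, if_neg e2, e1, hs]
            ring
        · by_cases e2 : z = x
          · rw [if_neg e1, if_pos e2, if_neg e1, if_pos e2, e2]
            ring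
          · rw [if_neg e1, if_neg e2, if_neg e1, if_neg e2]
            ring
      rw [Finset.sum_congr rfl fun z _ => h6 z, Finset.sum_add_distrib, Finset.sum_ite_eq',
        Finset.sum_ite_eq', if_pos (Finset.mem_univ _), if_pos (Finset.mem_univ _)]
      ring
    have h3 := h2 0
    rw [h0, Real.log_one, mul_zero] at h3
    have h4 := h2 x
    have h5 : ∑ ψ : AddChar Γ ℂ, (∑ z, Real.log (f z) * (ψ z).re) / Fintype.card Γ *
        (1 - (ψ x).re) = (∑ ψ : AddChar Γ ℂ, (∑ z, Real.log (f z) * (ψ z).re) * (ψ 0).re -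
        ∑ ψ : AddChar Γ ℂ, (∑ z, Real.log (f z) * (ψ z).re) * (ψ x).re) / Fintype.card Γ := by
      rw [← Finset.sum_sub_distrib, Finset.sum_div]
      refine Finset.sum_congr rfl fun ψ _ => ?_
      rw [AddChar.map_zero_eq_one, Complex.one_re]
      ring
    rw [h5, h3, h4, zero_sub, neg_div, neg_neg, mul_div_cancel_left₀ _ hc.ne']

end

section

variable {D : Type*} [AddCommGroup D] [Fintype D]

/-- characters of a subgroup extend -/
theorem ext_char (D₀ : AddSubgroup D) (ψ : AddChar D₀ ℂ) :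
    ∃ Ψ : AddChar D ℂ, ∀ x : D₀, Ψ x = ψ x := by
  classical
  by_contra hcon
  push Not at hcon
  have hft : Fintype D₀ := Fintype.ofFinite _
  have h1 : ∀ Ψ : AddChar D ℂ, ∑ x : D₀, Ψ x * (ψ x)⁻¹ = 0 := by
    intro Ψ
    obtain ⟨x, hx⟩ := hcon Ψ
    have h2 : Ψ.compAddMonoidHom D₀.subtype - ψ ≠ 0 := by
      intro h
      apply hx
      have h3 := sub_eq_zero.1 h
      exact congrArg (fun φ : AddChar D₀ ℂ => φ x) h3
    have h3 := AddChar.sum_eq_zero_iff_ne_zero.2 h2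
    rw [← h3]
    refine Finset.sum_congr rfl fun z _ => ?_
    rw [AddChar.sub_apply', div_eq_mul_inv]
    rfl
  have h2 : ∑ Ψ : AddChar D ℂ, ∑ x : D₀, Ψ x * (ψ x)⁻¹ = Fintype.card D := by
    rw [Finset.sum_comm]
    rw [Finset.sum_eq_single (0 : D₀)]
    · rw [← Finset.sum_mul, AddChar.map_zero_eq_one, inv_one, mul_one, AddSubgroup.coe_zero,
        AddChar.sum_apply_eq_ite, if_pos rfl]
    · intro x _ hx
      rw [← Finset.sum_mul, AddChar.sum_apply_eq_ite, if_neg, zero_mul]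
      intro h
      exact hx (Subtype.ext h)
    · intro h
      exact absurd (Finset.mem_univ _) h
  rw [Finset.sum_congr rfl fun Ψ _ => h1 Ψ, Finset.sum_const_zero] at h2
  have h3 : (Fintype.card D : ℂ) ≠ 0 := by
    exact_mod_cast (Fintype.card_pos_iff.2 ⟨(0 : D)⟩).ne'
  exact h3 h2.symm

/-- the support is closed under differences -/
theorem supp_sub (f : D → ℝ) (hf0 : ∀ x, 0 ≤ f x) (h0 : f 0 = 1) (hs : ∀ x, f (-x) = f x)
    (hpd : ∀ n : ℕ, ∀ c : D → ℝ, 0 ≤ ∑ x, ∑ y, c x * c y * f (x - y) ^ (1 / ((n : ℝ) + 1)))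
    (x y : D) (hx : 0 < f x) (hy : 0 < f y) : 0 < f (x - y) := by
  classical
  by_contra hcon
  have hxy : f (x - y) = 0 := le_antisymm (not_lt.1 hcon) (hf0 _)
  have hyx : f (y - x) = 0 := by rw [← hs, neg_sub, hxy]
  have hc : ∀ h : D → ℝ, ∑ z, ((if z = x then (1 : ℝ) else 0) - 2 * (if z = 0 then 1 else 0) +
      (if z = y then 1 else 0)) * h z = h x - 2 * h 0 + h y := by
    intro h
    simp only [add_mul, sub_mul, mul_assoc, Finset.sum_add_distrib, Finset.sum_sub_distrib,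
      ite_mul, one_mul, zero_mul, mul_ite, mul_zero, Finset.sum_ite_eq', Finset.mem_univ, if_true]
  have h1 : ∀ n : ℕ, 0 ≤ 6 - 4 * f x ^ (1 / ((n : ℝ) + 1)) - 4 * f y ^ (1 / ((n : ℝ) + 1)) := by
    intro n
    have hn : 1 / ((n : ℝ) + 1) ≠ 0 := by positivity
    have h2 := hpd n (fun z => (if z = x then (1 : ℝ) else 0) - 2 * (if z = 0 then 1 else 0) +
      (if z = y then 1 else 0))
    have h3 : ∀ z : D, ∑ w, ((if z = x then (1 : ℝ) else 0) - 2 * (if z = 0 then 1 else 0) +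
        (if z = y then 1 else 0)) * ((if w = x then (1 : ℝ) else 0) -
        2 * (if w = 0 then 1 else 0) + (if w = y then 1 else 0)) *
        f (z - w) ^ (1 / ((n : ℝ) + 1)) =
        ((if z = x then (1 : ℝ) else 0) - 2 * (if z = 0 then 1 else 0) +
        (if z = y then 1 else 0)) * (f (z - x) ^ (1 / ((n : ℝ) + 1)) -
          2 * f (z - 0) ^ (1 / ((n : ℝ) + 1)) + f (z - y) ^ (1 / ((n : ℝ) + 1))) := by
      intro z
      rw [← hc (fun w => f (z - w) ^ (1 / ((n : ℝ) + 1))), Finset.mul_sum]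
      exact Finset.sum_congr rfl fun w _ => by ring
    rw [Finset.sum_congr rfl fun z _ => h3 z, hc, sub_self, sub_self, sub_self, hxy, hyx, h0,
      zero_sub, zero_sub, hs, hs, sub_zero, sub_zero, Real.one_rpow,
      Real.zero_rpow hn] at h2
    linarith
  have h2 : ∀ z, 0 < f z → Tendsto (fun n : ℕ => f z ^ (1 / ((n : ℝ) + 1))) atTop (𝓝 1) := by
    intro z hz
    have h3 := (Real.continuousAt_const_rpow (b := 0) hz.ne').tendsto.comp
      (tendsto_one_div_add_atTop_nhds_zero_nat (𝕜 := ℝ))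
    rw [Real.rpow_zero] at h3
    exact h3
  have h3 := ge_of_tendsto' ((((h2 x hx).const_mul 4).const_sub 6).sub ((h2 y hy).const_mul 4)) h1
  norm_num at h3

theorem sum_sub_type (D₀ : AddSubgroup D) [Fintype D₀] (F : D → ℝ) (hF : ∀ x, x ∉ D₀ → F x = 0) :
    ∑ x, F x = ∑ x : D₀, F x := by
  classical
  rw [← Finset.sum_subtype (Finset.univ.filter (· ∈ D₀)) (p := (· ∈ D₀)) (fun x => by simp) F]
  symm
  refine Finset.sum_subset (Finset.subset_univ _) fun x _ hx => hF x ?_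
  intro h
  exact hx (Finset.mem_filter.2 ⟨Finset.mem_univ _, h⟩)

/-- **Representation of a general infinitely divisible function.** -/
theorem repr2 {D : Type u} [AddCommGroup D] [Fintype D] (f : D → ℝ) (hf0 : ∀ x, 0 ≤ f x)
    (h0 : f 0 = 1) (hs : ∀ x, f (-x) = f x)
    (hpd : ∀ n : ℕ, ∀ c : D → ℝ, 0 ≤ ∑ x, ∑ y, c x * c y * f (x - y) ^ (1 / ((n : ℝ) + 1))) :
    ∃ (ι : Type u) (_ : Fintype ι) (χ : ι → (D →+ UnitAddCircle)) (w : ι → ℝ), (∀ i, 0 ≤ w i) ∧
      (∀ γ, 0 < f γ → ∑ i, w i * u1 (χ i γ) = -Real.log (f γ)) ∧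
      ∑ γ, Real.exp (-∑ i, w i * u1 (χ i γ)) ≤ ∑ γ, f γ + 1 := by
  classical
  obtain ⟨D₀, hD₀⟩ : ∃ D₀ : AddSubgroup D, ∀ x, x ∈ D₀ ↔ 0 < f x :=
    ⟨{ carrier := {x | 0 < f x}
       zero_mem' := by
         rw [Set.mem_ofPred_eq, h0]
         exact one_pos
       add_mem' := by
         intro a b ha hb
         have h1 := supp_sub f hf0 h0 hs hpd a (-b) ha (by
           rw [hs]
           exact hb)
         rwa [sub_neg_eq_add] at h1
       neg_mem' := by
         intro a ha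
         rw [Set.mem_ofPred_eq, hs]
         exact ha }, fun x => Iff.rfl⟩
  have hft : Fintype D₀ := Fintype.ofFinite _
  have hfq : Fintype (D ⧸ D₀) := Fintype.ofFinite _
  obtain ⟨w₀, hw₀, hlog⟩ := levy' (Γ := D₀) (fun x => f x) h0 (fun x => (hD₀ _).1 x.2)
    (fun x => hs x) (fun n c => by
      obtain ⟨c', hc'⟩ : ∃ c' : D → ℝ, c' = Function.extend Subtype.val c 0 := ⟨_, rfl⟩
      have e1 : ∀ x : D₀, c' x = c x := by
        intro x
        rw [hc']
        exact Subtype.val_injective.extend_apply c 0 x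
      have e2 : ∀ x, x ∉ D₀ → c' x = 0 := by
        intro x hx
        rw [hc', Function.extend_apply']
        · rfl
        · rintro ⟨z, rfl⟩
          exact hx z.2
      have h1 := hpd n c'
      rw [sum_sub_type D₀ _ (fun x hx => by
        refine Finset.sum_eq_zero fun y _ => ?_
        rw [e2 x hx, zero_mul, zero_mul])] at h1
      refine h1.trans (le_of_eq ?_)
      refine Finset.sum_congr rfl fun x _ => ?_
      rw [sum_sub_type D₀ _ (fun y hy => by
        rw [e2 y hy, mul_zero, zero_mul])]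
      refine Finset.sum_congr rfl fun y _ => ?_
      rw [e1, e1, AddSubgroup.coe_sub])
  choose Ψ hΨ using ext_char D₀
  choose χ₁ hχ₁ using fun ψ : AddChar D ℂ => exists_toAC ψ
  obtain ⟨R, hR⟩ : ∃ R : ℝ, R = Real.log (Fintype.card D) := ⟨_, rfl⟩
  have hc1 : (1 : ℝ) ≤ Fintype.card D := by
    exact_mod_cast Fintype.card_pos_iff.2 ⟨(0 : D)⟩
  have hR0 : 0 ≤ R := by
    rw [hR]
    exact Real.log_nonneg hc1
  let χ : AddChar D₀ ℂ ⊕ AddChar (D ⧸ D₀) ℂ → (D →+ UnitAddCircle) :=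
    Sum.elim (fun ψ => χ₁ (Ψ ψ)) (fun φ => χ₁ (φ.compAddMonoidHom (QuotientAddGroup.mk' D₀)))
  let w : AddChar D₀ ℂ ⊕ AddChar (D ⧸ D₀) ℂ → ℝ := Sum.elim w₀ (fun _ => R)
  have hsplit : ∀ γ, ∑ i, w i * u1 (χ i γ) = ∑ ψ, w₀ ψ * (1 - (Ψ ψ γ).re) +
      ∑ φ : AddChar (D ⧸ D₀) ℂ, R * (1 - (φ (QuotientAddGroup.mk γ)).re) := by
    intro γ
    rw [Fintype.sum_sum_type]
    congr 1
    · refine Finset.sum_congr rfl fun ψ _ => ?_
      change w₀ ψ * u1 (χ₁ (Ψ ψ) γ) = _
      rw [u1_char, hχ₁]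
    · refine Finset.sum_congr rfl fun φ _ => ?_
      change R * u1 (χ₁ (φ.compAddMonoidHom (QuotientAddGroup.mk' D₀)) γ) = _
      rw [u1_char, hχ₁]
      rfl
  have hin : ∀ γ, 0 < f γ → ∑ i, w i * u1 (χ i γ) = -Real.log (f γ) := by
    intro γ hγ
    have hm : γ ∈ D₀ := (hD₀ γ).2 hγ
    rw [hsplit]
    have e1 : (QuotientAddGroup.mk γ : D ⧸ D₀) = 0 := (QuotientAddGroup.eq_zero_iff γ).2 hm
    rw [e1]
    have e2 : ∑ φ : AddChar (D ⧸ D₀) ℂ, R * (1 - (φ 0).re) = 0 := by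
      refine Finset.sum_eq_zero fun φ _ => ?_
      rw [AddChar.map_zero_eq_one, Complex.one_re, sub_self, mul_zero]
    rw [e2, add_zero]
    have e3 := hlog ⟨γ, hm⟩
    simp only at e3
    rw [e3, neg_neg]
    refine Finset.sum_congr rfl fun ψ _ => ?_
    rw [← hΨ ψ ⟨γ, hm⟩]
  have hout : ∀ γ, f γ = 0 → R ≤ ∑ i, w i * u1 (χ i γ) := by
    intro γ hγ
    have hm : γ ∉ D₀ := by
      intro h
      have := (hD₀ γ).1 h
      linarith
    rw [hsplit]
    have e1 : (QuotientAddGroup.mk γ : D ⧸ D₀) ≠ 0 := by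
      intro h
      exact hm ((QuotientAddGroup.eq_zero_iff γ).1 h)
    have e2 : ∑ φ : AddChar (D ⧸ D₀) ℂ, R * (1 - (φ (QuotientAddGroup.mk γ)).re) =
        Fintype.card (D ⧸ D₀) * R := by
      have e3 : ∑ φ : AddChar (D ⧸ D₀) ℂ, (φ (QuotientAddGroup.mk γ)).re = 0 := by
        have e4 := congrArg Complex.re
          (AddChar.sum_apply_eq_ite (α := D ⧸ D₀) (QuotientAddGroup.mk γ))
        rw [if_neg e1, Complex.re_sum, Complex.zero_re] at e4
        exact e4
      rw [← Finset.mul_sum, Finset.sum_sub_distrib, e3, Finset.sum_const, Finset.card_univ,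
        AddChar.card_eq, nsmul_eq_mul]
      ring
    rw [e2]
    have e5 : 0 ≤ ∑ ψ, w₀ ψ * (1 - (Ψ ψ γ).re) := by
      refine Finset.sum_nonneg fun ψ _ => mul_nonneg (hw₀ ψ) ?_
      have := Complex.re_le_norm (Ψ ψ γ)
      rw [AddChar.norm_apply] at this
      linarith
    have e6 : (1 : ℝ) ≤ Fintype.card (D ⧸ D₀) := by
      exact_mod_cast Fintype.card_pos_iff.2 ⟨(0 : D ⧸ D₀)⟩
    nlinarith
  refine ⟨AddChar D₀ ℂ ⊕ AddChar (D ⧸ D₀) ℂ, inferInstance, χ, w, ?_, hin, ?_⟩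
  · rintro (ψ | φ)
    · exact hw₀ ψ
    · exact hR0
  · have e1 : ∀ γ, Real.exp (-∑ i, w i * u1 (χ i γ)) ≤ f γ + (Fintype.card D : ℝ)⁻¹ := by
      intro γ
      rcases (hf0 γ).eq_or_lt with h | h
      · rw [← h, zero_add]
        have h2 := hout γ h.symm
        calc Real.exp (-∑ i, w i * u1 (χ i γ)) ≤ Real.exp (-R) :=
              Real.exp_le_exp.2 (neg_le_neg h2)
          _ = _ := by rw [Real.exp_neg, hR, Real.exp_log (by linarith)]
      · rw [hin γ h, neg_neg, Real.exp_log h]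
        have : (0 : ℝ) < (Fintype.card D : ℝ)⁻¹ := by positivity
        linarith
    refine (Finset.sum_le_sum fun γ _ => e1 γ).trans (le_of_eq ?_)
    rw [Finset.sum_add_distrib, Finset.sum_const, Finset.card_univ, nsmul_eq_mul,
      mul_inv_cancel₀ (by linarith)]

end

end H24.ID
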