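import Pool.Agent.H24.LW.Sg
import Pool.Agent.H24.LW.Levy2
set_option autoImplicit false

/-! Infinitely divisible laws. -/

namespace H24.LW

open Finset
open scoped Pointwise
open H24.ID

variable {Γ : Type*} [AddCommGroup Γ] [Fintype Γ]

/-- complex Fourier transform -/
noncomputable def fc (ν : Γ → ℝ) (γ : AddChar Γ ℂ) : ℂ := ∑ x, (ν x : ℂ) * γ x

/-- symmetrisation -/
noncomputable def sy (ν : Γ → ℝ) (x : Γ) : ℝ := ∑ z, ν (x + z) * ν z

theorem sy_neg (ν : Γ → ℝ) (x : Γ) : sy ν (-x) = sy ν x := by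
  rw [sy, sy]
  rw [← Equiv.sum_comp (Equiv.addLeft x)]
  refine Finset.sum_congr rfl fun z _ => ?_
  rw [Equiv.coe_addLeft, neg_add_cancel_left, mul_comm]

theorem sy_nonneg {ν : Γ → ℝ} (h : ∀ x, 0 ≤ ν x) (x : Γ) : 0 ≤ sy ν x :=
  Finset.sum_nonneg fun _ _ => mul_nonneg (h _) (h _)

theorem sy_zero (ν : Γ → ℝ) : sy ν 0 = ∑ x, ν x ^ 2 := by
  rw [sy]
  exact Finset.sum_congr rfl fun x _ => by rw [zero_add, sq]

theorem sy_total (ν : Γ → ℝ) : ∑ x, sy ν x = (∑ x, ν x) ^ 2 := by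
  simp only [sy]
  rw [Finset.sum_comm]
  have h1 : ∀ z : Γ, ∑ x, ν (x + z) * ν z = (∑ x, ν x) * ν z := by
    intro z
    rw [← Finset.sum_mul]
    congr 1
    exact Equiv.sum_comp (Equiv.addRight z) ν
  rw [Finset.sum_congr rfl fun z _ => h1 z, ← Finset.mul_sum, sq]

theorem ft_sy (ν : Γ → ℝ) (γ : AddChar Γ ℂ) : ft (sy ν) γ = ‖fc ν γ‖ ^ 2 := by
  have h1 : ((ft (sy ν) γ : ℝ) : ℂ) = ((‖fc ν γ‖ ^ 2 : ℝ) : ℂ) := by
    rw [ft_coe _ (sy_neg ν)]
    push_cast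
    rw [← Complex.mul_conj']
    calc ∑ x, ((sy ν x : ℝ) : ℂ) * γ x = ∑ x, ∑ z, (ν (x + z) : ℂ) * (ν z : ℂ) * γ x := by
          refine Finset.sum_congr rfl fun x _ => ?_
          rw [sy]
          push_cast
          rw [Finset.sum_mul]
      _ = ∑ z, ∑ x, (ν (x + z) : ℂ) * (ν z : ℂ) * γ x := Finset.sum_comm
      _ = ∑ z, ∑ x, (ν x : ℂ) * (ν z : ℂ) * γ (x - z) := by
          refine Finset.sum_congr rfl fun z _ => ?_
          rw [← Equiv.sum_comp (Equiv.addRight z) (fun x => (ν x : ℂ) * (ν z : ℂ) * γ (x - z))]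
          refine Finset.sum_congr rfl fun x _ => ?_
          rw [Equiv.coe_addRight, add_sub_cancel_right]
      _ = fc ν γ * (starRingEnd ℂ) (fc ν γ) := by
          rw [fc, map_sum, Finset.sum_mul, Finset.sum_comm]
          refine Finset.sum_congr rfl fun x _ => ?_
          rw [Finset.mul_sum]
          refine Finset.sum_congr rfl fun z _ => ?_
          rw [sub_eq_add_neg, AddChar.map_add_eq_mul, AddChar.map_neg_eq_conj, map_mul,
            Complex.conj_ofReal]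
          ring
  exact_mod_cast h1

open Classical in
/-- the law of the sum of `n` independent variables with law `ρ` -/
noncomputable def iid (n : ℕ) (ρ : Γ → ℝ) (x : Γ) : ℝ :=
  ∑ v : Fin n → Γ, if ∑ i, v i = x then ∏ i, ρ (v i) else 0

theorem fc_iid (n : ℕ) (ρ : Γ → ℝ) (γ : AddChar Γ ℂ) : fc (iid n ρ) γ = fc ρ γ ^ n := by
  classical
  calc fc (iid n ρ) γ = ∑ x, ∑ v : Fin n → Γ,
        (if ∑ i, v i = x then (∏ i, (ρ (v i) : ℂ)) * γ x else 0) := by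
        rw [fc]
        refine Finset.sum_congr rfl fun x _ => ?_
        rw [iid]
        push_cast
        rw [Finset.sum_mul]
        refine Finset.sum_congr rfl fun v _ => ?_
        split_ifs <;> simp
    _ = ∑ v : Fin n → Γ, ∑ x,
        (if ∑ i, v i = x then (∏ i, (ρ (v i) : ℂ)) * γ x else 0) := Finset.sum_comm
    _ = ∑ v : Fin n → Γ, ∏ i, ((ρ (v i) : ℂ) * γ (v i)) := by
        refine Finset.sum_congr rfl fun v _ => ?_
        rw [Finset.sum_ite_eq, if_pos (Finset.mem_univ _), addChar_map_sum,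
          Finset.prod_mul_distrib]
    _ = ∏ _i : Fin n, ∑ x, (ρ x : ℂ) * γ x := by
        rw [Finset.prod_univ_sum, Fintype.piFinset_univ]
    _ = fc ρ γ ^ n := by
        rw [Finset.prod_const, Finset.card_univ, Fintype.card_fin, fc]

/-- infinitely divisible probability laws -/
def InfDiv (ν : Γ → ℝ) : Prop :=
  (∀ x, 0 ≤ ν x) ∧ ∑ x, ν x = 1 ∧
    ∀ n : ℕ, ∃ ρ : Γ → ℝ, (∀ x, 0 ≤ ρ x) ∧ ∑ x, ρ x = 1 ∧ ν = iid (n + 1) ρ

theorem InfDiv.pd {ν : Γ → ℝ} (h : InfDiv ν) (n : ℕ) (c : AddChar Γ ℂ → ℝ) :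
    0 ≤ ∑ γ, ∑ δ, c γ * c δ * ft (sy ν) (γ - δ) ^ (1 / ((n : ℝ) + 1)) := by
  obtain ⟨ρ, hρ0, hρ1, hρ⟩ := h.2.2 n
  have h1 : ∀ γ, ft (sy ν) γ ^ (1 / ((n : ℝ) + 1)) = ft (sy ρ) γ := by
    intro γ
    rw [ft_sy, ft_sy, hρ, fc_iid, norm_pow, ← pow_mul, mul_comm (n + 1) 2, pow_mul]
    have h2 : 1 / ((n : ℝ) + 1) = (((n + 1 : ℕ) : ℝ))⁻¹ := by
      push_cast
      rw [one_div]
    rw [h2]
    exact Real.pow_rpow_inv_natCast (by positivity) (Nat.succ_ne_zero n)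
  simp only [h1]
  exact ft_pd (sy ρ) (sy_nonneg hρ0) c

/-- energy of the symmetrisation -/
theorem sy_corr (ν : Γ → ℝ) (A : Finset Γ) :
    ∑ a ∈ A, ∑ b ∈ A, sy ν (a - b) = ∑ w, (∑ a ∈ A, ν (a + w)) ^ 2 := by
  have h1 : ∀ a b : Γ, sy ν (a - b) = ∑ w, ν (a + w) * ν (b + w) := by
    intro a b
    rw [sy, ← Equiv.sum_comp (Equiv.addLeft b)]
    refine Finset.sum_congr rfl fun w _ => ?_
    have e : a - b + (b + w) = a + w := by abel
    change ν (a - b + (b + w)) * ν (b + w) = _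
    rw [e]
  simp only [h1]
  calc ∑ a ∈ A, ∑ b ∈ A, ∑ w, ν (a + w) * ν (b + w)
      = ∑ a ∈ A, ∑ w, ∑ b ∈ A, ν (a + w) * ν (b + w) :=
        Finset.sum_congr rfl fun a _ => Finset.sum_comm
    _ = ∑ w, ∑ a ∈ A, ∑ b ∈ A, ν (a + w) * ν (b + w) := Finset.sum_comm
    _ = _ := by
        refine Finset.sum_congr rfl fun w _ => ?_
        rw [sq, Finset.sum_mul]
        exact Finset.sum_congr rfl fun a _ => by rw [Finset.mul_sum]

theorem corr_of_mass [DecidableEq Γ] {ν : Γ → ℝ} (h0 : ∀ x, 0 ≤ ν x) {K : ℝ} (hK : 1 ≤ K)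
    {A : Finset Γ} (hA : A.Nonempty) (hAA : ((A + A).card : ℝ) ≤ K * A.card) {g : Γ}
    (hg : 1 ≤ K * ∑ a ∈ A, ν (g + a)) :
    (A.card : ℝ) ≤ K ^ 4 * ∑ a ∈ A, ∑ b ∈ A, sy ν (a - b) := by
  have ha : (0 : ℝ) < A.card := by exact_mod_cast hA.card_pos
  have hK0 : 0 < K := by linarith
  have hdiff : ((A - A).card : ℝ) ≤ K ^ 2 * A.card := by
    have h1 := Finset.ruzsa_triangle_inequality_sub_add_add A A A
    have h2 : ((A - A).card : ℝ) * A.card ≤ (A + A).card * (A + A).card := by exact_mod_cast h1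
    have h3 : ((A + A).card : ℝ) * (A + A).card ≤ (K * A.card) * (K * A.card) := by gcongr
    have h4 : ((A - A).card : ℝ) * A.card ≤ (K ^ 2 * A.card) * A.card := by
      refine h2.trans (h3.trans (le_of_eq ?_))
      ring
    exact le_of_mul_le_mul_right h4 ha
  rw [sy_corr]
  obtain ⟨S, hS⟩ : ∃ S : Γ → ℝ, ∀ w, S w = ∑ a ∈ A, ν (a + w) := ⟨_, fun _ => rfl⟩
  simp only [← hS]
  obtain ⟨W, hW⟩ : ∃ W : Finset Γ, W = (A - A).image (fun z => g + z) := ⟨_, rfl⟩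
  have hWc : (W.card : ℝ) ≤ K ^ 2 * A.card := by
    refine le_trans ?_ hdiff
    rw [hW]
    exact_mod_cast Finset.card_image_le
  obtain ⟨σ, hσ⟩ : ∃ σ : ℝ, σ = ∑ a ∈ A, ν (g + a) := ⟨_, rfl⟩
  rw [← hσ] at hg
  have h1 : A.card * σ ≤ ∑ w ∈ W, S w := by
    calc A.card * σ = ∑ a ∈ A, σ := by rw [Finset.sum_const, nsmul_eq_mul]
      _ ≤ ∑ a ∈ A, ∑ w ∈ W, ν (a + w) := by
          refine Finset.sum_le_sum fun a ha => ?_
          have h2 : A.image (fun b => g + (b - a)) ⊆ W := by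
            intro w hw
            obtain ⟨b, hb, rfl⟩ := Finset.mem_image.1 hw
            rw [hW]
            exact Finset.mem_image_of_mem _ (Finset.sub_mem_sub hb ha)
          calc σ = ∑ w ∈ A.image (fun b => g + (b - a)), ν (a + w) := by
                rw [Finset.sum_image (fun x _ z _ h => sub_left_injective (add_left_cancel h)), hσ]
                refine Finset.sum_congr rfl fun b _ => ?_
                rw [add_left_comm, add_sub_cancel]
            _ ≤ _ := Finset.sum_le_sum_of_subset_of_nonneg h2 fun _ _ _ => h0 _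
      _ = ∑ w ∈ W, S w := by
          rw [Finset.sum_comm]
          exact Finset.sum_congr rfl fun w _ => (hS w).symm
  have h2 := sq_sum_le_card_mul_sum_sq (s := W) (f := S)
  have h3 : ∑ w ∈ W, S w ^ 2 ≤ ∑ w, S w ^ 2 :=
    Finset.sum_le_sum_of_subset_of_nonneg (Finset.subset_univ _) fun _ _ _ => sq_nonneg _
  have h4 : 0 ≤ ∑ w, S w ^ 2 := Finset.sum_nonneg fun _ _ => sq_nonneg _
  have hσ0 : 0 ≤ σ := by
    rw [hσ]
    exact Finset.sum_nonneg fun _ _ => h0 _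
  have h5 : (A.card * σ) ^ 2 ≤ (K ^ 2 * A.card) * ∑ w, S w ^ 2 := by
    calc (A.card * σ) ^ 2 ≤ (∑ w ∈ W, S w) ^ 2 := pow_le_pow_left₀ (by positivity) h1 2
      _ ≤ W.card * ∑ w ∈ W, S w ^ 2 := h2
      _ ≤ W.card * ∑ w, S w ^ 2 := by gcongr
      _ ≤ _ := by gcongr
  have h6 : (A.card : ℝ) * A.card ≤ A.card * (K ^ 4 * ∑ w, S w ^ 2) := by
    calc (A.card : ℝ) * A.card ≤ (A.card * A.card) * (K * σ) ^ 2 := by
          have : 1 ≤ (K * σ) ^ 2 := one_le_pow₀ hg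
          nlinarith [mul_pos ha ha]
      _ = K ^ 2 * (A.card * σ) ^ 2 := by ring
      _ ≤ K ^ 2 * ((K ^ 2 * A.card) * ∑ w, S w ^ 2) := by gcongr
      _ = _ := by ring
  exact le_of_mul_le_mul_left h6 ha

end H24.LW
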