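import Pool.Agent.H24.LW.Tail
set_option autoImplicit false

/-! The physical side: many differences of `A` lie in the physical progression. -/

namespace H24.LW

open Finset H460
open H24.ID

variable {Γ : Type*} [AddCommGroup Γ] [Fintype Γ]

theorem one_sub_half_nonneg (a : UnitAddCircle) : 0 ≤ 1 - u1 a / 2 := by
  have := u1_le_two a
  linarith

theorem one_sub_half_le (a : UnitAddCircle) : 1 - u1 a / 2 ≤ Real.exp (-u1 a / 2) := by
  have := Real.add_one_le_exp (-u1 a / 2)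
  linarith

theorem nh_nonneg {m : ℕ} (η : Fin m → (AddChar Γ ℂ →+ UnitAddCircle)) (H : AddSubgroup Γ)
    (γ : AddChar Γ ℂ) : 0 ≤ nh η H γ := by
  rw [nh]
  refine mul_nonneg (Finset.prod_nonneg fun j _ => one_sub_half_nonneg _) ?_
  split_ifs <;> norm_num

theorem nh_le {m : ℕ} (η : Fin m → (AddChar Γ ℂ →+ UnitAddCircle)) (H : AddSubgroup Γ)
    (γ : AddChar Γ ℂ) : nh η H γ ≤ Real.exp (-en η γ / 2) := by
  have h1 : ∏ j, (1 - u1 (η j γ) / 2) ≤ Real.exp (-en η γ / 2) := by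
    rw [en, ← Finset.sum_neg_distrib, Finset.sum_div, Real.exp_sum]
    exact Finset.prod_le_prod (fun j _ => one_sub_half_nonneg _) fun j _ => one_sub_half_le _
  rw [nh]
  refine le_trans ?_ h1
  refine mul_le_of_le_one_right (Finset.prod_nonneg fun j _ => one_sub_half_nonneg _) ?_
  split_ifs <;> norm_num

theorem le_one_sub_half {a : UnitAddCircle} (ha : ‖a‖ ≤ 1 / 4) :
    Real.exp (-u1 a) ≤ 1 - u1 a / 2 := by
  have h1 : u1 a ≤ 1 := by
    obtain ⟨t, -, rfl, ht⟩ := exists_rep a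
    rw [u1_coe]
    have h2 : |t| ≤ 1 / 4 := by
      rw [← ht]
      exact ha
    have h3 : 0 ≤ Real.cos (2 * Real.pi * t) := by
      apply Real.cos_nonneg_of_neg_pi_div_two_le_of_le
      · have := (abs_le.1 h2).1
        nlinarith [Real.pi_pos]
      · have := (abs_le.1 h2).2
        nlinarith [Real.pi_pos]
    linarith
  have h0 := u1_nonneg a
  have h4 : Real.exp (-u1 a) ≤ 1 / (1 + u1 a) := by
    rw [Real.exp_neg, one_div]
    refine inv_anti₀ (by linarith) ?_
    linarith [Real.add_one_le_exp (u1 a)]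
  refine h4.trans ?_
  rw [div_le_iff₀ (by linarith)]
  nlinarith

theorem le_nh {m : ℕ} (η : Fin m → (AddChar Γ ℂ →+ UnitAddCircle)) (H : AddSubgroup Γ)
    (γ : AddChar Γ ℂ) (h : ∀ i, ‖η i γ‖ ≤ 1 / 4) (hH : ∀ x ∈ H, γ x = 1) :
    Real.exp (-en η γ) ≤ nh η H γ := by
  rw [nh, if_pos hH, mul_one, en, ← Finset.sum_neg_distrib, Real.exp_sum]
  exact Finset.prod_le_prod (fun _ _ => (Real.exp_pos _).le) fun j _ => le_one_sub_half (h j)

/-- square of the Fourier transform of `A` -/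
noncomputable def gA (A : Finset Γ) (γ : AddChar Γ ℂ) : ℝ := ‖∑ a ∈ A, γ a‖ ^ 2

omit [Fintype Γ] in
theorem gA_eq [Finite Γ] (A : Finset Γ) (γ : AddChar Γ ℂ) :
    (gA A γ : ℂ) = ∑ p ∈ A ×ˢ A, γ (p.1 - p.2) := by
  rw [gA]
  push_cast
  rw [← Complex.mul_conj', map_sum, Finset.sum_product, Finset.sum_mul]
  refine Finset.sum_congr rfl fun a _ => ?_
  rw [Finset.mul_sum]
  refine Finset.sum_congr rfl fun b _ => ?_
  rw [sub_eq_add_neg, AddChar.map_add_eq_mul, AddChar.map_neg_eq_conj]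

open Classical in
/-- the number of pairs with a given difference -/
theorem shift_le {Ω : Type*} [Fintype Ω] (A : Finset Γ) (X : Ω → Γ) (γ₁ : AddChar Γ ℂ)
    (F : AddChar Γ ℂ → ℝ) (hF : ∀ γ, (F γ : ℂ) = ∑ ω, γ (X ω)) :
    ∑ γ, gA A γ * F (γ - γ₁) ≤
      Fintype.card Γ * ∑ ω, (((A ×ˢ A).filter fun p => p.2 - p.1 = X ω).card : ℝ) := by
  have h1 : ((∑ γ, gA A γ * F (γ - γ₁) : ℝ) : ℂ) =
      ∑ ω, ∑ p ∈ A ×ˢ A, γ₁ (-X ω) * (if p.2 - p.1 = X ω then (Fintype.card Γ : ℂ) else 0) := by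
    push_cast
    calc ∑ γ, (gA A γ : ℂ) * (F (γ - γ₁) : ℂ)
        = ∑ γ : AddChar Γ ℂ, ∑ ω, ∑ p ∈ A ×ˢ A, γ₁ (-X ω) * γ (p.1 - p.2 + X ω) := by
          refine Finset.sum_congr rfl fun γ _ => ?_
          rw [gA_eq, hF, Finset.mul_sum]
          refine Finset.sum_congr rfl fun ω _ => ?_
          rw [Finset.sum_mul]
          refine Finset.sum_congr rfl fun p _ => ?_
          rw [AddChar.map_add_eq_mul, AddChar.sub_apply', AddChar.map_neg_eq_inv]
          ring
      _ = ∑ ω, ∑ γ : AddChar Γ ℂ, ∑ p ∈ A ×ˢ A, γ₁ (-X ω) * γ (p.1 - p.2 + X ω) :=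
          Finset.sum_comm
      _ = ∑ ω, ∑ p ∈ A ×ˢ A, ∑ γ : AddChar Γ ℂ, γ₁ (-X ω) * γ (p.1 - p.2 + X ω) :=
          Finset.sum_congr rfl fun ω _ => Finset.sum_comm
      _ = _ := by
          refine Finset.sum_congr rfl fun ω _ => Finset.sum_congr rfl fun p _ => ?_
          rw [← Finset.mul_sum, AddChar.sum_apply_eq_ite]
          congr 1
          have h2 : (p.1 - p.2 + X ω = 0) ↔ (p.2 - p.1 = X ω) := by
            constructor
            · intro h
              rw [← sub_eq_zero, ← neg_eq_zero]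
              rw [← h]
              abel
            · intro h
              rw [← h]
              abel
          by_cases h3 : p.2 - p.1 = X ω
          · rw [if_pos h3, if_pos (h2.2 h3)]
          · rw [if_neg h3, if_neg (fun h => h3 (h2.1 h))]
  have h2 : ‖((∑ γ, gA A γ * F (γ - γ₁) : ℝ) : ℂ)‖ ≤
      ∑ ω, ∑ p ∈ A ×ˢ A, (if p.2 - p.1 = X ω then (Fintype.card Γ : ℝ) else 0) := by
    rw [h1]
    refine (norm_sum_le _ _).trans (Finset.sum_le_sum fun ω _ => ?_)
    refine (norm_sum_le _ _).trans (Finset.sum_le_sum fun p _ => ?_)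
    rw [norm_mul, AddChar.norm_apply, one_mul]
    split_ifs
    · simp
    · simp
  rw [Complex.norm_real] at h2
  refine (le_abs_self _).trans (h2.trans (le_of_eq ?_))
  rw [Finset.mul_sum]
  refine Finset.sum_congr rfl fun ω _ => ?_
  rw [← Finset.sum_filter, Finset.sum_const, nsmul_eq_mul, mul_comm]

open Classical in
/-- upper bound for a law through its Fourier transform -/
theorem atom_le {Ω : Type*} [Fintype Ω] (X : Ω → Γ)
    (F : AddChar Γ ℂ → ℝ) (hF : ∀ γ, (F γ : ℂ) = ∑ ω, γ (X ω)) (hF0 : ∀ γ, 0 ≤ F γ) (z : Γ) :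
    ((Finset.univ.filter fun ω => X ω = z).card : ℝ) * Fintype.card Γ ≤ ∑ γ, F γ := by
  have h1 : (((Finset.univ.filter fun ω => X ω = z).card : ℝ) * Fintype.card Γ : ℂ) =
      ∑ γ : AddChar Γ ℂ, γ (-z) * (F γ : ℂ) := by
    calc (((Finset.univ.filter fun ω => X ω = z).card : ℝ) * Fintype.card Γ : ℂ)
        = ∑ ω, (if X ω - z = 0 then (Fintype.card Γ : ℂ) else 0) := by
          rw [← Finset.sum_filter, Finset.sum_const, nsmul_eq_mul]
          push_cast
          congr 3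
          refine Finset.filter_congr fun ω _ => ?_
          rw [sub_eq_zero]
      _ = ∑ ω, ∑ γ : AddChar Γ ℂ, γ (X ω - z) := by
          refine Finset.sum_congr rfl fun ω _ => ?_
          rw [AddChar.sum_apply_eq_ite]
      _ = ∑ γ : AddChar Γ ℂ, ∑ ω, γ (X ω - z) := Finset.sum_comm
      _ = _ := by
          refine Finset.sum_congr rfl fun γ _ => ?_
          rw [hF, Finset.mul_sum]
          refine Finset.sum_congr rfl fun ω _ => ?_
          rw [sub_eq_add_neg, AddChar.map_add_eq_mul, mul_comm]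
  have h2 : ‖(((Finset.univ.filter fun ω => X ω = z).card : ℝ) * Fintype.card Γ : ℂ)‖ ≤
      ∑ γ, F γ := by
    rw [h1]
    refine (norm_sum_le _ _).trans (Finset.sum_le_sum fun γ _ => ?_)
    rw [norm_mul, AddChar.norm_apply, one_mul, Complex.norm_real, Real.norm_of_nonneg (hF0 γ)]
  refine le_trans (le_of_eq ?_) h2
  rw [norm_mul]
  simp

open Classical in
/-- **Physical side.** -/
theorem phys {m : ℕ} {η : Fin m → (AddChar Γ ℂ →+ UnitAddCircle)} {y : Fin m → Γ}
    (hy : IsEv η y) (U : Submodule ℝ (EuclideanSpace ℝ (Fin m))) (A : Finset Γ)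
    (γ₁ : AddChar Γ ℂ) {t : ℝ} (ht : 0 ≤ t) :
    ∑ γ, gA A γ * nh η ((pe U).ker.map (phi y)) (γ - γ₁) ≤
      (((A ×ˢ A).filter fun p => ∃ n, p.2 - p.1 = phi y n ∧ ‖pe U n‖ ≤ 2 * t).card : ℝ) *
        ∑ γ, Real.exp (-en η γ / 2) +
      Fintype.card Γ * (A.card * (5 ^ Module.finrank ℝ U * Real.exp (-t ^ 2 / 2))) := by
  obtain ⟨H, hH⟩ : ∃ H : AddSubgroup Γ, H = (pe U).ker.map (phi y) := ⟨_, rfl⟩
  rw [← hH]
  have hHm : ∀ h ∈ H, ∃ n, h = phi y n ∧ pe U n = 0 := by
    intro h hh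
    rw [hH] at hh
    obtain ⟨n, hn, rfl⟩ := AddSubgroup.mem_map.1 hh
    exact ⟨n, rfl, AddMonoidHom.mem_ker.1 hn⟩
  let Ω := (Fin m → Bool × Bool) × H
  let X : Ω → Γ := fun ω => phi y (ns ω.1) + ω.2
  obtain ⟨NN, hNN⟩ : ∃ NN : ℝ, NN = 4 ^ m * Nat.card H := ⟨_, rfl⟩
  have hHc : (0 : ℝ) < Nat.card H := by
    exact_mod_cast Nat.card_pos
  have hNNp : 0 < NN := by
    rw [hNN]
    positivity
  let F : AddChar Γ ℂ → ℝ := fun γ => NN * nh η H γ
  have hF : ∀ γ, (F γ : ℂ) = ∑ ω, γ (X ω) := by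
    intro γ
    rw [four_law hy H γ, ← hNN]
  have hF0 : ∀ γ, 0 ≤ F γ := fun γ => mul_nonneg hNNp.le (nh_nonneg _ _ _)
  have h1 := shift_le A X γ₁ F hF
  obtain ⟨PP, hPP⟩ : ∃ PP : Finset (Γ × Γ), PP = (A ×ˢ A).filter fun p =>
    ∃ n, p.2 - p.1 = phi y n ∧ ‖pe U n‖ ≤ 2 * t := ⟨_, rfl⟩
  rw [← hPP]
  obtain ⟨Z, hZ⟩ : ∃ Z : ℝ, Z = ∑ γ, Real.exp (-en η γ / 2) := ⟨_, rfl⟩
  rw [← hZ]
  have hat : ∀ z, ((Finset.univ.filter fun ω => X ω = z).card : ℝ) * Fintype.card Γ ≤ NN * Z := by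
    intro z
    refine (atom_le X F hF hF0 z).trans ?_
    rw [hZ, Finset.mul_sum]
    exact Finset.sum_le_sum fun γ _ => mul_le_mul_of_nonneg_left (nh_le _ _ _) hNNp.le
  -- split
  obtain ⟨Bd, hBd⟩ : ∃ Bd : Finset Ω, Bd = Finset.univ.filter fun ω => 2 * t < ‖pe U (ns ω.1)‖ :=
    ⟨_, rfl⟩
  have hBdc : (Bd.card : ℝ) ≤ NN * (5 ^ Module.finrank ℝ U * Real.exp (-t ^ 2 / 2)) := by
    have h2 : Bd = (Finset.univ.filter fun s : Fin m → Bool × Bool => 2 * t < ‖pe U (ns s)‖) ×ˢ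
        (Finset.univ : Finset H) := by
      rw [hBd]
      ext ω
      simp [Ω]
    rw [h2, Finset.card_product, Finset.card_univ, ← Nat.card_eq_fintype_card]
    push_cast
    calc _ ≤ (4 ^ m * (5 ^ Module.finrank ℝ U * Real.exp (-t ^ 2 / 2))) * (Nat.card H : ℝ) :=
          mul_le_mul_of_nonneg_right (tail U ht) hHc.le
      _ = _ := by
          rw [hNN]
          ring
  have hsmall : ∀ x : Γ, (((A ×ˢ A).filter fun p => p.2 - p.1 = x).card : ℝ) ≤ A.card := by
    intro x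
    have : ((A ×ˢ A).filter fun p => p.2 - p.1 = x).card ≤ A.card := by
      refine Finset.card_le_card_of_injOn Prod.fst (fun p hp => ?_) ?_
      · exact (Finset.mem_product.1 (Finset.mem_filter.1 hp).1).1
      · intro p hp q hq hpq
        have h3 := (Finset.mem_filter.1 hp).2
        have h4 := (Finset.mem_filter.1 hq).2
        have h5 : p.2 = q.2 := by
          rw [← h4, ← hpq] at h3
          exact sub_left_injective h3
        exact Prod.ext hpq h5
    exact_mod_cast this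
  have hbad : ∑ ω ∈ Bd, (((A ×ˢ A).filter fun p => p.2 - p.1 = X ω).card : ℝ) ≤
      NN * (5 ^ Module.finrank ℝ U * Real.exp (-t ^ 2 / 2)) * A.card := by
    calc _ ≤ ∑ ω ∈ Bd, (A.card : ℝ) := Finset.sum_le_sum fun ω _ => hsmall _
      _ = Bd.card * A.card := by rw [Finset.sum_const, nsmul_eq_mul]
      _ ≤ _ := mul_le_mul_of_nonneg_right hBdc (Nat.cast_nonneg _)
  have hgood : (Fintype.card Γ : ℝ) *
      ∑ ω ∈ Bdᶜ, (((A ×ˢ A).filter fun p => p.2 - p.1 = X ω).card : ℝ) ≤ PP.card * (NN * Z) := by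
    have h2 : ∑ ω ∈ Bdᶜ, (((A ×ˢ A).filter fun p => p.2 - p.1 = X ω).card : ℝ) ≤
        ∑ p ∈ PP, ((Finset.univ.filter fun ω => X ω = p.2 - p.1).card : ℝ) := by
      calc ∑ ω ∈ Bdᶜ, (((A ×ˢ A).filter fun p => p.2 - p.1 = X ω).card : ℝ)
          = ∑ ω ∈ Bdᶜ, ∑ p ∈ A ×ˢ A, (if p.2 - p.1 = X ω then (1 : ℝ) else 0) := by
            refine Finset.sum_congr rfl fun ω _ => ?_
            rw [← Finset.sum_filter, Finset.sum_const, nsmul_eq_mul, mul_one]
        _ = ∑ p ∈ A ×ˢ A, ∑ ω ∈ Bdᶜ, (if p.2 - p.1 = X ω then (1 : ℝ) else 0) :=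
            Finset.sum_comm
        _ = ∑ p ∈ PP, ∑ ω ∈ Bdᶜ, (if p.2 - p.1 = X ω then (1 : ℝ) else 0) := by
            symm
            refine Finset.sum_subset (by
              rw [hPP]
              exact Finset.filter_subset _ _) fun p hp hp2 => ?_
            refine Finset.sum_eq_zero fun ω hω => ?_
            rw [if_neg]
            intro h3
            apply hp2
            rw [hPP]
            refine Finset.mem_filter.2 ⟨hp, ?_⟩
            rw [Finset.mem_compl, hBd, Finset.mem_filter] at hω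
            push Not at hω
            obtain ⟨n, hn1, hn2⟩ := hHm ω.2 ω.2.2
            refine ⟨ns ω.1 + n, ?_, ?_⟩
            · rw [h3, map_add, ← hn1]
            · rw [map_add, hn2, add_zero]
              exact hω (Finset.mem_univ _)
        _ ≤ _ := by
            refine Finset.sum_le_sum fun p _ => ?_
            calc ∑ ω ∈ Bdᶜ, (if p.2 - p.1 = X ω then (1 : ℝ) else 0)
                ≤ ∑ ω, (if p.2 - p.1 = X ω then (1 : ℝ) else 0) :=
                  Finset.sum_le_sum_of_subset_of_nonneg (Finset.subset_univ _) fun _ _ _ => by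
                    split_ifs <;> norm_num
              _ = ((Finset.univ.filter fun ω => X ω = p.2 - p.1).card : ℝ) := by
                  rw [← Finset.sum_filter, Finset.sum_const, nsmul_eq_mul, mul_one]
                  congr 2
                  exact Finset.filter_congr fun ω _ => eq_comm
    calc _ ≤ (Fintype.card Γ : ℝ) *
          ∑ p ∈ PP, ((Finset.univ.filter fun ω => X ω = p.2 - p.1).card : ℝ) :=
          mul_le_mul_of_nonneg_left h2 (Nat.cast_nonneg _)
      _ = ∑ p ∈ PP, ((Finset.univ.filter fun ω => X ω = p.2 - p.1).card : ℝ) *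
          Fintype.card Γ := by
          rw [Finset.mul_sum]
          exact Finset.sum_congr rfl fun p _ => mul_comm _ _
      _ ≤ ∑ p ∈ PP, NN * Z := Finset.sum_le_sum fun p _ => hat _
      _ = _ := by rw [Finset.sum_const, nsmul_eq_mul]
  have h3 : NN * ∑ γ, gA A γ * nh η H (γ - γ₁) ≤
      NN * (PP.card * Z + Fintype.card Γ * (A.card * (5 ^ Module.finrank ℝ U *
        Real.exp (-t ^ 2 / 2)))) := by
    calc NN * ∑ γ, gA A γ * nh η H (γ - γ₁) = ∑ γ, gA A γ * F (γ - γ₁) := by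
          rw [Finset.mul_sum]
          exact Finset.sum_congr rfl fun γ _ => by
            simp only [F]
            ring
      _ ≤ _ := h1
      _ = Fintype.card Γ * ∑ ω ∈ Bd, (((A ×ˢ A).filter fun p => p.2 - p.1 = X ω).card : ℝ) +
          Fintype.card Γ * ∑ ω ∈ Bdᶜ, (((A ×ˢ A).filter fun p => p.2 - p.1 = X ω).card : ℝ) := by
          rw [← mul_add, Finset.sum_add_sum_compl]
      _ ≤ Fintype.card Γ * (NN * (5 ^ Module.finrank ℝ U * Real.exp (-t ^ 2 / 2)) * A.card) +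
          PP.card * (NN * Z) :=
          add_le_add (mul_le_mul_of_nonneg_left hbad (Nat.cast_nonneg _)) hgood
      _ = _ := by ring
  exact le_of_mul_le_mul_left h3 hNNp

end H24.LW
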