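import Pool.Agent.H24.LW.Gauss
import Pool.Agent.H24.ID.Levy
import Pool.Agent.H24.ID.Lift
set_option autoImplicit false

/-! Points, the dual lattice and the number of elements of the dual progression. -/

namespace H24.LW

open Finset H460
open H24.ID

variable {Γ : Type*} [AddCommGroup Γ] [Fintype Γ]

/-- every circle valued homomorphism of the dual is an evaluation -/
theorem exists_point (η : AddChar Γ ℂ →+ UnitAddCircle) :
    ∃ y : Γ, ∀ γ : AddChar Γ ℂ, (AddCircle.toCircle (η γ) : ℂ) = γ y := by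
  obtain ⟨y, hy⟩ := (AddChar.doubleDualEmb_bijective (α := Γ)).surjective (toAC η)
  refine ⟨y, fun γ => ?_⟩
  have h1 : toAC η γ = AddChar.doubleDualEmb y γ := by rw [hy]
  exact h1

/-- `φ(n) = ∑ n_j y_j` -/
def phi {m : ℕ} (y : Fin m → Γ) : (Fin m → ℤ) →+ Γ :=
  AddMonoidHom.mk' (fun n => ∑ j, n j • y j) (fun c d => by
    simp [add_smul, Finset.sum_add_distrib])

omit [Fintype Γ] in
theorem phi_apply {m : ℕ} (y : Fin m → Γ) (n : Fin m → ℤ) : phi y n = ∑ j, n j • y j := rfl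

/-- `η` is evaluation at the points `y` -/
def IsEv {m : ℕ} (η : Fin m → (AddChar Γ ℂ →+ UnitAddCircle)) (y : Fin m → Γ) : Prop :=
  ∀ j (γ : AddChar Γ ℂ), (AddCircle.toCircle (η j γ) : ℂ) = γ (y j)

theorem toCircle_sum {ι : Type*} (s : Finset ι) (f : ι → UnitAddCircle) :
    AddCircle.toCircle (∑ i ∈ s, f i) = ∏ i ∈ s, AddCircle.toCircle (f i) := by
  classical
  induction s using Finset.induction_on with
  | empty => simp
  | insert a s ha ih => rw [Finset.sum_insert ha, Finset.prod_insert ha, AddCircle.toCircle_add, ih]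

omit [Fintype Γ] in
theorem gamma_phi [Finite Γ] {m : ℕ} {η : Fin m → (AddChar Γ ℂ →+ UnitAddCircle)} {y : Fin m → Γ}
    (hy : IsEv η y) (γ : AddChar Γ ℂ) (ρ : Fin m → ℝ)
    (hρ : ∀ j, (ρ j : UnitAddCircle) = η j γ) (n : Fin m → ℤ) :
    γ (phi y n) = (AddCircle.toCircle ((∑ j, ρ j * n j : ℝ) : UnitAddCircle) : ℂ) := by
  have h1 : ((∑ j, ρ j * n j : ℝ) : UnitAddCircle) = ∑ j, n j • η j γ := by
    have h2 : ∀ t : Fin m → ℝ, ((∑ j, t j : ℝ) : UnitAddCircle) =
        ∑ j, ((t j : ℝ) : UnitAddCircle) :=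
      fun t => map_sum (QuotientAddGroup.mk' (AddSubgroup.zmultiples (1 : ℝ))) t Finset.univ
    rw [h2]
    refine Finset.sum_congr rfl fun j _ => ?_
    rw [← hρ, ← AddCircle.coe_zsmul, zsmul_eq_mul, mul_comm]
  rw [h1, toCircle_sum, phi_apply]
  have h3 : γ (∑ j, n j • y j) = ∏ j, γ (n j • y j) := addChar_map_sum γ _ _
  have h4 : ((∏ j, AddCircle.toCircle (n j • η j γ) : Circle) : ℂ) =
      ∏ j, (AddCircle.toCircle (n j • η j γ) : ℂ) := map_prod Circle.coeHom _ _
  rw [h3, h4]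
  refine Finset.prod_congr rfl fun j _ => ?_
  rw [AddCircle.toCircle_zsmul, AddChar.map_zsmul_eq_zpow, Circle.coe_zpow, hy]

theorem re_coe (t : ℝ) : ((AddCircle.toCircle (t : UnitAddCircle) : Circle) : ℂ).re =
    Real.cos (2 * Real.pi * t) := by
  have := u1_coe t
  rw [u1] at this
  linarith

/-- the lattice of lifts, in Euclidean space -/
def Lam {m : ℕ} (η : Fin m → (AddChar Γ ℂ →+ UnitAddCircle)) :
    AddSubgroup (EuclideanSpace ℝ (Fin m)) where
  carrier := {r | ∃ γ : AddChar Γ ℂ, ∀ i, (r i : UnitAddCircle) = η i γ}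
  zero_mem' := ⟨0, fun i => by simp⟩
  add_mem' := by
    rintro a b ⟨x, hx⟩ ⟨y, hy⟩
    refine ⟨x + y, fun i => ?_⟩
    rw [map_add, ← hx, ← hy, PiLp.add_apply, AddCircle.coe_add]
  neg_mem' := by
    rintro a ⟨x, hx⟩
    refine ⟨-x, fun i => ?_⟩
    rw [map_neg, ← hx, PiLp.neg_apply, AddCircle.coe_neg]

omit [Fintype Γ] in
theorem mem_Lam {m : ℕ} {η : Fin m → (AddChar Γ ℂ →+ UnitAddCircle)}
    {r : EuclideanSpace ℝ (Fin m)} :
    r ∈ Lam η ↔ ∃ γ : AddChar Γ ℂ, ∀ i, (r i : UnitAddCircle) = η i γ := Iff.rfl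

theorem coord_le {ι : Type*} [Fintype ι] (v : EuclideanSpace ℝ ι) (i : ι) : |v i| ≤ ‖v‖ := by
  have := PiLp.norm_apply_le v i
  rwa [Real.norm_eq_abs] at this

theorem coe_eq_zero_iff' (s : ℝ) : (s : UnitAddCircle) = 0 ↔ ∃ n : ℤ, s = n := by
  rw [AddCircle.coe_eq_zero_iff]
  constructor
  · rintro ⟨n, hn⟩
    exact ⟨n, by simpa using hn.symm⟩
  · rintro ⟨n, hn⟩
    exact ⟨n, by simpa using hn.symm⟩

theorem Lam_disc {m : ℕ} (η : Fin m → (AddChar Γ ℂ →+ UnitAddCircle)) : Disc (Lam η) := by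
  classical
  obtain ⟨N, hN⟩ : ∃ N : ℕ, N = Fintype.card (AddChar Γ ℂ) := ⟨_, rfl⟩
  have hNp : (0 : ℝ) < N := by
    rw [hN]
    exact_mod_cast Fintype.card_pos_iff.2 ⟨0⟩
  intro R
  have hfin : (Set.pi Set.univ (fun _ : Fin m => Set.Icc (-⌈N * R⌉) ⌈N * R⌉)).Finite :=
    Set.Finite.pi fun _ => Set.finite_Icc _ _
  refine (hfin.image fun k => (WithLp.toLp 2 fun i => (k i : ℝ) / N :
    EuclideanSpace ℝ (Fin m))).subset ?_
  rintro r ⟨hr, hR⟩
  obtain ⟨γ, hγ⟩ := mem_Lam.1 hr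
  have h1 : ∀ i, ∃ k : ℤ, (N : ℝ) * r i = k := by
    intro i
    rw [← coe_eq_zero_iff']
    have h3 : (((N : ℝ) * r i : ℝ) : UnitAddCircle) = N • (r i : UnitAddCircle) := by
      rw [← AddCircle.coe_nsmul, nsmul_eq_mul]
    rw [h3, hγ, ← map_nsmul, hN, card_nsmul_eq_zero, map_zero]
  choose k hk using h1
  refine ⟨k, ?_, ?_⟩
  · intro i _
    have h2 : |(k i : ℝ)| ≤ N * R := by
      rw [← hk, abs_mul, abs_of_pos hNp]
      exact mul_le_mul_of_nonneg_left ((coord_le r i).trans hR) hNp.le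
    rw [abs_le] at h2
    constructor
    · have h3 : (-⌈(N : ℝ) * R⌉ : ℝ) ≤ k i := by
        have := Int.le_ceil ((N : ℝ) * R)
        linarith
      exact_mod_cast h3
    · have h3 : (k i : ℝ) ≤ ⌈(N : ℝ) * R⌉ := h2.2.trans (Int.le_ceil _)
      exact_mod_cast h3
  · ext i
    change (k i : ℝ) / N = r i
    rw [← hk]
    field_simp

/-- integer vectors -/
def IsInt {m : ℕ} (r : EuclideanSpace ℝ (Fin m)) : Prop := ∀ i, ∃ n : ℤ, r i = n

/-- the elements of the dual that vanish at all points -/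
theorem card_ker_mul {m : ℕ} {η : Fin m → (AddChar Γ ℂ →+ UnitAddCircle)} {y : Fin m → Γ}
    (hy : IsEv η y) :
    Nat.card (⨅ i, (η i).ker : AddSubgroup (AddChar Γ ℂ)) * Nat.card (phi y).range ≤
      Nat.card Γ := by
  classical
  obtain ⟨H, hH⟩ : ∃ H : AddSubgroup (AddChar Γ ℂ), H = ⨅ i, (η i).ker := ⟨_, rfl⟩
  rw [← hH]
  have hmem : ∀ γ ∈ H, ∀ x ∈ (phi y).range, γ x = 1 := by
    intro γ hγ x hx
    rw [hH, AddSubgroup.mem_iInf] at hγ
    obtain ⟨n, rfl⟩ := AddMonoidHom.mem_range.1 hx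
    rw [phi_apply, addChar_map_sum]
    refine Finset.prod_eq_one fun j _ => ?_
    have h1 := hγ j
    rw [AddMonoidHom.mem_ker] at h1
    rw [AddChar.map_zsmul_eq_zpow, ← hy, h1, AddCircle.toCircle_zero, Circle.coe_one, one_zpow]
  -- embed `H` in the dual of the quotient
  let F : H → AddChar (Γ ⧸ (phi y).range) ℂ := fun γ =>
    { toFun := fun q => Quotient.liftOn' q (fun x => γ.1 x) (by
        intro a b hab
        have h1 : -a + b ∈ (phi y).range := QuotientAddGroup.leftRel_apply.1 hab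
        have h2 := hmem γ.1 γ.2 _ h1
        rw [AddChar.map_add_eq_mul, AddChar.map_neg_eq_inv] at h2
        have h3 : γ.1 a ≠ 0 := by
          have := AddChar.norm_apply γ.1 a
          intro h
          rw [h, norm_zero] at this
          exact zero_ne_one this
        field_simp at h2
        exact h2.symm)
      map_zero_eq_one' := by
        exact AddChar.map_zero_eq_one γ.1
      map_add_eq_mul' := by
        intro a b
        induction a using QuotientAddGroup.induction_on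
        induction b using QuotientAddGroup.induction_on
        exact AddChar.map_add_eq_mul γ.1 _ _ }
  have hF : Function.Injective F := by
    intro a b hab
    apply Subtype.ext
    ext x
    have := congrArg (fun ψ : AddChar (Γ ⧸ (phi y).range) ℂ => ψ (QuotientAddGroup.mk x)) hab
    exact this
  have hfinq : Finite (Γ ⧸ (phi y).range) := inferInstance
  have : Fintype (Γ ⧸ (phi y).range) := Fintype.ofFinite _
  have h1 : Nat.card H ≤ Nat.card (AddChar (Γ ⧸ (phi y).range) ℂ) :=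
    Nat.card_le_card_of_injective F hF
  have h2 : Nat.card (AddChar (Γ ⧸ (phi y).range) ℂ) = Nat.card (Γ ⧸ (phi y).range) := by
    rw [Nat.card_eq_fintype_card, Nat.card_eq_fintype_card, AddChar.card_eq]
  rw [h2] at h1
  have h3 := AddSubgroup.card_eq_card_quotient_mul_card_addSubgroup (phi y).range
  rw [h3]
  exact Nat.mul_le_mul_right _ h1

end H24.LW
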