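import Pool.Agent.H24.LW.Phys
import Pool.Agent.H24.ID.Levy
set_option autoImplicit false

/-! Symmetric convolution semigroups on a finite abelian group. -/

namespace H24.LW

open Finset Filter
open scoped Topology
open H24.ID

theorem lin_of_add (g : ℝ → ℝ) (hadd : ∀ s t, 0 < s → 0 < t → g (s + t) = g s + g t)
    (hnn : ∀ t, 0 < t → 0 ≤ g t) (t : ℝ) (ht : 0 < t) : g t = t * g 1 := by
  have hmul : ∀ (n : ℕ) (s : ℝ), 0 < s → g ((n + 1 : ℕ) * s) = (n + 1 : ℕ) * g s := by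
    intro n s hs
    induction n with
    | zero => simp
    | succ n ih =>
      have h1 : (((n + 1 + 1 : ℕ) : ℝ)) * s = ((n + 1 : ℕ) : ℝ) * s + s := by
        push_cast
        ring
      rw [h1, hadd _ _ (by positivity) hs, ih]
      push_cast
      ring
  have hmono : ∀ s t, 0 < s → s ≤ t → g s ≤ g t := by
    intro s t hs hst
    rcases hst.eq_or_lt with h | h
    · rw [h]
    · have h1 := hadd s (t - s) hs (by linarith)
      rw [show s + (t - s) = t by ring] at h1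
      have := hnn (t - s) (by linarith)
      linarith
  have hg1 := hnn 1 one_pos
  have key : ∀ n : ℕ, |g t - t * g 1| * (n + 1 : ℕ) ≤ g 1 := by
    intro n
    have hn : (0 : ℝ) < ((n + 1 : ℕ) : ℝ) := by positivity
    have hnt : 0 < ((n + 1 : ℕ) : ℝ) * t := by positivity
    obtain ⟨k, hk⟩ : ∃ k : ℕ, k = ⌊((n + 1 : ℕ) : ℝ) * t⌋₊ := ⟨_, rfl⟩
    have h1 : (k : ℝ) ≤ ((n + 1 : ℕ) : ℝ) * t := by
      rw [hk]
      exact Nat.floor_le hnt.le
    have h2 : ((n + 1 : ℕ) : ℝ) * t < k + 1 := by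
      rw [hk]
      exact Nat.lt_floor_add_one _
    have h3 : g (((n + 1 : ℕ) : ℝ) * t) ≤ (k + 1) * g 1 := by
      have h4 := hmul k 1 one_pos
      rw [mul_one] at h4
      have h2' : ((n + 1 : ℕ) : ℝ) * t ≤ ((k + 1 : ℕ) : ℝ) := by
        rw [Nat.cast_add k 1, Nat.cast_one]
        exact h2.le
      have h5 := hmono _ ((k + 1 : ℕ) : ℝ) hnt h2'
      rw [h4, Nat.cast_add k 1, Nat.cast_one] at h5
      exact h5
    have h4 : (k : ℝ) * g 1 ≤ g (((n + 1 : ℕ) : ℝ) * t) := by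
      rcases Nat.eq_zero_or_pos k with h | h
      · rw [h]
        simpa using hnn _ hnt
      · obtain ⟨j, hj⟩ : ∃ j, k = j + 1 := ⟨k - 1, by omega⟩
        have h5 := hmul j 1 one_pos
        rw [mul_one, ← hj] at h5
        rw [← h5]
        exact hmono _ _ (by exact_mod_cast h) h1
    rw [hmul n t ht] at h3 h4
    rw [← abs_of_pos hn, ← abs_mul, abs_le]
    constructor <;> nlinarith
  by_contra hcon
  have hpos : 0 < |g t - t * g 1| := abs_pos.2 (sub_ne_zero.2 hcon)
  obtain ⟨n, hn⟩ := exists_nat_gt (g 1 / |g t - t * g 1|)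
  rw [div_lt_iff₀ hpos] at hn
  have := key n
  push_cast at this
  nlinarith

variable {Γ : Type*} [AddCommGroup Γ] [Fintype Γ]

/-- A symmetric convolution semigroup of probability measures. -/
structure Sg (p : ℝ → Γ → ℝ) : Prop where
  nonneg : ∀ t, 0 < t → ∀ x, 0 ≤ p t x
  total : ∀ t, 0 < t → ∑ x, p t x = 1
  symm : ∀ t, 0 < t → ∀ x, p t (-x) = p t x
  conv : ∀ s t, 0 < s → 0 < t → ∀ x, p (s + t) x = ∑ z, p s z * p t (x - z)
  cont : Tendsto (fun t => p t 0) (𝓝[>] 0) (𝓝 1)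

/-- Fourier transform of a function on the group -/
noncomputable def ft (μ : Γ → ℝ) (γ : AddChar Γ ℂ) : ℝ := ∑ x, μ x * (γ x).re

theorem ft_coe (μ : Γ → ℝ) (hs : ∀ x, μ (-x) = μ x) (γ : AddChar Γ ℂ) :
    (ft μ γ : ℂ) = ∑ x, (μ x : ℂ) * γ x := by
  have h1 : ∑ x, μ x * (γ x).im = 0 := by
    have h2 : ∑ x, μ x * (γ x).im = ∑ x, μ (-x) * (γ (-x)).im :=
      (Equiv.sum_comp (Equiv.neg Γ) (fun x => μ x * (γ x).im)).symm
    have h3 : ∑ x, μ (-x) * (γ (-x)).im = -∑ x, μ x * (γ x).im := by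
      rw [← Finset.sum_neg_distrib]
      refine Finset.sum_congr rfl fun x _ => ?_
      rw [hs, AddChar.map_neg_eq_conj, Complex.conj_im, mul_neg]
    linarith
  apply Complex.ext
  · rw [Complex.ofReal_re, Complex.re_sum, ft]
    refine Finset.sum_congr rfl fun x _ => ?_
    rw [Complex.mul_re, Complex.ofReal_re, Complex.ofReal_im, zero_mul, sub_zero]
  · rw [Complex.ofReal_im, Complex.im_sum, ← h1]
    refine Finset.sum_congr rfl fun x _ => ?_
    rw [Complex.mul_im, Complex.ofReal_re, Complex.ofReal_im, zero_mul, add_zero]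

theorem ft_le (μ : Γ → ℝ) (h0 : ∀ x, 0 ≤ μ x) (γ : AddChar Γ ℂ) : ft μ γ ≤ ∑ x, μ x := by
  rw [ft]
  refine Finset.sum_le_sum fun x _ => mul_le_of_le_one_right (h0 x) ?_
  refine (Complex.re_le_norm _).trans ?_
  rw [AddChar.norm_apply]

theorem ft_zero (μ : Γ → ℝ) : ft μ 0 = ∑ x, μ x := by
  simp [ft]

theorem ft_neg (μ : Γ → ℝ) (hs : ∀ x, μ (-x) = μ x) (γ : AddChar Γ ℂ) :
    ft μ (-γ) = ft μ γ := by
  rw [ft, ft]
  calc ∑ x, μ x * ((-γ) x).re = ∑ x, μ (-x) * (γ (-x)).re := by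
        refine Finset.sum_congr rfl fun x _ => ?_
        rw [hs, AddChar.neg_apply]
    _ = _ := Equiv.sum_comp (Equiv.neg Γ) (fun x => μ x * (γ x).re)

/-- Fourier transforms of nonnegative functions are positive definite -/
theorem ft_pd (μ : Γ → ℝ) (h0 : ∀ x, 0 ≤ μ x) (c : AddChar Γ ℂ → ℝ) :
    0 ≤ ∑ γ, ∑ δ, c γ * c δ * ft μ (γ - δ) := by
  have h1 : ∑ γ, ∑ δ, c γ * c δ * ft μ (γ - δ) =
      ∑ x, μ x * ‖∑ γ, (c γ : ℂ) * γ x‖ ^ 2 := by
    have h2 : ∀ x, ‖∑ γ : AddChar Γ ℂ, (c γ : ℂ) * γ x‖ ^ 2 =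
        ∑ γ : AddChar Γ ℂ, ∑ δ : AddChar Γ ℂ, c γ * c δ * ((γ - δ) x).re := by
      intro x
      have h3 : ((‖∑ γ : AddChar Γ ℂ, (c γ : ℂ) * γ x‖ ^ 2 : ℝ) : ℂ) =
          ∑ γ : AddChar Γ ℂ, ∑ δ : AddChar Γ ℂ, ((c γ * c δ : ℝ) : ℂ) * (γ - δ) x := by
        push_cast
        rw [← Complex.mul_conj', map_sum, Finset.sum_mul]
        refine Finset.sum_congr rfl fun γ _ => ?_
        rw [Finset.mul_sum]
        refine Finset.sum_congr rfl fun δ _ => ?_
        rw [AddChar.sub_apply', div_eq_mul_inv, ← AddChar.map_neg_eq_inv,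
          AddChar.map_neg_eq_conj, map_mul, Complex.conj_ofReal]
        ring
      have h4 := congrArg Complex.re h3
      rw [Complex.ofReal_re] at h4
      rw [h4, Complex.re_sum]
      refine Finset.sum_congr rfl fun γ _ => ?_
      rw [Complex.re_sum]
      refine Finset.sum_congr rfl fun δ _ => ?_
      rw [Complex.mul_re, Complex.ofReal_re, Complex.ofReal_im, zero_mul, sub_zero]
    simp only [h2, ft, Finset.mul_sum]
    refine (Finset.sum_congr rfl fun γ _ => Finset.sum_comm).trans ?_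
    refine Finset.sum_comm.trans ?_
    refine Finset.sum_congr rfl fun x _ => Finset.sum_congr rfl fun γ _ =>
      Finset.sum_congr rfl fun δ _ => ?_
    ring
  rw [h1]
  exact Finset.sum_nonneg fun x _ => mul_nonneg (h0 x) (by positivity)

variable {p : ℝ → Γ → ℝ}

theorem Sg.ft_conv (h : Sg p) {s t : ℝ} (hs : 0 < s) (ht : 0 < t) (γ : AddChar Γ ℂ) :
    ft (p (s + t)) γ = ft (p s) γ * ft (p t) γ := by
  have h1 : ((ft (p (s + t)) γ : ℝ) : ℂ) = ((ft (p s) γ * ft (p t) γ : ℝ) : ℂ) := by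
    push_cast
    rw [ft_coe _ (h.symm _ (by linarith)), ft_coe _ (h.symm _ hs), ft_coe _ (h.symm _ ht)]
    calc ∑ x, ((p (s + t) x : ℝ) : ℂ) * γ x = ∑ x, ∑ z, (p s z : ℂ) * (p t (x - z) : ℂ) * γ x := by
          refine Finset.sum_congr rfl fun x _ => ?_
          rw [h.conv s t hs ht]
          push_cast
          rw [Finset.sum_mul]
      _ = ∑ z, ∑ x, (p s z : ℂ) * (p t (x - z) : ℂ) * γ x := Finset.sum_comm
      _ = ∑ z, (p s z : ℂ) * γ z * ∑ x, (p t x : ℂ) * γ x := by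
          refine Finset.sum_congr rfl fun z _ => ?_
          rw [Finset.mul_sum]
          rw [← Equiv.sum_comp (Equiv.addRight z)]
          refine Finset.sum_congr rfl fun x _ => ?_
          rw [Equiv.coe_addRight, add_sub_cancel_right, AddChar.map_add_eq_mul]
          ring
      _ = _ := by rw [Finset.sum_mul]
  exact_mod_cast h1

theorem Sg.ft_tendsto (h : Sg p) (γ : AddChar Γ ℂ) :
    Tendsto (fun t => ft (p t) γ) (𝓝[>] 0) (𝓝 1) := by
  have h1 : ∀ t, 0 < t → 1 - 2 * (1 - p t 0) ≤ ft (p t) γ := by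
    intro t ht
    classical
    have h2 : 1 - ft (p t) γ = ∑ x, p t x * (1 - (γ x).re) := by
      simp only [ft, mul_sub, mul_one, Finset.sum_sub_distrib]
      rw [h.total t ht]
    have h3 : ∑ x, p t x * (1 - (γ x).re) ≤ ∑ x ∈ Finset.univ.erase (0 : Γ), 2 * p t x := by
      rw [← Finset.add_sum_erase _ _ (Finset.mem_univ (0 : Γ)), AddChar.map_zero_eq_one,
        Complex.one_re, sub_self, mul_zero, zero_add]
      refine Finset.sum_le_sum fun x _ => ?_
      have h4 : -1 ≤ (γ x).re := by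
        have := Complex.abs_re_le_norm (γ x)
        rw [AddChar.norm_apply] at this
        exact (abs_le.1 this).1
      nlinarith [h.nonneg t ht x]
    have h4 : ∑ x ∈ Finset.univ.erase (0 : Γ), 2 * p t x = 2 * (1 - p t 0) := by
      rw [← Finset.mul_sum, ← h.total t ht, ← Finset.add_sum_erase _ _ (Finset.mem_univ (0 : Γ))]
      ring
    linarith
  have h2 : ∀ t, 0 < t → ft (p t) γ ≤ 1 := by
    intro t ht
    rw [← h.total t ht]
    exact ft_le _ (h.nonneg t ht) γ
  refine tendsto_of_tendsto_of_tendsto_of_le_of_le' (g := fun t => 1 - 2 * (1 - p t 0))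
    (h := fun _ => 1) ?_ tendsto_const_nhds ?_ ?_
  · have h3 : Tendsto (fun t => 1 - 2 * (1 - p t 0)) (𝓝[>] 0) (𝓝 (1 - 2 * (1 - 1))) :=
      ((h.cont.const_sub 1).const_mul 2).const_sub 1
    simpa using h3
  · filter_upwards [self_mem_nhdsWithin] with t ht
    exact h1 t ht
  · filter_upwards [self_mem_nhdsWithin] with t ht
    exact h2 t ht

theorem Sg.ft_pos (h : Sg p) {t : ℝ} (ht : 0 < t) (γ : AddChar Γ ℂ) : 0 < ft (p t) γ := by
  have hsq : ∀ s, 0 < s → ft (p s) γ = ft (p (s / 2)) γ ^ 2 := by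
    intro s hs
    have := h.ft_conv (s := s / 2) (t := s / 2) (by linarith) (by linarith) γ
    rw [add_halves] at this
    rw [this, sq]
  have hnn : 0 ≤ ft (p t) γ := by
    rw [hsq t ht]
    positivity
  rcases hnn.eq_or_lt with h0 | h0
  · exfalso
    have h1 : ∀ n : ℕ, ft (p (t / 2 ^ n)) γ = 0 := by
      intro n
      induction n with
      | zero => simpa using h0.symm
      | succ n ih =>
        rw [hsq _ (by positivity)] at ih
        have := pow_eq_zero_iff two_ne_zero |>.1 ih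
        rw [div_div, ← pow_succ] at this
        exact this
    have h2 : Tendsto (fun n : ℕ => t / 2 ^ n) atTop (𝓝[>] 0) := by
      refine tendsto_nhdsWithin_iff.2 ⟨?_, Eventually.of_forall fun n => ?_⟩
      · have := (tendsto_pow_atTop_nhds_zero_of_lt_one (r := (1 / 2 : ℝ)) (by norm_num)
          (by norm_num)).const_mul t
        rw [mul_zero] at this
        refine this.congr fun n => ?_
        rw [one_div, inv_pow]
        rfl
      · exact div_pos ht (by positivity)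
    have h3 := (h.ft_tendsto γ).comp h2
    have h4 : (fun t => ft (p t) γ) ∘ (fun n : ℕ => t / 2 ^ n) = fun _ => 0 := by
      funext n
      exact h1 n
    rw [h4] at h3
    exact zero_ne_one (tendsto_nhds_unique tendsto_const_nhds h3)
  · exact h0

theorem Sg.ft_rpow (h : Sg p) {t : ℝ} (ht : 0 < t) (γ : AddChar Γ ℂ) :
    ft (p 1) γ ^ t = ft (p t) γ := by
  have h1 := lin_of_add (fun s => -Real.log (ft (p s) γ)) (fun s t hs ht => by
    rw [h.ft_conv hs ht, Real.log_mul (h.ft_pos hs γ).ne' (h.ft_pos ht γ).ne', neg_add])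
    (fun s hs => by
      rw [neg_nonneg]
      refine Real.log_nonpos (h.ft_pos hs γ).le ?_
      rw [← h.total s hs]
      exact ft_le _ (h.nonneg s hs) γ) t ht
  have h2 : Real.log (ft (p t) γ) = t * Real.log (ft (p 1) γ) := by
    simp only [mul_neg, neg_inj] at h1
    exact h1
  rw [Real.rpow_def_of_pos (h.ft_pos one_pos γ), mul_comm, ← h2, Real.exp_log (h.ft_pos ht γ)]

/-- Lévy–Khintchine for the semigroup -/
theorem Sg.repr (h : Sg p) : ∃ (χ : AddChar (AddChar Γ ℂ) ℂ → (AddChar Γ ℂ →+ UnitAddCircle))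
    (w : AddChar (AddChar Γ ℂ) ℂ → ℝ), (∀ i, 0 ≤ w i) ∧
      ∀ γ, ∑ i, w i * u1 (χ i γ) = -Real.log (ft (p 1) γ) := by
  obtain ⟨w, hw, hlog⟩ := levy (Γ := AddChar Γ ℂ) (ft (p 1))
    (by rw [ft_zero, h.total 1 one_pos]) (fun γ => h.ft_pos one_pos γ)
    (fun γ => ft_neg _ (h.symm 1 one_pos) γ) (fun t ht c => by
      have := ft_pd (p t) (h.nonneg t ht) c
      refine this.trans (le_of_eq ?_)
      exact Finset.sum_congr rfl fun γ _ => Finset.sum_congr rfl fun δ _ => by
        rw [h.ft_rpow ht])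
  choose χ hχ using fun ψ : AddChar (AddChar Γ ℂ) ℂ => exists_toAC ψ
  refine ⟨χ, w, hw, fun γ => ?_⟩
  rw [hlog, neg_neg]
  refine Finset.sum_congr rfl fun ψ _ => ?_
  rw [u1_char, hχ]

end H24.LW
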