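import Pool.Agent.H24.LW.Cst
import Pool.Agent.H24.LW.Net
set_option autoImplicit false

/-! The physical law: moment generating function, tails and Fourier transform. -/

namespace H24.LW

open Finset H460
open H24.ID

/-- difference of two bits -/
def bd (b : Bool × Bool) : ℤ := (if b.1 then 1 else 0) - (if b.2 then 1 else 0)

/-- the random integer vector -/
def ns {m : ℕ} (s : Fin m → Bool × Bool) : Fin m → ℤ := fun j => bd (s j)

theorem sum_prod {R : Type*} [CommSemiring R] {m : ℕ} (g : Fin m → Bool × Bool → R) :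
    ∑ s : Fin m → Bool × Bool, ∏ j, g j (s j) = ∏ j, ∑ b, g j b := by
  rw [Finset.prod_univ_sum, Fintype.piFinset_univ]

theorem sum_bd {R : Type*} [AddCommMonoid R] (g : ℤ → R) :
    ∑ b : Bool × Bool, g (bd b) = g 0 + g 1 + (g (-1) + g 0) := by
  simp [Fintype.sum_prod_type, bd]

theorem mgf_one (a : ℝ) : ∑ b : Bool × Bool, Real.exp (a * bd b) ≤ 4 * Real.exp (a ^ 2 / 4) := by
  rw [sum_bd (fun k => Real.exp (a * (k : ℤ)))]
  have h1 := Real.cosh_le_exp_half_sq (a / 2)
  have h2 : Real.cosh (a / 2) ^ 2 ≤ Real.exp ((a / 2) ^ 2 / 2) ^ 2 :=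
    pow_le_pow_left₀ (Real.cosh_pos _).le h1 2
  rw [← Real.exp_nat_mul] at h2
  have h3 := Real.cosh_two_mul (a / 2)
  rw [Real.sinh_sq, show 2 * (a / 2) = a by ring, Real.cosh_eq] at h3
  push_cast at h2 ⊢
  rw [show (2 : ℝ) * ((a / 2) ^ 2 / 2) = a ^ 2 / 4 by ring] at h2
  simp only [mul_zero, Real.exp_zero, mul_one, mul_neg]
  linarith

theorem mgf {m : ℕ} (a : Fin m → ℝ) : ∑ s : Fin m → Bool × Bool, Real.exp (∑ j, a j * ns s j) ≤
    4 ^ m * Real.exp ((∑ j, a j ^ 2) / 4) := by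
  calc ∑ s : Fin m → Bool × Bool, Real.exp (∑ j, a j * ns s j)
      = ∑ s : Fin m → Bool × Bool, ∏ j, Real.exp (a j * bd (s j)) :=
        Finset.sum_congr rfl fun s _ => Real.exp_sum _ _
    _ = ∏ j, ∑ b, Real.exp (a j * bd b) := sum_prod (fun j b => Real.exp (a j * bd b))
    _ ≤ ∏ j, (4 * Real.exp (a j ^ 2 / 4)) :=
        Finset.prod_le_prod (fun _ _ => Finset.sum_nonneg fun _ _ => (Real.exp_pos _).le)
          fun j _ => mgf_one _
    _ = 4 ^ m * Real.exp ((∑ j, a j ^ 2) / 4) := by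
        rw [Finset.prod_mul_distrib, Finset.prod_const, Finset.card_univ, Fintype.card_fin,
          ← Real.exp_sum, Finset.sum_div]

open Classical in
theorem tail {m : ℕ} (U : Submodule ℝ (EuclideanSpace ℝ (Fin m))) {t : ℝ} (ht : 0 ≤ t) :
    ((Finset.univ.filter fun s : Fin m → Bool × Bool => 2 * t < ‖pe U (ns s)‖).card : ℝ) ≤
      4 ^ m * (5 ^ Module.finrank ℝ U * Real.exp (-t ^ 2 / 2)) := by
  obtain ⟨N, hN1, hN2, hN3⟩ := dir_net U
  have h1 : (Finset.univ.filter fun s : Fin m → Bool × Bool => 2 * t < ‖pe U (ns s)‖) ⊆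
      N.biUnion fun ξ => Finset.univ.filter fun s : Fin m → Bool × Bool =>
        t < inner ℝ ξ (pe U (ns s)) := by
    intro s hs
    have hs' := (Finset.mem_filter.1 hs).2
    obtain ⟨ξ, hξ, h2⟩ := hN3 (pe U (ns s)) (pe_mem _ _) (by
      intro h0
      rw [h0, norm_zero] at hs'
      linarith)
    rw [Finset.mem_biUnion]
    exact ⟨ξ, hξ, Finset.mem_filter.2 ⟨Finset.mem_univ _, by linarith⟩⟩
  have h2 : ∀ ξ ∈ N, ((Finset.univ.filter fun s : Fin m → Bool × Bool =>
      t < inner ℝ ξ (pe U (ns s))).card : ℝ) ≤ 4 ^ m * Real.exp (-t ^ 2 / 2) := by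
    intro ξ hξ
    obtain ⟨hξU, hξ1⟩ := hN1 ξ hξ
    calc ((Finset.univ.filter fun s : Fin m → Bool × Bool =>
        t < inner ℝ ξ (pe U (ns s))).card : ℝ)
        = ∑ s ∈ Finset.univ.filter fun s : Fin m → Bool × Bool =>
          t < inner ℝ ξ (pe U (ns s)), (1 : ℝ) := by rw [Finset.sum_const, nsmul_eq_mul, mul_one]
      _ ≤ ∑ s ∈ Finset.univ.filter fun s : Fin m → Bool × Bool =>
          t < inner ℝ ξ (pe U (ns s)), Real.exp (∑ j, (t * ξ j) * ns s j) * Real.exp (-t ^ 2) := by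
          refine Finset.sum_le_sum fun s hs => ?_
          have hs' := (Finset.mem_filter.1 hs).2
          rw [inner_pe hξU] at hs'
          rw [← Real.exp_add]
          apply Real.one_le_exp
          have h3 : ∑ j, (t * ξ j) * (ns s j : ℝ) = t * ∑ j, ξ j * ns s j := by
            rw [Finset.mul_sum]
            exact Finset.sum_congr rfl fun j _ => by ring
          rw [h3]
          nlinarith
      _ ≤ ∑ s : Fin m → Bool × Bool, Real.exp (∑ j, (t * ξ j) * ns s j) * Real.exp (-t ^ 2) :=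
          Finset.sum_le_sum_of_subset_of_nonneg (Finset.subset_univ _) fun _ _ _ =>
            mul_nonneg (Real.exp_pos _).le (Real.exp_pos _).le
      _ = (∑ s : Fin m → Bool × Bool, Real.exp (∑ j, (t * ξ j) * ns s j)) * Real.exp (-t ^ 2) := by
          rw [Finset.sum_mul]
      _ ≤ (4 ^ m * Real.exp ((∑ j, (t * ξ j) ^ 2) / 4)) * Real.exp (-t ^ 2) :=
          mul_le_mul_of_nonneg_right (mgf _) (Real.exp_pos _).le
      _ ≤ 4 ^ m * Real.exp (-t ^ 2 / 2) := by
          have h4 : ∑ j, (t * ξ j) ^ 2 = t ^ 2 := by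
            have h5 := norm_sq_eq ξ
            rw [hξ1, one_pow] at h5
            calc ∑ j, (t * ξ j) ^ 2 = t ^ 2 * ∑ j, ξ j ^ 2 := by
                  rw [Finset.mul_sum]
                  exact Finset.sum_congr rfl fun j _ => by ring
              _ = t ^ 2 := by rw [← h5, mul_one]
          rw [h4, mul_assoc, ← Real.exp_add]
          refine mul_le_mul_of_nonneg_left (Real.exp_le_exp.2 ?_) (by positivity)
          nlinarith [sq_nonneg t]
  calc ((Finset.univ.filter fun s : Fin m → Bool × Bool => 2 * t < ‖pe U (ns s)‖).card : ℝ)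
      ≤ ∑ ξ ∈ N, ((Finset.univ.filter fun s : Fin m → Bool × Bool =>
        t < inner ℝ ξ (pe U (ns s))).card : ℝ) := by
        exact_mod_cast (Finset.card_le_card h1).trans Finset.card_biUnion_le
    _ ≤ ∑ ξ ∈ N, 4 ^ m * Real.exp (-t ^ 2 / 2) := Finset.sum_le_sum h2
    _ = N.card * (4 ^ m * Real.exp (-t ^ 2 / 2)) := by rw [Finset.sum_const, nsmul_eq_mul]
    _ ≤ (5 ^ Module.finrank ℝ U : ℕ) * (4 ^ m * Real.exp (-t ^ 2 / 2)) := by
        refine mul_le_mul_of_nonneg_right ?_ (by positivity)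
        exact_mod_cast hN2
    _ = 4 ^ m * (5 ^ Module.finrank ℝ U * Real.exp (-t ^ 2 / 2)) := by
        push_cast
        ring

variable {Γ : Type*} [AddCommGroup Γ] [Fintype Γ]

open Classical in
/-- Fourier transform of the physical law -/
noncomputable def nh {m : ℕ} (η : Fin m → (AddChar Γ ℂ →+ UnitAddCircle)) (H : AddSubgroup Γ)
    (γ : AddChar Γ ℂ) : ℝ :=
  (∏ j, (1 - u1 (η j γ) / 2)) * (if ∀ h ∈ H, γ h = 1 then 1 else 0)

theorem four {m : ℕ} {η : Fin m → (AddChar Γ ℂ →+ UnitAddCircle)} {y : Fin m → Γ}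
    (hy : IsEv η y) (γ : AddChar Γ ℂ) :
    ∑ s : Fin m → Bool × Bool, γ (phi y (ns s)) =
      ((4 ^ m * ∏ j, (1 - u1 (η j γ) / 2) : ℝ) : ℂ) := by
  have h1 : ∀ s : Fin m → Bool × Bool, γ (phi y (ns s)) = ∏ j, γ (bd (s j) • y j) := by
    intro s
    rw [phi_apply, addChar_map_sum]
    rfl
  rw [Finset.sum_congr rfl fun s _ => h1 s, sum_prod (fun j b => γ (bd b • y j))]
  push_cast
  rw [show (4 : ℂ) ^ m = ∏ _j : Fin m, (4 : ℂ) by simp, ← Finset.prod_mul_distrib]
  refine Finset.prod_congr rfl fun j _ => ?_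
  rw [sum_bd (fun k => γ (k • y j))]
  rw [zero_smul, one_smul, neg_one_zsmul, AddChar.map_zero_eq_one, AddChar.map_neg_eq_conj]
  have h2 : u1 (η j γ) = 1 - (γ (y j)).re := by
    rw [u1, hy]
  rw [h2]
  push_cast
  have h3 := Complex.add_conj (γ (y j))
  push_cast at h3
  linear_combination h3

open Classical in
theorem four_law {m : ℕ} {η : Fin m → (AddChar Γ ℂ →+ UnitAddCircle)} {y : Fin m → Γ}
    (hy : IsEv η y) (H : AddSubgroup Γ) (γ : AddChar Γ ℂ) :
    ∑ ω : (Fin m → Bool × Bool) × H, γ (phi y (ns ω.1) + ω.2) =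
      ((4 ^ m * Nat.card H * nh η H γ : ℝ) : ℂ) := by
  rw [Fintype.sum_prod_type]
  have h1 : ∑ s : Fin m → Bool × Bool, ∑ h : H, γ (phi y (ns s) + h) =
      (∑ s : Fin m → Bool × Bool, γ (phi y (ns s))) * ∑ h : H, γ h := by
    rw [Finset.sum_mul]
    refine Finset.sum_congr rfl fun s _ => ?_
    rw [Finset.mul_sum]
    exact Finset.sum_congr rfl fun h _ => AddChar.map_add_eq_mul _ _ _
  rw [h1, four hy]
  have h2 : ∑ h : H, γ h = ((Nat.card H * (if ∀ h ∈ H, γ h = 1 then 1 else 0) : ℝ) : ℂ) := by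
    have h3 := AddChar.sum_eq_ite (γ.compAddMonoidHom H.subtype)
    have h4 : (γ.compAddMonoidHom H.subtype = 0) ↔ ∀ h ∈ H, γ h = 1 := by
      constructor
      · intro h5 h hh
        exact congrArg (fun ψ : AddChar H ℂ => ψ ⟨h, hh⟩) h5
      · intro h5
        ext h
        exact h5 h.1 h.2
    have h6 : ∑ h : H, γ h = ∑ h : H, (γ.compAddMonoidHom H.subtype) h := rfl
    rw [h6, h3, Nat.card_eq_fintype_card]
    by_cases h7 : ∀ h ∈ H, γ h = 1
    · rw [if_pos (h4.2 h7), if_pos h7]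
      push_cast
      ring
    · rw [if_neg (fun h => h7 (h4.1 h)), if_neg h7]
      push_cast
      ring
  rw [h2, nh]
  push_cast
  ring

end H24.LW
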